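import Pool.Agent.Helper80.NToddD

/-!
# Polynomials dividing `X^K - 1` with `K` prime to `l` in residue classes

Over the field with two elements, for an odd prime `l`, every residue class prime to a
polynomial `M` divisible by `X` contains a divisor of some `X^K - 1` with `K > 0` prime to `l`.
-/

set_option autoImplicit false

namespace Pool.Agent.Helper80.NTodd

open Polynomial
open scoped Classical

theorem count_le (N k : ℕ) :
    ∑ j ∈ Finset.range N, (if k ∣ j + 1 then (1 : ℝ) else 0) ≤ N / k := by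
  rw [← Finset.sum_filter, Finset.sum_const, nsmul_eq_mul, mul_one, Nat.card_multiples]
  exact Nat.cast_div_le

/-- main lower bound on the average -/
theorem exists_weights (l : ℕ) (hl : l.Prime) (h2 : l ≠ 2) :
    ∃ (e : ℕ → ℝ) (δ : ℝ), 0 < δ ∧ (∀ N : ℕ, δ * N ≤ ∑ j ∈ Finset.range N, e (j + 1)) ∧
      ∀ j : ℕ, 1 ≤ j → ∃ K : ℕ, K ∣ 2 ^ j - 1 ∧ ¬ l ∣ K ∧
        e j * 2 ^ j ≤ 2 * (K : ℝ) - 2 ^ j + 2 := by
  by_cases h3 : l = 3
  · subst h3
    refine ⟨fun j => 1 - 4 / 3 * (if 2 ∣ j then 1 else 0) - 2 / 3 * (if 6 ∣ j then 1 else 0),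
      2 / 9, by norm_num, ?_, ?_⟩
    · intro N
      rw [Finset.sum_sub_distrib, Finset.sum_sub_distrib, ← Finset.mul_sum, ← Finset.mul_sum]
      have h4 := count_le N 2
      have h5 := count_le N 6
      simp only [Finset.sum_const, Finset.card_range, nsmul_eq_mul, mul_one]
      push_cast at h4 h5
      linarith
    · intro j hj
      have hmod : ∀ j : ℕ, 2 ^ j % 9 = 2 ^ (j % 6) % 9 := by
        intro j
        conv_lhs => rw [← Nat.div_add_mod j 6, pow_add, pow_mul, Nat.mul_mod, Nat.pow_mod]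
        norm_num
      have hpos : (1 : ℝ) ≤ 2 ^ j := one_le_pow₀ (by norm_num)
      have hpos' : 1 ≤ 2 ^ j := Nat.one_le_two_pow
      have hr : j % 6 < 6 := Nat.mod_lt _ (by norm_num)
      by_cases h6 : 6 ∣ j
      · refine ⟨1, one_dvd _, by norm_num, ?_⟩
        have h22 : 2 ∣ j := (by norm_num : 2 ∣ 6).trans h6
        simp only [if_pos h6, if_pos h22]
        push_cast
        linarith
      · by_cases h22 : 2 ∣ j
        · have h9 := hmod j
          have h7 : 2 ^ j % 9 = 4 ∨ 2 ^ j % 9 = 7 := by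
            have h8 : j % 6 = 2 ∨ j % 6 = 4 := by omega
            rcases h8 with h8 | h8
            · left; rw [h9, h8]; norm_num
            · right; rw [h9, h8]; norm_num
          obtain ⟨K, hK⟩ : 3 ∣ 2 ^ j - 1 := by omega
          refine ⟨K, ⟨3, by rw [hK, mul_comm]⟩, by omega, ?_⟩
          simp only [if_neg h6, if_pos h22]
          have h10 : (3 : ℝ) * K = 2 ^ j - 1 := by
            have : (3 * K : ℕ) = 2 ^ j - 1 := hK.symm
            have h11 : 3 * K + 1 = 2 ^ j := by omega
            have h12 : ((3 * K + 1 : ℕ) : ℝ) = ((2 ^ j : ℕ) : ℝ) := by rw [h11]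
            push_cast at h12
            linarith
          linarith
        · refine ⟨2 ^ j - 1, dvd_refl _, ?_, ?_⟩
          · have h9 := hmod j
            have h8 : j % 6 = 1 ∨ j % 6 = 3 ∨ j % 6 = 5 := by omega
            have h7 : 2 ^ j % 9 = 2 ∨ 2 ^ j % 9 = 8 ∨ 2 ^ j % 9 = 5 := by
              rcases h8 with h8 | h8 | h8
              · left; rw [h9, h8]; norm_num
              · right; left; rw [h9, h8]; norm_num
              · right; right; rw [h9, h8]; norm_num
            omega
          · simp only [if_neg h6, if_neg h22]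
            rw [Nat.cast_sub hpos']
            push_cast
            linarith
  · -- `l ≥ 5`
    have : Fact l.Prime := ⟨hl⟩
    set e := orderOf (2 : ZMod l) with he
    have h20 : (2 : ZMod l) ≠ 0 := by
      intro h
      have : ((2 : ℕ) : ZMod l) = 0 := by exact_mod_cast h
      rw [ZMod.natCast_eq_zero_iff] at this
      exact h2 ((Nat.prime_dvd_prime_iff_eq hl Nat.prime_two).mp this)
    have he0 : 0 < e := by
      rw [he, orderOf_pos_iff, isOfFinOrder_iff_pow_eq_one]
      exact ⟨l - 1, Nat.sub_pos_of_lt hl.one_lt, ZMod.pow_card_sub_one_eq_one h20⟩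
    have hpow : (2 : ZMod l) ^ e = 1 := pow_orderOf_eq_one _
    have he1 : e ≠ 1 := by
      intro h1
      rw [h1, pow_one] at hpow
      have h5 : (1 : ZMod l) = 0 := by linear_combination hpow
      exact one_ne_zero h5
    have he2 : e ≠ 2 := by
      intro h1
      rw [h1] at hpow
      have h5 : ((3 : ℕ) : ZMod l) = 0 := by
        push_cast
        linear_combination hpow
      rw [ZMod.natCast_eq_zero_iff] at h5
      exact h3 ((Nat.prime_dvd_prime_iff_eq hl Nat.prime_three).mp h5)
    have he3 : 3 ≤ e := by omega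
    refine ⟨fun j => 1 - 2 * (if e ∣ j then 1 else 0), 1 / 3, by norm_num, ?_, ?_⟩
    · intro N
      rw [Finset.sum_sub_distrib, ← Finset.mul_sum]
      have h4 := count_le N e
      simp only [Finset.sum_const, Finset.card_range, nsmul_eq_mul, mul_one]
      have h5 : (N : ℝ) / e ≤ N / 3 := by
        apply div_le_div_of_nonneg_left (Nat.cast_nonneg _) (by norm_num)
        exact_mod_cast he3
      linarith
    · intro j hj
      have hpos : (1 : ℝ) ≤ 2 ^ j := one_le_pow₀ (by norm_num)
      have hpos' : 1 ≤ 2 ^ j := Nat.one_le_two_pow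
      by_cases hd : e ∣ j
      · refine ⟨1, one_dvd _, fun h => hl.one_lt.ne' (Nat.dvd_one.mp h), ?_⟩
        simp only [if_pos hd]
        push_cast
        linarith
      · refine ⟨2 ^ j - 1, dvd_refl _, ?_, ?_⟩
        · intro h
          apply hd
          rw [he]
          apply orderOf_dvd_of_pow_eq_one
          have h5 : ((2 ^ j - 1 : ℕ) : ZMod l) = 0 := (ZMod.natCast_eq_zero_iff _ _).mpr h
          rw [Nat.cast_sub hpos'] at h5
          push_cast at h5
          linear_combination h5
        · simp only [if_neg hd]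
          rw [Nat.cast_sub hpos']
          push_cast
          linarith

/-- a character which is `1` on good polynomials prime to `M` is trivial -/
theorem char_trivial (l : ℕ) (hl : l.Prime) (h2 : l ≠ 2) (M : F2X) (hM : M ≠ 0)
    (χ : MulChar (AdjoinRoot M) ℂ)
    (hgood : ∀ P : F2X, Irreducible P → ¬ P ∣ M → Good l P → aa M χ P = 1) : χ = 1 := by
  by_contra hχ
  obtain ⟨e, δ, hδ, hsum, hK⟩ := exists_weights l hl h2
  set m := M.natDegree with hm
  set a := aa M χ with ha
  -- the polynomial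
  set S : ℂ[X] := ∑ i ∈ Finset.range m, Polynomial.monomial i (SS a i / 2 ^ i) with hS
  have hcoeff : ∀ d : ℕ, S.coeff d = SS a d / 2 ^ d := by
    intro d
    rw [hS, Polynomial.finsetSum_coeff]
    simp only [Polynomial.coeff_monomial]
    rw [Finset.sum_ite_eq' (Finset.range m) d]
    split_ifs with hd
    · rfl
    · rw [Finset.mem_range, not_lt] at hd
      rw [ha, SS_eq_zero M hM χ hχ hd, zero_div]
  have hS0 : S.coeff 0 = 1 := by
    rw [hcoeff, SS_zero, pow_zero, div_one]
  have hx : ∀ j, ‖cc a j / 2 ^ j‖ ≤ (1 : ℝ) := by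
    intro j
    rw [norm_div, norm_pow, Complex.norm_ofNat, div_le_one (by positivity)]
    exact norm_cc_le hM χ j
  refine key S.natDegree S le_rfl hS0 (fun j => cc a j / 2 ^ j) 1 hx ?_ δ (CM M + 2 + 1)
    hδ ?_
  · -- the identity
    ext d
    have h1 := recurrence a d
    rw [PowerSeries.coeff_mul, Finset.Nat.sum_antidiagonal_eq_sum_range_succ_mk]
    have h3 : ∑ k ∈ Finset.range d.succ,
        PowerSeries.coeff k (PowerSeries.mk fun j => cc a j / 2 ^ j) *
          PowerSeries.coeff (d - k) (S : PowerSeries ℂ) = (d * SS a d) / 2 ^ d := by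
      rw [← h1, Finset.sum_div]
      refine Finset.sum_congr rfl fun k hk => ?_
      rw [PowerSeries.coeff_mk, Polynomial.coeff_coe, hcoeff]
      have hkd : k ≤ d := by
        have := Finset.mem_range.mp hk
        omega
      have h4 : (2 : ℂ) ^ d = 2 ^ k * 2 ^ (d - k) := by
        rw [← pow_add]
        congr 1
        omega
      rw [h4, div_mul_div_comm]
    rw [h3]
    rcases d with _ | d
    · rw [Nat.cast_zero, zero_mul, zero_div, PowerSeries.coeff_zero_X_mul]
    · rw [PowerSeries.coeff_succ_X_mul, Polynomial.coeff_coe, Polynomial.coeff_derivative, hcoeff]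
      push_cast
      ring
  · intro N
    rw [Finset.sum_range_succ', Complex.add_re, Complex.re_sum]
    have h0 : -1 ≤ (cc a 0 / 2 ^ 0).re := by
      have h5 := hx 0
      have h6 := Complex.abs_re_le_norm (cc a 0 / 2 ^ 0)
      have h7 := neg_abs_le (cc a 0 / 2 ^ 0).re
      linarith
    have hterm : ∀ j ∈ Finset.range N, e (j + 1) - (CM M + 2 : ℝ) * (1 / 2) ^ (j + 1)
        ≤ (cc a (j + 1) / 2 ^ (j + 1)).re := by
      intro j _
      obtain ⟨K, hK1, hK2, hK3⟩ := hK (j + 1) (by omega)
      have h5 := re_cc_ge hM χ hgood (j := j + 1) (by omega) hK1 hK2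
      have hp : (0 : ℝ) < 2 ^ (j + 1) := by positivity
      have h6 : (cc a (j + 1) / 2 ^ (j + 1)).re = (cc a (j + 1)).re / 2 ^ (j + 1) := by
        have h7 : (2 : ℂ) ^ (j + 1) = ((2 ^ (j + 1) : ℝ) : ℂ) := by push_cast; rfl
        rw [h7, Complex.div_ofReal_re]
      rw [h6, le_div_iff₀ hp, sub_mul, mul_assoc, ← mul_pow]
      norm_num
      rw [ha]
      linarith
    have hgeo : ∑ j ∈ Finset.range N, ((1 : ℝ) / 2) ^ (j + 1) ≤ 1 := by
      have h8 : ∀ N : ℕ, ∑ j ∈ Finset.range N, ((1 : ℝ) / 2) ^ (j + 1) = 1 - (1 / 2) ^ N := by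
        intro N
        induction N with
        | zero => simp
        | succ N ih => rw [Finset.sum_range_succ, ih, pow_succ]; ring
      rw [h8]
      have : (0 : ℝ) ≤ (1 / 2) ^ N := by positivity
      linarith
    have h9 := Finset.sum_le_sum hterm
    rw [Finset.sum_sub_distrib, ← Finset.mul_sum] at h9
    have h10 := hsum N
    have h11 : (CM M + 2 : ℝ) * ∑ j ∈ Finset.range N, ((1 : ℝ) / 2) ^ (j + 1) ≤ CM M + 2 := by
      have : (0 : ℝ) ≤ CM M + 2 := by positivity
      nlinarith
    linarith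

/-- **Good polynomials in residue classes.** -/
theorem NT_odd (l : ℕ) (hl : l.Prime) (hodd : l ≠ 2) (M D0 : (ZMod 2)[X]) (hM : M ≠ 0)
    (_hX : X ∣ M) (hc : IsCoprime D0 M) :
    ∃ (D : (ZMod 2)[X]) (K : ℕ), M ∣ D - D0 ∧ 0 < K ∧ ¬ l ∣ K ∧ D ∣ X ^ K - 1 := by
  have hfin := finite_adjoinRoot M hM
  have hfin' : Finite (AdjoinRoot M)ˣ := inferInstance
  -- the subgroup of classes of good polynomials
  let H : Subgroup (AdjoinRoot M)ˣ :=
    { carrier := {u | ∃ D : F2X, Good l D ∧ AdjoinRoot.mk M D = (u : AdjoinRoot M)}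
      one_mem' := ⟨1, good_one hl, by rw [map_one, Units.val_one]⟩
      mul_mem' := by
        rintro u v ⟨D, hD, hDu⟩ ⟨E, hE, hEv⟩
        exact ⟨D * E, hD.mul hl hodd hE, by rw [map_mul, hDu, hEv, Units.val_mul]⟩
      inv_mem' := by
        rintro u ⟨D, hD, hDu⟩
        have hpow : ∀ n : ℕ, Good l (D ^ n) := by
          intro n
          induction n with
          | zero => rw [pow_zero]; exact good_one hl
          | succ n ih => rw [pow_succ]; exact ih.mul hl hodd hD
        refine ⟨D ^ (orderOf u - 1), hpow _, ?_⟩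
        rw [map_pow, hDu, ← Units.val_pow_eq_pow_val]
        congr 1
        have h1 : 0 < orderOf u := orderOf_pos u
        have h2 : u ^ (orderOf u - 1) * u = 1 := by
          rw [← pow_succ, Nat.sub_add_cancel h1, pow_orderOf_eq_one]
        exact eq_inv_of_mul_eq_one_left h2 }
  obtain ⟨u0, hu0⟩ := (isUnit_mk_iff M D0).mpr hc
  by_cases hmem : u0 ∈ H
  · obtain ⟨D, ⟨K, hK, hKl, hKD⟩, hD⟩ := hmem
    refine ⟨D, K, ?_, hK, hKl, hKD⟩
    rw [← AdjoinRoot.mk_eq_mk, hD, hu0]
  · exfalso
    have hq : (QuotientGroup.mk u0 : (AdjoinRoot M)ˣ ⧸ H) ≠ 1 := by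
      intro h
      exact hmem ((QuotientGroup.eq_one_iff u0).mp h)
    have hne : NeZero (Monoid.exponent ((AdjoinRoot M)ˣ ⧸ H)) := by
      constructor
      intro h0
      have h1 := Group.exponent_dvd_nat_card (G := (AdjoinRoot M)ˣ ⧸ H)
      rw [h0, zero_dvd_iff] at h1
      exact Nat.card_pos.ne' h1
    obtain ⟨φ, hφ⟩ := CommGroup.exists_apply_ne_one_of_hasEnoughRootsOfUnity
      ((AdjoinRoot M)ˣ ⧸ H) ℂ hq
    set ψ : (AdjoinRoot M)ˣ →* ℂˣ := φ.comp (QuotientGroup.mk' H) with hψ
    have hχ := char_trivial l hl hodd M hM (MulChar.ofUnitHom ψ) ?_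
    · apply hφ
      have h3 : (MulChar.ofUnitHom ψ) (u0 : AdjoinRoot M) = 1 := by
        rw [hχ, MulChar.one_apply_coe]
      rw [MulChar.ofUnitHom_coe] at h3
      have h4 : ψ u0 = 1 := Units.ext h3
      exact h4
    · intro P hP hPM hg
      have h5 : IsUnit (AdjoinRoot.mk M P) := by
        rw [isUnit_mk_iff]
        exact (hP.coprime_iff_not_dvd).mpr hPM
      obtain ⟨u, hu⟩ := h5
      have hmemu : u ∈ H := ⟨P, hg, hu.symm⟩
      rw [aa_apply, ← hu, MulChar.ofUnitHom_coe, hψ]
      have h6 : (QuotientGroup.mk' H) u = 1 := (QuotientGroup.eq_one_iff u).mpr hmemu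
      rw [MonoidHom.comp_apply, h6, map_one, Units.val_one]

end Pool.Agent.Helper80.NTodd
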