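import Mathlib

namespace Pool.Agent.Helper80.D0

theorem isCoprime_two_of_odd {y : ℤ} (h : Odd y) : IsCoprime (2 : ℤ) y := by
  obtain ⟨k, rfl⟩ := h
  exact ⟨-k, 1, by ring⟩

theorem pow4_of_coprime {X Y c : ℤ} (hX : 0 < X) (h : IsCoprime X Y) (e : X * Y = c ^ 4) :
    ∃ d : ℤ, 0 < d ∧ X = d ^ 4 := by
  obtain ⟨d, hd⟩ := exists_associated_pow_of_mul_eq_pow' h e
  have h4 : (0:ℤ) ≤ d ^ 4 := by positivity
  have hXd : X = d ^ 4 := by
    rcases Int.associated_iff.mp hd with h1 | h1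
    · exact h1.symm
    · omega
  have hd0 : d ≠ 0 := by
    rintro rfl
    norm_num at hXd
    omega
  refine ⟨|d|, abs_pos.mpr hd0, ?_⟩
  rw [hXd]
  have : |d| ^ 4 = |d ^ 4| := (abs_pow d 4).symm
  rw [this, abs_of_nonneg h4]

theorem pow4_inj {x y : ℤ} (hx : 0 < x) (hy : 0 < y) (h : x ^ 4 = y ^ 4) : x = y := by
  have := (pow_left_inj₀ hx.le hy.le (by norm_num : (4:ℕ) ≠ 0)).mp h
  exact this

theorem eq_or_neg_of_pow4 {x y : ℤ} (h : x ^ 4 = y ^ 4) : x = y ∨ x = -y := by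
  have h2 : (x ^ 2) ^ 2 = (y ^ 2) ^ 2 := by ring_nf; ring_nf at h; exact h
  rcases sq_eq_sq_iff_eq_or_eq_neg.mp h2 with h3 | h3
  · exact sq_eq_sq_iff_eq_or_eq_neg.mp h3
  · have hx : x ^ 2 = 0 := by nlinarith [sq_nonneg x, sq_nonneg y]
    have hy : y ^ 2 = 0 := by nlinarith [sq_nonneg x, sq_nonneg y]
    left
    rw [pow_eq_zero_iff two_ne_zero] at hx hy
    rw [hx, hy]

theorem coprime_of_sum_prod {X Y : ℤ} (h : IsCoprime (X + Y) (X * Y)) : IsCoprime X Y := by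
  have h1 : IsCoprime (X + Y) X := h.of_mul_right_left
  obtain ⟨u, v, huv⟩ := h1
  exact ⟨u + v, u, by linear_combination huv⟩

/-- split of a product `2^k * m^4` of coprime factors, only the case used: `X * Y = 8 m^4` -/
theorem split8 {X Y m : ℤ} (hX : 0 < X) (hY : 0 < Y) (hc : IsCoprime X Y) (h : X * Y = 8 * m ^ 4)
    (hodd : Odd (X + Y)) :
    ∃ p q : ℤ, 0 < p ∧ 0 < q ∧ ((X = 8 * q ^ 4 ∧ Y = p ^ 4) ∨ (X = p ^ 4 ∧ Y = 8 * q ^ 4)) ∧
      (m ^ 4 = (p * q) ^ 4) := by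
  rcases Int.even_or_odd X with hXe | hXo
  · -- X even
    have hYo : Odd Y := by
      rcases Int.even_or_odd Y with h1 | h1
      · exact absurd (hXe.add h1) (by rw [Int.not_even_iff_odd]; exact hodd)
      · exact h1
    have hcop8 : IsCoprime (8 : ℤ) Y := by
      have : IsCoprime (2 : ℤ) Y := isCoprime_two_of_odd hYo
      have h3 := IsCoprime.pow_left (m := 3) this
      norm_num at h3
      exact h3
    have h8 : (8 : ℤ) ∣ X := hcop8.dvd_of_dvd_mul_right ⟨m ^ 4, h⟩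
    obtain ⟨X', rfl⟩ := h8
    have hX' : 0 < X' := by omega
    have he : X' * Y = m ^ 4 := by linarith [h, mul_assoc (8:ℤ) X' Y]
    have hc' : IsCoprime X' Y := hc.of_mul_left_right
    obtain ⟨q, hq, hXq⟩ := pow4_of_coprime hX' hc' he
    obtain ⟨p, hp, hYp⟩ := pow4_of_coprime hY hc'.symm (by rw [mul_comm]; exact he)
    refine ⟨p, q, hp, hq, Or.inl ⟨by rw [hXq], hYp⟩, ?_⟩
    rw [← he, hXq, hYp]; ring
  · have hYe : Even Y := by
      rcases Int.even_or_odd Y with h1 | h1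
      · exact h1
      · exact absurd (hXo.add_odd h1) (by rw [Int.not_even_iff_odd]; exact hodd)
    have hcop8 : IsCoprime (8 : ℤ) X := by
      have : IsCoprime (2 : ℤ) X := isCoprime_two_of_odd hXo
      have h3 := IsCoprime.pow_left (m := 3) this
      norm_num at h3
      exact h3
    have h8 : (8 : ℤ) ∣ Y := hcop8.dvd_of_dvd_mul_left ⟨m ^ 4, h⟩
    obtain ⟨Y', rfl⟩ := h8
    have hY' : 0 < Y' := by omega
    have he : X * Y' = m ^ 4 := by linarith [h, mul_left_comm X (8:ℤ) Y']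
    have hc' : IsCoprime X Y' := hc.of_mul_right_right
    obtain ⟨p, hp, hXp⟩ := pow4_of_coprime hX hc' he
    obtain ⟨q, hq, hYq⟩ := pow4_of_coprime hY' hc'.symm (by rw [mul_comm]; exact he)
    refine ⟨p, q, hp, hq, Or.inr ⟨hXp, by rw [hYq]⟩, ?_⟩
    rw [← he, hXp, hYq]; ring

theorem split2 {X Y m : ℤ} (hX : 0 < X) (hY : 0 < Y) (hc : IsCoprime X Y) (h : X * Y = 2 * m ^ 4)
    (hodd : Odd (X + Y)) :
    ∃ r s : ℤ, 0 < r ∧ 0 < s ∧ ((X = 2 * s ^ 4 ∧ Y = r ^ 4) ∨ (X = r ^ 4 ∧ Y = 2 * s ^ 4)) ∧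
      (m ^ 4 = (r * s) ^ 4) := by
  rcases Int.even_or_odd X with hXe | hXo
  · obtain ⟨X', hX2⟩ := hXe.two_dvd
    subst hX2
    have hX' : 0 < X' := by omega
    have he : X' * Y = m ^ 4 := by linarith [h, mul_assoc (2:ℤ) X' Y]
    have hc' : IsCoprime X' Y := hc.of_mul_left_right
    obtain ⟨q, hq, hXq⟩ := pow4_of_coprime hX' hc' he
    obtain ⟨p, hp, hYp⟩ := pow4_of_coprime hY hc'.symm (by rw [mul_comm]; exact he)
    refine ⟨p, q, hp, hq, Or.inl ⟨by rw [hXq], hYp⟩, ?_⟩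
    rw [← he, hXq, hYp]; ring
  · have hYe : Even Y := by
      rcases Int.even_or_odd Y with h1 | h1
      · exact h1
      · exact absurd (hXo.add_odd h1) (by rw [Int.not_even_iff_odd]; exact hodd)
    obtain ⟨Y', hY2⟩ := hYe.two_dvd
    subst hY2
    have hY' : 0 < Y' := by omega
    have he : X * Y' = m ^ 4 := by linarith [h, mul_left_comm X (2:ℤ) Y']
    have hc' : IsCoprime X Y' := hc.of_mul_right_right
    obtain ⟨p, hp, hXp⟩ := pow4_of_coprime hX hc' he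
    obtain ⟨q, hq, hYq⟩ := pow4_of_coprime hY' hc'.symm (by rw [mul_comm]; exact he)
    refine ⟨p, q, hp, hq, Or.inr ⟨hXp, by rw [hYq]⟩, ?_⟩
    rw [← he, hXp, hYq]; ring

theorem mod8_pow4_odd {x : ℤ} (h : Odd x) : x ^ 4 % 16 = 1 := by
  obtain ⟨k, rfl⟩ := h
  have : (2 * k + 1) ^ 4 = 16 * (k ^ 4 + 2 * k ^ 3 + k ^ 2) + 8 * (k * (k + 1)) + 1 := by ring
  have h2 : Even (k * (k + 1)) := Int.even_mul_succ_self k
  obtain ⟨j, hj⟩ := h2
  rw [this, hj]
  omega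

theorem sq_mod8 (x : ℤ) : x ^ 2 % 8 = 0 ∨ x ^ 2 % 8 = 1 ∨ x ^ 2 % 8 = 4 := by
  have h : x % 8 = 0 ∨ x % 8 = 1 ∨ x % 8 = 2 ∨ x % 8 = 3 ∨ x % 8 = 4 ∨ x % 8 = 5 ∨ x % 8 = 6 ∨ x % 8 = 7 := by omega
  rw [pow_two, Int.mul_emod]
  rcases h with h | h | h | h | h | h | h | h <;> simp [h]

theorem descent (a b c : ℤ) (hb : 0 < b) (ha : a ≠ 0) (hab : IsCoprime a b)
    (h : c ^ 2 = b ^ 4 - 2 * a ^ 4) :
    ∃ r s p : ℤ, 0 < r ∧ 0 < s ∧ b = r ^ 4 + 2 * s ^ 4 ∧
      (a = 2 * p * r * s ∨ a = -(2 * p * r * s)) ∧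
      (p ^ 2 = r ^ 4 - 2 * s ^ 4 ∨ p ^ 2 = 2 * s ^ 4 - r ^ 4) := by
  have hcsq := sq_mod8 c
  -- b is odd
  have hbo : Odd b := by
    rcases Int.even_or_odd b with h1 | h1
    · exfalso
      rcases Int.even_or_odd a with h2 | h2
      · have h3 : (2:ℤ) ∣ 1 := by
          obtain ⟨u, v, huv⟩ := hab
          rw [← huv]
          exact dvd_add (h2.two_dvd.mul_left _) (h1.two_dvd.mul_left _)
        omega
      · have h4 := mod8_pow4_odd h2
        obtain ⟨k, rfl⟩ := h1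
        have : (k + k) ^ 4 = 16 * k ^ 4 := by ring
        rw [this] at h
        omega
    · exact h1
  have hb4 := mod8_pow4_odd hbo
  have hae : Even a := by
    rcases Int.even_or_odd a with h2 | h2
    · exact h2
    · exfalso
      have h4 := mod8_pow4_odd h2
      omega
  obtain ⟨a', ha2⟩ := hae.two_dvd
  subst ha2
  have ha' : a' ≠ 0 := by rintro rfl; simp at ha
  have hc8 : c ^ 2 = b ^ 4 - 32 * a' ^ 4 := by rw [h]; ring
  have hco : Odd c := by
    rcases Int.even_or_odd c with h2 | h2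
    · exfalso
      obtain ⟨k, rfl⟩ := h2
      have : (k + k) ^ 2 = 4 * k ^ 2 := by ring
      rw [this] at hc8
      omega
    · exact h2
  have hb2 : Odd (b ^ 2) := hbo.pow
  obtain ⟨X, hX⟩ := (hb2.sub_odd hco).two_dvd
  obtain ⟨Y, hY⟩ := (hb2.add_odd hco).two_dvd
  have hsum : X + Y = b ^ 2 := by linarith
  have hprod : X * Y = 8 * a' ^ 4 := by
    have : (2 * X) * (2 * Y) = 32 * a' ^ 4 := by
      rw [← hX, ← hY]; linear_combination -hc8
    linarith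
  have hcop_b2 : IsCoprime b 2 := (isCoprime_two_of_odd hbo).symm
  have hcop_ba' : IsCoprime b a' := (hab.of_mul_left_right).symm
  have hcopXY : IsCoprime X Y := by
    apply coprime_of_sum_prod
    rw [hsum, hprod]
    apply IsCoprime.pow_left
    apply IsCoprime.mul_right
    · have := IsCoprime.pow_right (n := 3) hcop_b2
      norm_num at this
      exact this
    · exact IsCoprime.pow_right hcop_ba'
  have ha4 : 0 < a' ^ 4 := by positivity
  have hb2pos : 0 < b ^ 2 := by positivity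
  have hXYpos : 0 < X ∧ 0 < Y := by
    rcases pos_and_pos_or_neg_and_neg_of_mul_pos (show 0 < X * Y by rw [hprod]; positivity) with h1 | h1
    · exact h1
    · omega
  obtain ⟨p, q, hp, hq, hpq, hm⟩ := split8 hXYpos.1 hXYpos.2 hcopXY hprod (by rw [hsum]; exact hb2)
  have hbpq : b ^ 2 = p ^ 4 + 8 * q ^ 4 := by
    rcases hpq with ⟨h1, h2⟩ | ⟨h1, h2⟩
    · rw [← hsum, h1, h2]; ring
    · rw [← hsum, h1, h2]
  have ha'pq := eq_or_neg_of_pow4 hm
  have hpo : Odd p := by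
    rcases Int.even_or_odd p with h2 | h2
    · exfalso
      obtain ⟨k, rfl⟩ := h2
      have h3 : (k + k) ^ 4 = 16 * k ^ 4 := by ring
      rw [h3] at hbpq
      have h4 : b ^ 4 = (b ^ 2) ^ 2 := by ring
      obtain ⟨j, hj⟩ := hb2
      omega
    · exact h2
  have hp2 : Odd (p ^ 2) := hpo.pow
  obtain ⟨X2, hX2⟩ := (hbo.sub_odd hp2).two_dvd
  obtain ⟨Y2, hY2⟩ := (hbo.add_odd hp2).two_dvd
  have hsum2 : X2 + Y2 = b := by linarith
  have hprod2 : X2 * Y2 = 2 * q ^ 4 := by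
    have : (2 * X2) * (2 * Y2) = 8 * q ^ 4 := by
      rw [← hX2, ← hY2]; linear_combination hbpq
    linarith
  have hcop_bq : IsCoprime b q := by
    have hq' : q ∣ a' := by
      rcases ha'pq with h1 | h1
      · rw [h1]; exact dvd_mul_left _ _
      · rw [h1]; exact (dvd_mul_left _ _).neg_right
    obtain ⟨z, hz⟩ := hq'
    rw [hz] at hcop_ba'
    exact hcop_ba'.of_mul_right_left
  have hcop2 : IsCoprime X2 Y2 := by
    apply coprime_of_sum_prod
    rw [hsum2, hprod2]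
    exact IsCoprime.mul_right hcop_b2 (IsCoprime.pow_right hcop_bq)
  have hXYpos2 : 0 < X2 ∧ 0 < Y2 := by
    rcases pos_and_pos_or_neg_and_neg_of_mul_pos (show 0 < X2 * Y2 by rw [hprod2]; positivity) with h1 | h1
    · exact h1
    · omega
  obtain ⟨r, s, hr, hs, hrs, hm2⟩ := split2 hXYpos2.1 hXYpos2.2 hcop2 hprod2 (by rw [hsum2]; exact hbo)
  have hqrs : q = r * s := pow4_inj hq (by positivity) hm2
  refine ⟨r, s, p, hr, hs, ?_, ?_, ?_⟩
  · rcases hrs with ⟨h1, h2⟩ | ⟨h1, h2⟩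
    · rw [← hsum2, h1, h2]; ring
    · rw [← hsum2, h1, h2]
  · rcases ha'pq with h1 | h1
    · left; rw [h1, hqrs]; ring
    · right; rw [h1, hqrs]; ring
  · have hp3 : p ^ 2 = Y2 - X2 := by linarith
    rcases hrs with ⟨h1, h2⟩ | ⟨h1, h2⟩
    · left; rw [hp3, h1, h2]
    · right; rw [hp3, h1, h2]

end Pool.Agent.Helper80.D0
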