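import Mathlib

set_option maxRecDepth 100000

namespace Pool.Agent.Helper80.D0

/-- Rational points of the curve `s^2 = 1 - 2 w^4`. -/
@[ext] structure Pt where
  w : ℚ
  s : ℚ
  h : s ^ 2 = 1 - 2 * w ^ 4

theorem den_pos (w v : ℚ) : 0 < 1 + 2 * w ^ 2 * v ^ 2 := by positivity
theorem den_ne (w v : ℚ) : 1 + 2 * w ^ 2 * v ^ 2 ≠ 0 := (den_pos w v).ne'

theorem assoc_w (w s v t u r : ℚ) (h1 : s^2 = 1 - 2*w^4) (h2 : t^2 = 1 - 2*v^4) (h3 : r^2 = 1 - 2*u^4) :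
  (((w*t+v*s)*r*(1+2*w^2*v^2) + u*(s*t*(1-2*w^2*v^2)-4*w*v*(w^2+v^2))) * ((1+2*v^2*u^2)^2+2*w^2*(v*r+u*t)^2))
  = (((v*r+u*t)*s*(1+2*v^2*u^2) + w*(t*r*(1-2*v^2*u^2)-4*v*u*(v^2+u^2))) * ((1+2*w^2*v^2)^2+2*u^2*(w*t+v*s)^2)) := by
  grind

theorem closed_aux (w s v t : ℚ) (h1 : s^2 = 1 - 2*w^4) (h2 : t^2 = 1 - 2*v^4) :
    (s*t*(1-2*w^2*v^2)-4*w*v*(w^2+v^2))^2 = (1+2*w^2*v^2)^4 - 2*(w*t+v*s)^4 := by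
  grind

def add (a b : Pt) : Pt where
  w := (a.w * b.s + b.w * a.s) / (1 + 2 * a.w ^ 2 * b.w ^ 2)
  s := (a.s * b.s * (1 - 2 * a.w ^ 2 * b.w ^ 2) - 4 * a.w * b.w * (a.w ^ 2 + b.w ^ 2)) /
        (1 + 2 * a.w ^ 2 * b.w ^ 2) ^ 2
  h := by
    have hD := den_ne a.w b.w
    have := closed_aux a.w a.s b.w b.s a.h b.h
    rw [div_pow, div_pow, this]
    field_simp

instance : Zero Pt := ⟨⟨0, 1, by norm_num⟩⟩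
instance : Add Pt := ⟨add⟩
instance : Neg Pt := ⟨fun a => ⟨-a.w, a.s, by rw [a.h]; ring⟩⟩

theorem add_w (a b : Pt) : (a + b).w = (a.w * b.s + b.w * a.s) / (1 + 2 * a.w ^ 2 * b.w ^ 2) := rfl
theorem add_s (a b : Pt) : (a + b).s = (a.s * b.s * (1 - 2 * a.w ^ 2 * b.w ^ 2) - 4 * a.w * b.w * (a.w ^ 2 + b.w ^ 2)) /
        (1 + 2 * a.w ^ 2 * b.w ^ 2) ^ 2 := rfl
theorem zero_w : (0 : Pt).w = 0 := rfl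
theorem zero_s : (0 : Pt).s = 1 := rfl
theorem neg_w (a : Pt) : (-a).w = -a.w := rfl
theorem neg_s (a : Pt) : (-a).s = a.s := rfl

theorem pt_add_comm (a b : Pt) : a + b = b + a := by
  ext
  · rw [add_w, add_w]; congr 1 <;> ring
  · rw [add_s, add_s]; congr 1 <;> ring

theorem pt_zero_add (a : Pt) : 0 + a = a := by
  ext
  · rw [add_w, zero_w, zero_s]; ring
  · rw [add_s, zero_w, zero_s]; ring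

theorem pt_neg_add (a : Pt) : -a + a = 0 := by
  ext
  · rw [add_w, zero_w, neg_w, neg_s]
    have : -a.w * a.s + a.w * a.s = 0 := by ring
    rw [this, zero_div]
  · rw [add_s, zero_s, neg_w, neg_s]
    have hD : (1 + 2 * (-a.w) ^ 2 * a.w ^ 2) ≠ 0 := den_ne _ _
    rw [div_eq_one_iff_eq (pow_ne_zero 2 hD)]
    have := a.h
    linear_combination (1 - 2 * a.w ^ 4) * this


theorem comb_aux (s t r S T R ar at_ as_ astr ar2 at2 as2 astr2 b1 btr c1 cst : ℚ)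
    (hs : s ^ 2 = S) (ht : t ^ 2 = T) (hr : r ^ 2 = R)
    (e1 : ar * b1 + at_ * btr * T = ar2 * c1 + astr2 * cst * S * T)
    (e2 : at_ * b1 + ar * btr * R = at2 * c1 + as2 * cst * S)
    (e3 : as_ * b1 + astr * btr * T * R = as2 * c1 + at2 * cst * T)
    (e4 : astr * b1 + as_ * btr = astr2 * c1 + ar2 * cst) :
    (ar * r + at_ * t + as_ * s + astr * s * t * r) * (b1 + btr * t * r)
      = (ar2 * r + at2 * t + as2 * s + astr2 * s * t * r) * (c1 + cst * s * t) := by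
  subst hs ht hr
  linear_combination r * e1 + t * e2 + s * e3 + s * t * r * e4

theorem q1 (w s v t u : ℚ) (h1 : s^2 = 1 - 2*w^4) (h2 : t^2 = 1 - 2*v^4) :
    ((1+2*w^2*v^2)^2+2*u^2*(w*t+v*s)^2)^2 = ((16)*w^8*v^8 + (-32)*w^8*v^6*u^2 + (16)*w^8*v^4*u^4 + (-32)*w^6*v^8*u^2 + (96)*w^6*v^6*u^4 + (32)*w^6*v^6 + (-16)*w^6*v^4*u^2 + (-48)*w^6*v^2*u^4 + (16)*w^4*v^8*u^4 + (-16)*w^4*v^6*u^2 + (-32)*w^4*v^4*u^4 + (24)*w^4*v^4 + (8)*w^4*v^2*u^2 + (4)*w^4*u^4 + (-48)*w^2*v^6*u^4 + (8)*w^2*v^4*u^2 + (24)*w^2*v^2*u^4 + (8)*w^2*v^2 + (4)*w^2*u^2 + (4)*v^4*u^4 + (4)*v^2*u^2 + (1)) + ((32)*w^5*v^5*u^2 + (-32)*w^5*v^3*u^4 + (-32)*w^3*v^5*u^4 + (32)*w^3*v^3*u^2 + (16)*w^3*v*u^4 + (16)*w*v^3*u^4 + (8)*w*v*u^2)*s*t := by grind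
theorem q2 (w v t u r : ℚ) (h2 : t^2 = 1 - 2*v^4) (h3 : r^2 = 1 - 2*u^4) :
    ((1+2*v^2*u^2)^2+2*w^2*(v*r+u*t)^2)^2 = ((16)*w^4*v^8*u^4 + (96)*w^4*v^6*u^6 + (-48)*w^4*v^6*u^2 + (16)*w^4*v^4*u^8 + (-32)*w^4*v^4*u^4 + (4)*w^4*v^4 + (-48)*w^4*v^2*u^6 + (24)*w^4*v^2*u^2 + (4)*w^4*u^4 + (-32)*w^2*v^8*u^6 + (-32)*w^2*v^6*u^8 + (-16)*w^2*v^6*u^4 + (-16)*w^2*v^4*u^6 + (8)*w^2*v^4*u^2 + (8)*w^2*v^2*u^4 + (4)*w^2*v^2 + (4)*w^2*u^2 + (16)*v^8*u^8 + (32)*v^6*u^6 + (24)*v^4*u^4 + (8)*v^2*u^2 + (1)) + ((-32)*w^4*v^5*u^3 + (-32)*w^4*v^3*u^5 + (16)*w^4*v^3*u + (16)*w^4*v*u^3 + (32)*w^2*v^5*u^5 + (32)*w^2*v^3*u^3 + (8)*w^2*v*u)*t*r := by grind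
theorem r1 (w s v t u r : ℚ) (h1 : s^2 = 1 - 2*w^4) (h2 : t^2 = 1 - 2*v^4) :
    (s*t*(1-2*w^2*v^2)-4*w*v*(w^2+v^2))*r*((1+2*w^2*v^2)^2-2*(w*t+v*s)^2*u^2)-4*(w*t+v*s)*(1+2*w^2*v^2)*u*((w*t+v*s)^2+u^2*(1+2*w^2*v^2)^2)
     = ((32)*w^7*v^7*u^2 + (-16)*w^7*v^5 + (-32)*w^7*v^3*u^2 + (-16)*w^5*v^7 + (-48)*w^5*v^5*u^2 + (-16)*w^5*v^3 + (16)*w^5*v*u^2 + (-32)*w^3*v^7*u^2 + (-16)*w^3*v^5 + (24)*w^3*v^3*u^2 + (-4)*w^3*v + (16)*w*v^5*u^2 + (-4)*w*v^3 + (-4)*w*v*u^2)*r + ((-32)*w^7*v^6*u^3 + (48)*w^7*v^4*u + (16)*w^5*v^6*u + (-48)*w^5*v^4*u^3 + (16)*w^5*v^2*u + (-16)*w^3*v^4*u + (-24)*w^3*v^2*u^3 + (-4)*w^3*u + (-12)*w*v^2*u + (-4)*w*u^3)*t + ((-32)*w^6*v^7*u^3 + (16)*w^6*v^5*u + (48)*w^4*v^7*u + (-48)*w^4*v^5*u^3 + (-16)*w^4*v^3*u + (16)*w^2*v^5*u + (-24)*w^2*v^3*u^3 + (-12)*w^2*v*u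 + (-4)*v^3*u + (-4)*v*u^3)*s + ((-8)*w^6*v^6 + (-8)*w^6*v^4*u^2 + (-8)*w^4*v^6*u^2 + (-4)*w^4*v^4 + (24)*w^4*v^2*u^2 + (24)*w^2*v^4*u^2 + (2)*w^2*v^2 + (-2)*w^2*u^2 + (-2)*v^2*u^2 + (1))*s*t*r := by grind
theorem r2 (w s v t u r : ℚ) (h2 : t^2 = 1 - 2*v^4) (h3 : r^2 = 1 - 2*u^4) :
    s*(t*r*(1-2*v^2*u^2)-4*v*u*(v^2+u^2))*((1+2*v^2*u^2)^2-2*w^2*(v*r+u*t)^2)-4*w*(v*r+u*t)*(1+2*v^2*u^2)*(w^2*(1+2*v^2*u^2)^2+(v*r+u*t)^2)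
     = ((-32)*w^3*v^7*u^6 + (-48)*w^3*v^5*u^4 + (-24)*w^3*v^3*u^2 + (-4)*w^3*v + (48)*w*v^7*u^4 + (16)*w*v^5*u^6 + (16)*w*v^5*u^2 + (-16)*w*v^3*u^4 + (-4)*w*v^3 + (-12)*w*v*u^2)*r + ((-32)*w^3*v^6*u^7 + (-48)*w^3*v^4*u^5 + (-24)*w^3*v^2*u^3 + (-4)*w^3*u + (16)*w*v^6*u^5 + (48)*w*v^4*u^7 + (-16)*w*v^4*u^3 + (16)*w*v^2*u^5 + (-12)*w*v^2*u + (-4)*w*u^3)*t + ((32)*w^2*v^7*u^7 + (-32)*w^2*v^7*u^3 + (-48)*w^2*v^5*u^5 + (16)*w^2*v^5*u + (-32)*w^2*v^3*u^7 + (24)*w^2*v^3*u^3 + (16)*w^2*v*u^5 + (-4)*w^2*v*u + (-16)*v^7*u^5 + (-16)*v^5*u^7 + (-16)*v^5*u^3 + (-16)*v^3*u^5 + (-4)*v^3*u + (-4)*v*u^3)*s + ((-8)*w^2*v^6*u^4 + (-8)*w^2*v^4*u^6 + (24)*w^2*v^4*u^2 + (24)*w^2*v^2*u^4 + (-2)*w^2*v^2 + (-2)*w^2*u^2 + (-8)*v^6*u^6 + (-4)*v^4*u^4 + (2)*v^2*u^2 + (1))*s*t*r := by grind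
theorem assoc_s (w s v t u r : ℚ) (h1 : s^2 = 1 - 2*w^4) (h2 : t^2 = 1 - 2*v^4) (h3 : r^2 = 1 - 2*u^4) :
    ((s*t*(1-2*w^2*v^2)-4*w*v*(w^2+v^2))*r*((1+2*w^2*v^2)^2-2*(w*t+v*s)^2*u^2)-4*(w*t+v*s)*(1+2*w^2*v^2)*u*((w*t+v*s)^2+u^2*(1+2*w^2*v^2)^2))
      * ((1+2*v^2*u^2)^2+2*w^2*(v*r+u*t)^2)^2
    = (s*(t*r*(1-2*v^2*u^2)-4*v*u*(v^2+u^2))*((1+2*v^2*u^2)^2-2*w^2*(v*r+u*t)^2)-4*w*(v*r+u*t)*(1+2*v^2*u^2)*(w^2*(1+2*v^2*u^2)^2+(v*r+u*t)^2))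
      * ((1+2*w^2*v^2)^2+2*u^2*(w*t+v*s)^2)^2 := by
  rw [q1 w s v t u h1 h2, q2 w v t u r h2 h3, r1 w s v t u r h1 h2, r2 w s v t u r h2 h3]
  apply comb_aux s t r (1 - 2*w^4) (1 - 2*v^4) (1 - 2*u^4) _ _ _ _ _ _ _ _ _ _ _ _ h1 h2 h3
  · ring
  · ring
  · ring
  · ring

theorem frac_w (N D N2 u r : ℚ) (hD : D ≠ 0) :
    (N / D * r + u * (N2 / D ^ 2)) / (1 + 2 * (N / D) ^ 2 * u ^ 2)
      = (N * r * D + u * N2) / (D ^ 2 + 2 * u ^ 2 * N ^ 2) := by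
  have h1 : 1 + 2 * (N / D) ^ 2 * u ^ 2 = (D ^ 2 + 2 * u ^ 2 * N ^ 2) / D ^ 2 := by
    field_simp
  have h2 : N / D * r + u * (N2 / D ^ 2) = (N * r * D + u * N2) / D ^ 2 := by
    field_simp
  rw [h1, h2, div_div_div_cancel_right₀ (pow_ne_zero 2 hD)]

theorem frac_s (N D N2 u r : ℚ) (hD : D ≠ 0) :
    ((N2 / D ^ 2) * r * (1 - 2 * (N / D) ^ 2 * u ^ 2) - 4 * (N / D) * u * ((N / D) ^ 2 + u ^ 2)) /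
      (1 + 2 * (N / D) ^ 2 * u ^ 2) ^ 2
      = (N2 * r * (D ^ 2 - 2 * N ^ 2 * u ^ 2) - 4 * N * D * u * (N ^ 2 + u ^ 2 * D ^ 2)) /
        (D ^ 2 + 2 * u ^ 2 * N ^ 2) ^ 2 := by
  have h1 : 1 + 2 * (N / D) ^ 2 * u ^ 2 = (D ^ 2 + 2 * u ^ 2 * N ^ 2) / D ^ 2 := by
    field_simp
  have h2 : (N2 / D ^ 2) * r * (1 - 2 * (N / D) ^ 2 * u ^ 2) - 4 * (N / D) * u * ((N / D) ^ 2 + u ^ 2)
     = (N2 * r * (D ^ 2 - 2 * N ^ 2 * u ^ 2) - 4 * N * D * u * (N ^ 2 + u ^ 2 * D ^ 2)) / (D ^ 2) ^ 2 := by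
    field_simp
  rw [h1, h2, div_pow, div_div_div_cancel_right₀ (pow_ne_zero 2 (pow_ne_zero 2 hD))]

theorem pt_add_assoc (a b c : Pt) : a + b + c = a + (b + c) := by
  have hD := den_ne a.w b.w
  have hE := den_ne b.w c.w
  have hQ : (1 + 2 * a.w ^ 2 * b.w ^ 2) ^ 2 + 2 * c.w ^ 2 * (a.w * b.s + b.w * a.s) ^ 2 ≠ 0 := by
    have := den_pos a.w b.w
    positivity
  have hR : (1 + 2 * b.w ^ 2 * c.w ^ 2) ^ 2 + 2 * a.w ^ 2 * (b.w * c.s + c.w * b.s) ^ 2 ≠ 0 := by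
    have := den_pos b.w c.w
    positivity
  ext
  · rw [pt_add_comm a (b + c), add_w, add_w, add_w, add_w, add_s, add_s,
      frac_w _ _ _ _ _ hD, frac_w _ _ _ _ _ hE, div_eq_div_iff hQ hR]
    have := assoc_w a.w a.s b.w b.s c.w c.s a.h b.h c.h
    linear_combination this
  · rw [pt_add_comm a (b + c), add_s (a + b), add_s (b + c), add_s a b, add_s b c, add_w a b, add_w b c,
      frac_s _ _ _ _ _ hD, frac_s _ _ _ _ _ hE,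
      div_eq_div_iff (pow_ne_zero 2 hQ) (pow_ne_zero 2 hR)]
    have := assoc_s a.w a.s b.w b.s c.w c.s a.h b.h c.h
    linear_combination this

instance : AddCommGroup Pt where
  add_assoc := pt_add_assoc
  zero_add := pt_zero_add
  add_zero a := by rw [pt_add_comm, pt_zero_add]
  neg_add_cancel := pt_neg_add
  add_comm := pt_add_comm
  nsmul := nsmulRec
  zsmul := zsmulRec

end Pool.Agent.Helper80.D0
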