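import Mathlib
import Pool.Agent.Helper80.D0Group
import Pool.Agent.Helper80.D0Descent

namespace Pool.Agent.Helper80.D0

def P : Pt := ⟨2 / 3, -7 / 9, by norm_num⟩
def T : Pt := ⟨0, -1, by norm_num⟩

def Gam : AddSubgroup Pt := AddSubgroup.closure {P, T}

theorem P_mem : P ∈ Gam := AddSubgroup.subset_closure (by simp)
theorem T_mem : T ∈ Gam := AddSubgroup.subset_closure (by simp)

theorem add_T_w (a : Pt) : (a + T).w = -a.w := by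
  rw [add_w]; simp [T]

theorem add_T_s (a : Pt) : (a + T).s = -a.s := by
  rw [add_s]; simp [T]

theorem mem_of_w_eq {a b : Pt} (hb : b ∈ Gam) (h : a.w = b.w ∨ a.w = -b.w) : a ∈ Gam := by
  have hw4 : a.w ^ 4 = b.w ^ 4 := by
    rcases h with h | h <;> rw [h]; ring
  have hs2 : a.s ^ 2 = b.s ^ 2 := by rw [a.h, b.h, hw4]
  rcases sq_eq_sq_iff_eq_or_eq_neg.mp hs2 with hs | hs <;> rcases h with hw | hw
  · have : a = b := by ext <;> assumption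
    rw [this]; exact hb
  · have : a = -b := by
      ext
      · rw [neg_w, hw]
      · rw [neg_s, hs]
    rw [this]; exact Gam.neg_mem hb
  · have : a = -b + T := by
      ext
      · rw [add_T_w, neg_w, hw, neg_neg]
      · rw [add_T_s, neg_s, hs]
    rw [this]; exact Gam.add_mem (Gam.neg_mem hb) T_mem
  · have : a = b + T := by
      ext
      · rw [add_T_w, hw]
      · rw [add_T_s, hs]
    rw [this]; exact Gam.add_mem hb T_mem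

theorem int_of_sq {q : ℚ} {n : ℤ} (h : q ^ 2 = n) : ∃ m : ℤ, q = m := by
  have h1 : (q ^ 2).den = 1 := by rw [h]; rfl
  rw [Rat.den_pow] at h1
  have h2 : q.den = 1 := by
    have := Nat.eq_one_of_mul_eq_one_right (show q.den * q.den = 1 by rw [← pow_two]; exact h1)
    exact this
  exact ⟨q.num, (Rat.coe_int_num_of_den_eq_one h2).symm⟩

theorem den_div_le (a : ℤ) (b : ℤ) (hb : 0 < b) : (((a : ℚ) / (b : ℚ)).den : ℤ) ≤ b := by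
  have h := Rat.den_dvd a b
  rw [Rat.divInt_eq_div] at h
  exact Int.le_of_dvd hb h


theorem dw (r s p : ℚ) (hp : p ^ 2 = 2 * s ^ 4 - r ^ 4) :
  2*(r*s+p)*(-(p*(r^2-2*s^2)+4*r*s*(r^2+s^2)))*(r^2+2*s^2)*(9*(r^4+2*s^4)^2+8*(2*p*r*s)^2)
   = (-7*(2*p*r*s)*(r^4+2*s^4)+6*(r^8-12*r^4*s^4+4*s^8))*((r^2+2*s^2)^4+2*(r*s+p)^4) := by grind

theorem ds (r s p : ℚ) (hp : p ^ 2 = 2 * s ^ 4 - r ^ 4) :
  ((-(p*(r^2-2*s^2)+4*r*s*(r^2+s^2)))^2*((r^2+2*s^2)^4-2*(r*s+p)^4)-8*(r*s+p)^4*(r^2+2*s^2)^4)*(9*(r^4+2*s^4)^2+8*(2*p*r*s)^2)^2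
   = (-7*(r^8-12*r^4*s^4+4*s^8)*(9*(r^4+2*s^4)^2-8*(2*p*r*s)^2)-24*(2*p*r*s)*(r^4+2*s^4)*(9*(2*p*r*s)^2+4*(r^4+2*s^4)^2))*((r^2+2*s^2)^4+2*(r*s+p)^4)^2 := by grind

theorem curve2 (r s p : ℚ) (hp : p ^ 2 = 2 * s ^ 4 - r ^ 4) :
    (r ^ 8 - 12 * r ^ 4 * s ^ 4 + 4 * s ^ 8) ^ 2 = (r ^ 4 + 2 * s ^ 4) ^ 4 - 2 * (2 * p * r * s) ^ 4 := by
  grind

theorem curve3 (r s p : ℚ) (hp : p ^ 2 = 2 * s ^ 4 - r ^ 4) :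
    (-(p * (r ^ 2 - 2 * s ^ 2) + 4 * r * s * (r ^ 2 + s ^ 2))) ^ 2 = (r ^ 2 + 2 * s ^ 2) ^ 4 - 2 * (r * s + p) ^ 4 := by
  grind

theorem self_add_w_frac (m k E : ℚ) (hE : E ≠ 0) (hQ : E ^ 4 + 2 * m ^ 4 ≠ 0) :
    ((m / E) * (k / E ^ 2) + (m / E) * (k / E ^ 2)) / (1 + 2 * (m / E) ^ 2 * (m / E) ^ 2)
      = 2 * m * k * E / (E ^ 4 + 2 * m ^ 4) := by
  have h1 : 1 + 2 * (m / E) ^ 2 * (m / E) ^ 2 = (E ^ 4 + 2 * m ^ 4) / E ^ 4 := by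
    field_simp
  have h2 : (m / E) * (k / E ^ 2) + (m / E) * (k / E ^ 2) = 2 * m * k * E / E ^ 4 := by
    field_simp; ring
  rw [h1, h2, div_div_div_cancel_right₀ (pow_ne_zero 4 hE)]

theorem self_add_s_frac (m k E : ℚ) (hE : E ≠ 0) (hQ : E ^ 4 + 2 * m ^ 4 ≠ 0) :
    ((k / E ^ 2) * (k / E ^ 2) * (1 - 2 * (m / E) ^ 2 * (m / E) ^ 2)
      - 4 * (m / E) * (m / E) * ((m / E) ^ 2 + (m / E) ^ 2)) / (1 + 2 * (m / E) ^ 2 * (m / E) ^ 2) ^ 2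
      = (k ^ 2 * (E ^ 4 - 2 * m ^ 4) - 8 * m ^ 4 * E ^ 4) / (E ^ 4 + 2 * m ^ 4) ^ 2 := by
  have h1 : 1 + 2 * (m / E) ^ 2 * (m / E) ^ 2 = (E ^ 4 + 2 * m ^ 4) / E ^ 4 := by
    field_simp
  have h2 : (k / E ^ 2) * (k / E ^ 2) * (1 - 2 * (m / E) ^ 2 * (m / E) ^ 2)
      - 4 * (m / E) * (m / E) * ((m / E) ^ 2 + (m / E) ^ 2)
      = (k ^ 2 * (E ^ 4 - 2 * m ^ 4) - 8 * m ^ 4 * E ^ 4) / (E ^ 4) ^ 2 := by
    field_simp; ring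
  rw [h1, h2, div_pow, div_div_div_cancel_right₀ (pow_ne_zero 2 (pow_ne_zero 4 hE))]

theorem add_P_w_frac (n q F : ℚ) (hF : F ≠ 0) :
    ((n / F) * (-7 / 9) + (2 / 3) * (q / F ^ 2)) / (1 + 2 * (n / F) ^ 2 * (2 / 3) ^ 2)
      = (-7 * n * F + 6 * q) / (9 * F ^ 2 + 8 * n ^ 2) := by
  have h0 : 9 * F ^ 2 + 8 * n ^ 2 ≠ 0 := by positivity
  have h1 : 1 + 2 * (n / F) ^ 2 * (2 / 3) ^ 2 = (9 * F ^ 2 + 8 * n ^ 2) / (9 * F ^ 2) := by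
    field_simp; ring
  have h2 : (n / F) * (-7 / 9) + (2 / 3) * (q / F ^ 2) = (-7 * n * F + 6 * q) / (9 * F ^ 2) := by
    field_simp; ring
  rw [h1, h2, div_div_div_cancel_right₀ (by positivity)]

theorem add_P_s_frac (n q F : ℚ) (hF : F ≠ 0) :
    ((q / F ^ 2) * (-7 / 9) * (1 - 2 * (n / F) ^ 2 * (2 / 3) ^ 2)
      - 4 * (n / F) * (2 / 3) * ((n / F) ^ 2 + (2 / 3) ^ 2)) / (1 + 2 * (n / F) ^ 2 * (2 / 3) ^ 2) ^ 2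
      = (-7 * q * (9 * F ^ 2 - 8 * n ^ 2) - 24 * n * F * (9 * n ^ 2 + 4 * F ^ 2)) / (9 * F ^ 2 + 8 * n ^ 2) ^ 2 := by
  have h0 : 9 * F ^ 2 + 8 * n ^ 2 ≠ 0 := by positivity
  have h1 : 1 + 2 * (n / F) ^ 2 * (2 / 3) ^ 2 = (9 * F ^ 2 + 8 * n ^ 2) / (9 * F ^ 2) := by
    field_simp; ring
  have h2 : (q / F ^ 2) * (-7 / 9) * (1 - 2 * (n / F) ^ 2 * (2 / 3) ^ 2)
      - 4 * (n / F) * (2 / 3) * ((n / F) ^ 2 + (2 / 3) ^ 2)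
      = (-7 * q * (9 * F ^ 2 - 8 * n ^ 2) - 24 * n * F * (9 * n ^ 2 + 4 * F ^ 2)) / (9 * F ^ 2) ^ 2 := by
    field_simp; ring
  rw [h1, h2, div_pow, div_div_div_cancel_right₀ (by positivity)]

/-- doubling identity used in the second case of the descent -/
theorem double_case2 (r s p : ℚ) (hr : 0 < r) (hs : 0 < s) (hp : p ^ 2 = 2 * s ^ 4 - r ^ 4)
    (g g' : Pt) (hw : g.w = 2 * p * r * s / (r ^ 4 + 2 * s ^ 4))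
    (hss : g.s = (r ^ 8 - 12 * r ^ 4 * s ^ 4 + 4 * s ^ 8) / (r ^ 4 + 2 * s ^ 4) ^ 2)
    (hw' : g'.w = (r * s + p) / (r ^ 2 + 2 * s ^ 2))
    (hs' : g'.s = -(p * (r ^ 2 - 2 * s ^ 2) + 4 * r * s * (r ^ 2 + s ^ 2)) / (r ^ 2 + 2 * s ^ 2) ^ 2) :
    g' + g' = g + P := by
  have hE : r ^ 2 + 2 * s ^ 2 ≠ 0 := by positivity
  have hF : r ^ 4 + 2 * s ^ 4 ≠ 0 := by positivity
  have hQ : (r ^ 2 + 2 * s ^ 2) ^ 4 + 2 * (r * s + p) ^ 4 ≠ 0 := by positivity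
  have hR : 9 * (r ^ 4 + 2 * s ^ 4) ^ 2 + 8 * (2 * p * r * s) ^ 2 ≠ 0 := by positivity
  ext
  · rw [add_w, add_w, hw, hss, hw', hs']
    change _ = ((2 * p * r * s / (r ^ 4 + 2 * s ^ 4)) * (-7 / 9) + (2 / 3) * ((r ^ 8 - 12 * r ^ 4 * s ^ 4 + 4 * s ^ 8) / (r ^ 4 + 2 * s ^ 4) ^ 2)) / (1 + 2 * (2 * p * r * s / (r ^ 4 + 2 * s ^ 4)) ^ 2 * (2 / 3) ^ 2)
    rw [self_add_w_frac _ _ _ hE hQ, add_P_w_frac _ _ _ hF, div_eq_div_iff hQ hR]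
    exact dw r s p hp
  · rw [add_s, add_s, hw, hss, hw', hs']
    change _ = (((r ^ 8 - 12 * r ^ 4 * s ^ 4 + 4 * s ^ 8) / (r ^ 4 + 2 * s ^ 4) ^ 2) * (-7 / 9) * (1 - 2 * (2 * p * r * s / (r ^ 4 + 2 * s ^ 4)) ^ 2 * (2 / 3) ^ 2)
      - 4 * (2 * p * r * s / (r ^ 4 + 2 * s ^ 4)) * (2 / 3) * ((2 * p * r * s / (r ^ 4 + 2 * s ^ 4)) ^ 2 + (2 / 3) ^ 2)) / (1 + 2 * (2 * p * r * s / (r ^ 4 + 2 * s ^ 4)) ^ 2 * (2 / 3) ^ 2) ^ 2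
    rw [self_add_s_frac _ _ _ hE hQ, add_P_s_frac _ _ _ hF, div_eq_div_iff (pow_ne_zero 2 hQ) (pow_ne_zero 2 hR)]
    exact ds r s p hp

end Pool.Agent.Helper80.D0
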