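import Mathlib
import Pool.Agent.Helper80.D0MW

namespace Pool.Agent.Helper80.D0

theorem mem_Gam (N : ℕ) : ∀ a : Pt, a.w.den ≤ N → a ∈ Gam := by
  induction N using Nat.strong_induction_on with
  | _ N ih =>
    intro a haN
    by_cases hw0 : a.w = 0
    · exact mem_of_w_eq Gam.zero_mem (Or.inl (by rw [hw0, zero_w]))
    have hB0 : 0 < (a.w.den : ℤ) := by exact_mod_cast a.w.den_pos
    have hA0 : a.w.num ≠ 0 := Rat.num_ne_zero.mpr hw0
    have hcop : IsCoprime a.w.num (a.w.den : ℤ) := by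
      rw [Int.isCoprime_iff_gcd_eq_one]
      exact a.w.reduced
    have hBq : (a.w.den : ℚ) ≠ 0 := by exact_mod_cast a.w.den_ne_zero
    have hwq : a.w = (a.w.num : ℚ) / (a.w.den : ℚ) := (Rat.num_div_den a.w).symm
    obtain ⟨c, hc⟩ : ∃ c : ℤ, a.s * (a.w.den : ℚ) ^ 2 = c := by
      apply int_of_sq (n := (a.w.den : ℤ) ^ 4 - 2 * a.w.num ^ 4)
      push_cast
      have h1 := a.h
      have h2 : a.w * (a.w.den : ℚ) = a.w.num := by
        exact Rat.mul_den_eq_num a.w
      rw [← h2]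
      calc (a.s * (a.w.den : ℚ) ^ 2) ^ 2 = a.s ^ 2 * (a.w.den : ℚ) ^ 4 := by ring
        _ = _ := by rw [h1]; ring
    have hce : c ^ 2 = (a.w.den : ℤ) ^ 4 - 2 * a.w.num ^ 4 := by
      have h1 := a.h
      have h2 : a.w * (a.w.den : ℚ) = a.w.num := Rat.mul_den_eq_num a.w
      have h3 : ((c : ℚ)) ^ 2 = (a.w.den : ℚ) ^ 4 - 2 * (a.w.num : ℚ) ^ 4 := by
        rw [← hc, ← h2]
        calc (a.s * (a.w.den : ℚ) ^ 2) ^ 2 = a.s ^ 2 * (a.w.den : ℚ) ^ 4 := by ring
          _ = _ := by rw [h1]; ring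
      exact_mod_cast h3
    obtain ⟨r, s, p, hr, hs, hb, ha, hp⟩ := descent _ _ c hB0 hA0 hcop hce
    have hrq : (0:ℚ) < r := by exact_mod_cast hr
    have hsq : (0:ℚ) < s := by exact_mod_cast hs
    have hbq : (a.w.den : ℚ) = (r:ℚ) ^ 4 + 2 * (s:ℚ) ^ 4 := by exact_mod_cast hb
    have hr4 : r ^ 2 ≤ r ^ 4 := pow_le_pow_right₀ (by omega) (by norm_num)
    have hs4 : s ^ 2 ≤ s ^ 4 := pow_le_pow_right₀ (by omega) (by norm_num)
    have hr1 : r ≤ r ^ 2 := by nlinarith
    have hs1 : s ≤ s ^ 2 := by nlinarith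
    rcases hp with hp | hp
    · -- case 1
      have hpq : (p:ℚ) ^ 2 = (r:ℚ) ^ 4 - 2 * (s:ℚ) ^ 4 := by exact_mod_cast hp
      let d : Pt := ⟨(s:ℚ) / r, (p:ℚ) / r ^ 2, by
        rw [div_pow, div_pow, hpq]; field_simp⟩
      have hd : d ∈ Gam := by
        have h1 : ((d.w.den : ℤ)) ≤ r := den_div_le s r hr
        have h2 : ((d.w.den : ℤ)) < (a.w.den : ℤ) := by
          rw [hb]; nlinarith
        have h3 : d.w.den < a.w.den := by exact_mod_cast h2
        exact ih d.w.den (lt_of_lt_of_le h3 haN) d le_rfl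
      apply mem_of_w_eq (Gam.add_mem hd hd)
      have hF : (r:ℚ) ^ 4 + 2 * (s:ℚ) ^ 4 ≠ 0 := by positivity
      have hdd : (d + d).w = 2 * p * r * s / (r ^ 4 + 2 * s ^ 4) := by
        rw [add_w]
        change ((s:ℚ) / r * (p / r ^ 2) + s / r * (p / r ^ 2)) / (1 + 2 * (s / r) ^ 2 * (s / r) ^ 2) = _
        have h1 : 1 + 2 * ((s:ℚ) / r) ^ 2 * (s / r) ^ 2 = (r ^ 4 + 2 * s ^ 4) / r ^ 4 := by
          field_simp
        have h2 : ((s:ℚ) / r * (p / r ^ 2) + s / r * (p / r ^ 2)) = (2 * p * r * s) / r ^ 4 := by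
          field_simp; ring
        rw [h1, h2, div_div_div_cancel_right₀ (by positivity)]
      rw [hdd]
      rcases ha with ha | ha
      · left
        rw [hwq, hbq, ha]; push_cast; ring
      · right
        rw [hwq, hbq, ha]; push_cast; ring
    · -- case 2
      have hpq : (p:ℚ) ^ 2 = 2 * (s:ℚ) ^ 4 - (r:ℚ) ^ 4 := by exact_mod_cast hp
      have hE : (r:ℚ) ^ 2 + 2 * (s:ℚ) ^ 2 ≠ 0 := by positivity
      have hF : (r:ℚ) ^ 4 + 2 * (s:ℚ) ^ 4 ≠ 0 := by positivity
      let g : Pt := ⟨2 * (p:ℚ) * r * s / (r ^ 4 + 2 * s ^ 4),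
        ((r:ℚ) ^ 8 - 12 * r ^ 4 * s ^ 4 + 4 * s ^ 8) / (r ^ 4 + 2 * s ^ 4) ^ 2, by
          rw [div_pow, div_pow, curve2 _ _ _ hpq]; field_simp⟩
      let g' : Pt := ⟨((r:ℚ) * s + p) / (r ^ 2 + 2 * s ^ 2),
        -((p:ℚ) * (r ^ 2 - 2 * s ^ 2) + 4 * r * s * (r ^ 2 + s ^ 2)) / (r ^ 2 + 2 * s ^ 2) ^ 2, by
          rw [div_pow, div_pow, curve3 _ _ _ hpq]; field_simp⟩
      have hgg : g' + g' = g + P := double_case2 (r:ℚ) s p hrq hsq hpq g g' rfl rfl rfl rfl
      have hag : a.w = g.w ∨ a.w = -g.w := by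
        rcases ha with ha | ha
        · left
          rw [hwq, hbq, ha]; push_cast; rfl
        · right
          rw [hwq, hbq, ha]; push_cast
          change _ = -(2 * (p:ℚ) * r * s / (r ^ 4 + 2 * s ^ 4))
          ring
      by_cases h11 : r = 1 ∧ s = 1
      · obtain ⟨rfl, rfl⟩ := h11
        apply mem_of_w_eq P_mem
        have hp1 : p = 1 ∨ p = -1 := by
          have : p ^ 2 = 1 := by rw [hp]; norm_num
          have h2 : (p - 1) * (p + 1) = 0 := by linear_combination this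
          rcases mul_eq_zero.mp h2 with h3 | h3
          · left; omega
          · right; omega
        have hgw : g.w = 2 * (p:ℚ) / 3 := by
          change 2 * (p:ℚ) * ((1:ℤ):ℚ) * ((1:ℤ):ℚ) / (((1:ℤ):ℚ) ^ 4 + 2 * ((1:ℤ):ℚ) ^ 4) = _
          push_cast; norm_num
        rw [hgw] at hag
        change a.w = 2 / 3 ∨ a.w = -(2 / 3)
        rcases hp1 with rfl | rfl <;> rcases hag with h | h <;> rw [h] <;> norm_num
      · have hg' : g' ∈ Gam := by
          have h1 : ((g'.w.den : ℤ)) ≤ r ^ 2 + 2 * s ^ 2 := by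
            have := den_div_le (r * s + p) (r ^ 2 + 2 * s ^ 2) (by positivity)
            push_cast at this
            exact this
          have h2 : ((g'.w.den : ℤ)) < (a.w.den : ℤ) := by
            rw [hb]
            have h3 : r ^ 2 < r ^ 4 ∨ s ^ 2 < s ^ 4 := by
              by_contra hcon
              push Not at hcon
              apply h11
              constructor
              · by_contra hne
                have h5 : 2 ≤ r := by omega
                have h6 : (2:ℤ) ≤ r ^ 2 := by nlinarith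
                nlinarith [hcon.1]
              · by_contra hne
                have h5 : 2 ≤ s := by omega
                have h6 : (2:ℤ) ≤ s ^ 2 := by nlinarith
                nlinarith [hcon.2]
            rcases h3 with h3 | h3 <;> linarith
          have h3 : g'.w.den < a.w.den := by exact_mod_cast h2
          exact ih g'.w.den (lt_of_lt_of_le h3 haN) g' le_rfl
        have hg : g ∈ Gam := by
          have : g = g' + g' - P := by rw [hgg]; abel
          rw [this]
          exact Gam.sub_mem (Gam.add_mem hg' hg') P_mem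
        exact mem_of_w_eq hg hag

theorem two_T : T + T = 0 := by
  ext
  · rw [add_T_w, zero_w]; simp [T]
  · rw [add_T_s, zero_s]; simp [T]

/-- Every rational point is `n P` or `n P + T`. -/
theorem mordell_weil (a : Pt) : ∃ n : ℤ, a = n • P ∨ a = n • P + T := by
  have h := mem_Gam a.w.den a le_rfl
  obtain ⟨m, n, hmn⟩ := AddSubgroup.mem_closure_pair.mp h
  refine ⟨m, ?_⟩
  have hT : ∀ k : ℤ, (2 * k) • T = 0 := by
    intro k
    rw [mul_comm, mul_smul]
    have : (2:ℤ) • T = 0 := by rw [two_zsmul, two_T]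
    rw [this, smul_zero]
  rcases Int.even_or_odd' n with ⟨k, hk | hk⟩
  · left
    rw [← hmn, hk, hT, add_zero]
  · right
    rw [← hmn, hk, add_smul, hT, zero_add, one_smul]

end Pool.Agent.Helper80.D0
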