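import Mathlib
import Pool.Agent.Helper80.D0MW2

namespace Pool.Agent.Helper80.D0

section
variable (p : ℕ) [hp : Fact p.Prime]

theorem n_add_lt {x y : ℚ} (hx : padicNorm p x < 1) (hy : padicNorm p y < 1) : padicNorm p (x + y) < 1 :=
  lt_of_le_of_lt padicNorm.nonarchimedean (max_lt hx hy)
theorem n_add_le {x y : ℚ} (hx : padicNorm p x ≤ 1) (hy : padicNorm p y ≤ 1) : padicNorm p (x + y) ≤ 1 :=
  le_trans padicNorm.nonarchimedean (max_le hx hy)
theorem n_sub_lt {x y : ℚ} (hx : padicNorm p x < 1) (hy : padicNorm p y < 1) : padicNorm p (x - y) < 1 :=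
  lt_of_le_of_lt padicNorm.sub (max_lt hx hy)
theorem n_sub_le {x y : ℚ} (hx : padicNorm p x ≤ 1) (hy : padicNorm p y ≤ 1) : padicNorm p (x - y) ≤ 1 :=
  le_trans padicNorm.sub (max_le hx hy)
theorem n_mul_lt_left {x y : ℚ} (hx : padicNorm p x < 1) (hy : padicNorm p y ≤ 1) : padicNorm p (x * y) < 1 := by
  rw [padicNorm.mul]
  exact lt_of_le_of_lt (mul_le_of_le_one_right (padicNorm.nonneg x) hy) hx
theorem n_mul_lt_right {x y : ℚ} (hx : padicNorm p x ≤ 1) (hy : padicNorm p y < 1) : padicNorm p (x * y) < 1 := by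
  rw [mul_comm]; exact n_mul_lt_left p hy hx
theorem n_mul_le {x y : ℚ} (hx : padicNorm p x ≤ 1) (hy : padicNorm p y ≤ 1) : padicNorm p (x * y) ≤ 1 := by
  rw [padicNorm.mul]
  exact mul_le_one₀ hx (padicNorm.nonneg y) hy
theorem n_pow_le {x : ℚ} (k : ℕ) (hx : padicNorm p x ≤ 1) : padicNorm p (x ^ k) ≤ 1 := by
  induction k with
  | zero => simp
  | succ k ih => rw [pow_succ]; exact n_mul_le p ih hx
theorem n_pow_lt {x : ℚ} (k : ℕ) (hk : k ≠ 0) (hx : padicNorm p x < 1) : padicNorm p (x ^ k) < 1 := by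
  obtain ⟨j, rfl⟩ := Nat.exists_eq_succ_of_ne_zero hk
  rw [pow_succ]; exact n_mul_lt_right p (n_pow_le p j hx.le) hx
theorem n_nat_le (n : ℕ) : padicNorm p (n : ℚ) ≤ 1 := padicNorm.of_nat n
theorem n_ofNat_le (n : ℕ) [n.AtLeastTwo] : padicNorm p (OfNat.ofNat n : ℚ) ≤ 1 := padicNorm.of_nat n
theorem n_eq_one_of_sub {x : ℚ} (hx : padicNorm p (x - 1) < 1) : padicNorm p x = 1 := by
  have h : padicNorm p ((x - 1) + 1) = max (padicNorm p (x - 1)) (padicNorm p 1) := by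
    apply padicNorm.add_eq_max_of_ne
    rw [padicNorm.one]; exact hx.ne
  rw [sub_add_cancel, padicNorm.one, max_eq_right hx.le] at h
  exact h
theorem n_lt_of_pow {x : ℚ} (k : ℕ) (h : padicNorm p (x ^ k) < 1) : padicNorm p x < 1 := by
  by_contra hcon
  push Not at hcon
  have : 1 ≤ padicNorm p (x ^ k) := by
    clear h
    induction k with
    | zero => simp
    | succ k ih =>
      rw [pow_succ, padicNorm.mul]
      exact one_le_mul_of_one_le_of_one_le ih hcon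
  linarith
theorem n_le_of_pow {x : ℚ} (k : ℕ) (hk : k ≠ 0) (h : padicNorm p (x ^ k) ≤ 1) : padicNorm p x ≤ 1 := by
  by_contra hcon
  push Not at hcon
  have : 1 < padicNorm p (x ^ k) := by
    obtain ⟨j, rfl⟩ := Nat.exists_eq_succ_of_ne_zero hk
    clear h hk
    induction j with
    | zero => simpa using hcon
    | succ k ih =>
      rw [pow_succ, padicNorm.mul]
      exact one_lt_mul_of_lt_of_le ih hcon.le
  linarith
theorem n_div_lt {x y : ℚ} (hx : padicNorm p x < 1) (hy : padicNorm p y = 1) : padicNorm p (x / y) < 1 := by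
  rw [padicNorm.div, hy, div_one]; exact hx
end

section
variable (p : ℕ) [hp : Fact p.Prime]

theorem s_le (a : Pt) (h : padicNorm p a.w ≤ 1) : padicNorm p a.s ≤ 1 := by
  apply n_le_of_pow p 2 two_ne_zero
  rw [a.h]
  exact n_sub_le p (by rw [padicNorm.one]) (n_mul_le p (n_ofNat_le p 2) (n_pow_le p 4 h))

theorem unit_den {w v : ℚ} (hw : padicNorm p w < 1) (hv : padicNorm p v < 1) :
    padicNorm p (1 + 2 * w ^ 2 * v ^ 2) = 1 := by
  apply n_eq_one_of_sub
  have : 1 + 2 * w ^ 2 * v ^ 2 - 1 = 2 * w ^ 2 * v ^ 2 := by ring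
  rw [this]
  exact n_mul_lt_right p (n_mul_le p (n_ofNat_le p 2) (n_pow_le p 2 hw.le)) (n_pow_lt p 2 two_ne_zero hv)

/-- points whose `w`-coordinate is divisible by `p` -/
def K : AddSubgroup Pt where
  carrier := {a | padicNorm p a.w < 1}
  add_mem' := by
    intro a b ha hb
    simp only [Set.mem_ofPred_eq] at ha hb ⊢
    rw [add_w]
    apply n_div_lt p _ (unit_den p ha hb)
    exact n_add_lt p (n_mul_lt_left p ha (s_le p b hb.le)) (n_mul_lt_left p hb (s_le p a ha.le))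
  zero_mem' := by simp [zero_w]
  neg_mem' := by
    intro a ha
    simp only [Set.mem_ofPred_eq] at ha ⊢
    rw [neg_w, padicNorm.neg]; exact ha

theorem mem_K (a : Pt) : a ∈ K p ↔ padicNorm p a.w < 1 := Iff.rfl

def H : AddSubgroup Pt where
  carrier := {a | padicNorm p a.w < 1 ∧ padicNorm p (a.s - 1) < 1}
  add_mem' := by
    rintro a b ⟨ha, has⟩ ⟨hb, hbs⟩
    refine ⟨(K p).add_mem ha hb, ?_⟩
    rw [add_s]
    have hD := unit_den p ha hb
    have hD0 := den_ne a.w b.w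
    have e : (a.s * b.s * (1 - 2 * a.w ^ 2 * b.w ^ 2) - 4 * a.w * b.w * (a.w ^ 2 + b.w ^ 2)) /
        (1 + 2 * a.w ^ 2 * b.w ^ 2) ^ 2 - 1
        = ((a.s - 1) * b.s + (b.s - 1) - a.w * (2 * a.s * b.s * a.w * b.w ^ 2
          + 4 * b.w * (a.w ^ 2 + b.w ^ 2) + 4 * a.w * b.w ^ 2 + 4 * a.w ^ 3 * b.w ^ 4)) /
          (1 + 2 * a.w ^ 2 * b.w ^ 2) ^ 2 := by
      rw [eq_div_iff (pow_ne_zero 2 hD0), sub_mul, div_mul_cancel₀ _ (pow_ne_zero 2 hD0)]
      ring
    rw [e]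
    have hD2 : padicNorm p ((1 + 2 * a.w ^ 2 * b.w ^ 2) ^ 2) = 1 := by
      rw [pow_two, padicNorm.mul, hD, one_mul]
    apply n_div_lt p _ hD2
    have has' := s_le p a ha.le
    have hbs' := s_le p b hb.le
    apply n_sub_lt
    · exact n_add_lt p (n_mul_lt_left p has hbs') hbs
    · apply n_mul_lt_left p ha
      have h2 := n_ofNat_le p 2
      have h4 := n_ofNat_le p 4
      have ha2 := n_pow_le p 2 ha.le
      have hb2 := n_pow_le p 2 hb.le
      have ha3 := n_pow_le p 3 ha.le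
      have hb4 := n_pow_le p 4 hb.le
      exact n_add_le p (n_add_le p (n_add_le p
        (n_mul_le p (n_mul_le p (n_mul_le p (n_mul_le p h2 has') hbs') ha.le) hb2)
        (n_mul_le p (n_mul_le p h4 hb.le) (n_add_le p ha2 hb2)))
        (n_mul_le p (n_mul_le p h4 ha.le) hb2)) (n_mul_le p (n_mul_le p h4 ha3) hb4)
  zero_mem' := by simp [zero_w, zero_s]
  neg_mem' := by
    rintro a ⟨ha, has⟩
    refine ⟨(K p).neg_mem ha, ?_⟩
    rw [neg_s]; exact has

theorem H_le_K : H p ≤ K p := fun _ h => h.1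

theorem double_s (a : Pt) : (a + a).s - 1 = -16 * a.w ^ 4 / (1 + 2 * a.w ^ 4) ^ 2 := by
  have hD : 1 + 2 * a.w ^ 4 ≠ 0 := by positivity
  rw [add_s]
  have e : 1 + 2 * a.w ^ 2 * a.w ^ 2 = 1 + 2 * a.w ^ 4 := by ring
  rw [e, eq_div_iff (pow_ne_zero 2 hD), sub_mul, div_mul_cancel₀ _ (pow_ne_zero 2 hD)]
  have h := a.h
  linear_combination (1 - 2 * a.w ^ 4) * h

theorem double_w (a : Pt) : (a + a).w = 2 * a.w * a.s / (1 + 2 * a.w ^ 4) := by
  rw [add_w]; congr 1 <;> ring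

theorem n_two (hp2 : p ≠ 2) : padicNorm p 2 = 1 := by
  have := (padicNorm.nat_eq_one_iff (p := p) 2).mpr (by
    intro h
    exact hp2 ((Nat.prime_dvd_prime_iff_eq hp.out Nat.prime_two).mp h))
  simpa using this

theorem n_pow_eq_one {x : ℚ} (k : ℕ) (hx : padicNorm p x = 1) : padicNorm p (x ^ k) = 1 := by
  induction k with
  | zero => simp
  | succ k ih => rw [pow_succ, padicNorm.mul, ih, hx, one_mul]

/-- a point with a pole at `p` doubles into `H` -/
theorem double_mem_H (hp2 : p ≠ 2) (a : Pt) (ha : 1 < padicNorm p a.w) : a + a ∈ H p := by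
  have hw0 : a.w ≠ 0 := by
    intro h; rw [h, padicNorm.zero] at ha; linarith
  obtain ⟨y, hy⟩ : ∃ y : ℚ, y = a.w⁻¹ := ⟨_, rfl⟩
  have hyn : padicNorm p y < 1 := by
    have h1 : padicNorm p y * padicNorm p a.w = 1 := by
      rw [← padicNorm.mul, hy, inv_mul_cancel₀ hw0, padicNorm.one]
    by_contra hcon
    push Not at hcon
    nlinarith [padicNorm.nonneg (p := p) y]
  have hwy : a.w = y⁻¹ := by rw [hy, inv_inv]
  have hy0 : y ≠ 0 := by rw [hy]; exact inv_ne_zero hw0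
  obtain ⟨r, hr⟩ : ∃ r : ℚ, r = a.s * y ^ 2 := ⟨_, rfl⟩
  have hr2 : r ^ 2 = y ^ 4 - 2 := by
    have h := a.h
    rw [hr, mul_pow, h, hwy]; field_simp
  have hrn : padicNorm p r ≤ 1 := by
    apply n_le_of_pow p 2 two_ne_zero
    rw [hr2]
    exact n_sub_le p (n_pow_le p 4 hyn.le) (n_ofNat_le p 2)
  have hDn : padicNorm p (y ^ 4 + 2) = 1 := by
    have h1 : padicNorm p (y ^ 4) < 1 := n_pow_lt p 4 (by norm_num) hyn
    rw [padicNorm.add_eq_max_of_ne (by rw [n_two p hp2]; exact h1.ne), n_two p hp2]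
    exact max_eq_right h1.le
  have hD0 : y ^ 4 + 2 ≠ 0 := by positivity
  constructor
  · rw [double_w]
    have : 2 * a.w * a.s / (1 + 2 * a.w ^ 4) = 2 * y * r / (y ^ 4 + 2) := by
      rw [hr, hwy]; field_simp; 
    rw [this]
    apply n_div_lt p _ hDn
    exact n_mul_lt_left p (n_mul_lt_right p (n_ofNat_le p 2) hyn) hrn
  · rw [double_s]
    have : -16 * a.w ^ 4 / (1 + 2 * a.w ^ 4) ^ 2 = -(16 * y ^ 4) / (y ^ 4 + 2) ^ 2 := by
      rw [hwy]; field_simp
    rw [this]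
    apply n_div_lt p _ (n_pow_eq_one p 2 hDn)
    rw [padicNorm.neg]
    exact n_mul_lt_right p (n_ofNat_le p 16) (n_pow_lt p 4 (by norm_num) hyn)

theorem lt_of_double_mem_H (hp2 : p ≠ 2) (a : Pt) (ha : padicNorm p a.w ≤ 1) (h : a + a ∈ H p) :
    padicNorm p a.w < 1 := by
  have h2 := h.2
  rw [double_s] at h2
  have hD : 1 + 2 * a.w ^ 4 ≠ 0 := by positivity
  have hDn : padicNorm p ((1 + 2 * a.w ^ 4) ^ 2) ≤ 1 := by
    apply n_pow_le
    exact n_add_le p (by rw [padicNorm.one]) (n_mul_le p (n_ofNat_le p 2) (n_pow_le p 4 ha))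
  have h3 : padicNorm p (-16 * a.w ^ 4 / (1 + 2 * a.w ^ 4) ^ 2 * (1 + 2 * a.w ^ 4) ^ 2) < 1 :=
    n_mul_lt_left p h2 hDn
  rw [div_mul_cancel₀ _ (pow_ne_zero 2 hD), padicNorm.mul] at h3
  have h16 : padicNorm p (-16 : ℚ) = 1 := by
    rw [padicNorm.neg]
    have : (16:ℚ) = 2 ^ 4 := by norm_num
    rw [this]; exact n_pow_eq_one p 4 (n_two p hp2)
  rw [h16, one_mul] at h3
  exact n_lt_of_pow p 4 h3

theorem odd_mul_pole (hp2 : p ≠ 2) (a : Pt) (ha : 1 < padicNorm p a.w) (k : ℤ) :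
    1 < padicNorm p (((2 * k + 1) • a).w) := by
  have h2 := double_mem_H p hp2 a ha
  set g := (2 * k + 1) • a with hg
  have hgg : g + g = (2 * k + 1) • (a + a) := by rw [hg, smul_add]
  have hggH : g + g ∈ H p := by rw [hgg]; exact (H p).zsmul_mem h2 _
  by_contra hcon
  push Not at hcon
  have h3 : g ∈ K p := lt_of_double_mem_H p hp2 g hcon hggH
  have h4 : a = g - k • (a + a) := by
    rw [hg, add_smul, one_smul, mul_comm, mul_smul, two_smul]; abel
  have h5 : a ∈ K p := by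
    rw [h4]
    exact (K p).sub_mem h3 ((K p).zsmul_mem (H_le_K p h2) _)
  rw [mem_K] at h5
  linarith

end

end Pool.Agent.Helper80.D0
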