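import Mathlib
import Pool.Agent.Helper80.D0Padic

namespace Pool.Agent.Helper80.D0

/-- `(a_i, b_i, c_i)` with `2^i P = (a_i / b_i, c_i / b_i^2)`. -/
def tr : ℕ → ℤ × ℤ × ℤ
  | 0 => (2, 3, -7)
  | n + 1 => (2 * (tr n).1 * (tr n).2.1 * (tr n).2.2, (tr n).2.1 ^ 4 + 2 * (tr n).1 ^ 4,
      (tr n).2.1 ^ 8 - 12 * (tr n).1 ^ 4 * (tr n).2.1 ^ 4 + 4 * (tr n).1 ^ 8)

def sa (n : ℕ) : ℤ := (tr n).1
def sb (n : ℕ) : ℤ := (tr n).2.1
def sc (n : ℕ) : ℤ := (tr n).2.2

theorem sa_zero : sa 0 = 2 := rfl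
theorem sb_zero : sb 0 = 3 := rfl
theorem sc_zero : sc 0 = -7 := rfl
theorem sa_succ (n : ℕ) : sa (n + 1) = 2 * sa n * sb n * sc n := rfl
theorem sb_succ (n : ℕ) : sb (n + 1) = sb n ^ 4 + 2 * sa n ^ 4 := rfl
theorem sc_succ (n : ℕ) : sc (n + 1) = sb n ^ 8 - 12 * sa n ^ 4 * sb n ^ 4 + 4 * sa n ^ 8 := rfl

theorem s_rel (n : ℕ) : sc n ^ 2 = sb n ^ 4 - 2 * sa n ^ 4 := by
  induction n with
  | zero => rw [sa_zero, sb_zero, sc_zero]; norm_num
  | succ n ih =>
    rw [sa_succ, sb_succ, sc_succ]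
    have e : (2 * sa n * sb n * sc n) ^ 4 = 16 * sa n ^ 4 * sb n ^ 4 * (sc n ^ 2) ^ 2 := by ring
    rw [e, ih]; ring

theorem sb_odd (n : ℕ) : Odd (sb n) := by
  induction n with
  | zero => rw [sb_zero]; decide
  | succ n ih =>
    rw [sb_succ]
    exact ih.pow.add_even ((even_two).mul_right _)

theorem sb_ge (n : ℕ) : 3 ≤ sb n := by
  induction n with
  | zero => rw [sb_zero]
  | succ n ih =>
    rw [sb_succ]
    have h1 : sb n ≤ sb n ^ 4 := le_self_pow₀ (by omega) (by norm_num)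
    have h2 : 0 ≤ sa n ^ 4 := by positivity
    linarith

theorem sc_odd (n : ℕ) : Odd (sc n) := by
  induction n with
  | zero => rw [sc_zero]; decide
  | succ n ih =>
    rw [sc_succ]
    have h1 := (sb_odd n).pow (n := 8)
    have h2 : Even (12 * sa n ^ 4 * sb n ^ 4) := by
      have : (12 * sa n ^ 4 * sb n ^ 4) = 2 * (6 * sa n ^ 4 * sb n ^ 4) := by ring
      rw [this]; exact even_two.mul_right _
    have h3 : Even (4 * sa n ^ 8) := by
      have : 4 * sa n ^ 8 = 2 * (2 * sa n ^ 8) := by ring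
      rw [this]; exact even_two.mul_right _
    exact (h1.sub_even h2).add_even h3

theorem sc_ne (n : ℕ) : sc n ≠ 0 := by
  intro h
  have := sc_odd n
  rw [h] at this
  exact absurd this (by decide)

theorem sa_ne (n : ℕ) : sa n ≠ 0 := by
  induction n with
  | zero => rw [sa_zero]; norm_num
  | succ n ih =>
    rw [sa_succ]
    have := sb_ge n
    exact mul_ne_zero (mul_ne_zero (mul_ne_zero two_ne_zero ih) (by omega)) (sc_ne n)

/-- common prime divisors -/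
theorem sab_prime (n : ℕ) : ∀ q : ℕ, q.Prime → (q : ℤ) ∣ sa n → (q : ℤ) ∣ sb n → False := by
  induction n with
  | zero =>
    intro q hq h1 h2
    rw [sa_zero] at h1; rw [sb_zero] at h2
    have h3 : (q : ℤ) ∣ 1 := by
      have := dvd_sub h2 h1
      norm_num at this ⊢
      exact this
    have := Int.isUnit_iff.mp (isUnit_of_dvd_one h3)
    have := hq.two_le
    omega
  | succ n ih =>
    intro q hq h1 h2
    have hqp : Prime (q : ℤ) := Nat.prime_iff_prime_int.mp hq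
    have hq2 : ¬ (q : ℤ) ∣ 2 := by
      intro h
      have hq' : q = 2 := by
        have h5 : q ∣ 2 := by exact_mod_cast h
        exact (Nat.prime_dvd_prime_iff_eq hq Nat.prime_two).mp h5
      subst hq'
      have := sb_odd (n + 1)
      have h3 : Even (sb (n + 1)) := by
        rw [even_iff_two_dvd]; exact_mod_cast h2
      exact (Int.not_even_iff_odd.mpr this) h3
    rw [sb_succ] at h2
    have hab : ∀ x : ℤ, (x = sa n ∨ x = sb n) → (q : ℤ) ∣ x → False := by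
      rintro x (rfl | rfl) hx
      · have h3 : (q : ℤ) ∣ sb n ^ 4 := by
          have h4 : (q : ℤ) ∣ 2 * sa n ^ 4 := (dvd_pow hx (by norm_num)).mul_left _
          exact (dvd_add_left h4).mp h2
        exact ih q hq hx (hqp.dvd_of_dvd_pow h3)
      · have h3 : (q : ℤ) ∣ 2 * sa n ^ 4 := by
          have h4 : (q : ℤ) ∣ sb n ^ 4 := (dvd_pow hx (by norm_num))
          exact (dvd_add_right h4).mp h2
        rcases hqp.dvd_or_dvd h3 with h5 | h5
        · exact hq2 h5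
        · exact ih q hq (hqp.dvd_of_dvd_pow h5) hx
    rw [sa_succ] at h1
    rcases hqp.dvd_or_dvd h1 with h1 | h1
    · rcases hqp.dvd_or_dvd h1 with h1 | h1
      · rcases hqp.dvd_or_dvd h1 with h1 | h1
        · exact hq2 h1
        · exact hab _ (Or.inl rfl) h1
      · exact hab _ (Or.inr rfl) h1
    · have h3 : (q : ℤ) ∣ sc n ^ 2 := dvd_pow h1 two_ne_zero
      rw [s_rel] at h3
      have h4 : (q : ℤ) ∣ 2 * sb n ^ 4 := by
        have := dvd_add h2 h3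
        have e : sb n ^ 4 + 2 * sa n ^ 4 + (sb n ^ 4 - 2 * sa n ^ 4) = 2 * sb n ^ 4 := by ring
        rwa [e] at this
      rcases hqp.dvd_or_dvd h4 with h5 | h5
      · exact hq2 h5
      · exact hab _ (Or.inr rfl) (hqp.dvd_of_dvd_pow h5)

theorem sa_dvd (i j : ℕ) (h : i ≤ j) : sa i ∣ sa j := by
  induction j, h using Nat.le_induction with
  | base => exact dvd_rfl
  | succ k hk ih =>
    rw [sa_succ]
    have : 2 * sa k * sb k * sc k = sa k * (2 * sb k * sc k) := by ring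
    rw [this]; exact ih.mul_right _

theorem sb_dvd_sa (i j : ℕ) (h : i < j) : sb i ∣ sa j := by
  refine dvd_trans ?_ (sa_dvd (i + 1) j h)
  rw [sa_succ]
  have : 2 * sa i * sb i * sc i = sb i * (2 * sa i * sc i) := by ring
  rw [this]; exact dvd_mul_right _ _

theorem sc_dvd_sa (i j : ℕ) (h : i < j) : sc i ∣ sa j := by
  refine dvd_trans ?_ (sa_dvd (i + 1) j h)
  rw [sa_succ]
  exact dvd_mul_left _ _

theorem sbc_prime (n : ℕ) (q : ℕ) (hq : q.Prime) (h1 : (q : ℤ) ∣ sb n) (h2 : (q : ℤ) ∣ sc n) : False := by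
  have hqp : Prime (q : ℤ) := Nat.prime_iff_prime_int.mp hq
  have h3 : (q : ℤ) ∣ sc n ^ 2 := dvd_pow h2 two_ne_zero
  rw [s_rel] at h3
  have h4 : (q : ℤ) ∣ 2 * sa n ^ 4 := by
    have h5 : (q : ℤ) ∣ sb n ^ 4 := dvd_pow h1 (by norm_num)
    have := dvd_sub h5 h3
    have e : sb n ^ 4 - (sb n ^ 4 - 2 * sa n ^ 4) = 2 * sa n ^ 4 := by ring
    rwa [e] at this
  rcases hqp.dvd_or_dvd h4 with h5 | h5
  · have hq' : q = 2 := by
      have h6 : q ∣ 2 := by exact_mod_cast h5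
      exact (Nat.prime_dvd_prime_iff_eq hq Nat.prime_two).mp h6
    subst hq'
    have := sb_odd n
    have h3 : Even (sb n) := by
      rw [even_iff_two_dvd]; exact_mod_cast h1
    exact (Int.not_even_iff_odd.mpr this) h3
  · exact sab_prime n q hq (hqp.dvd_of_dvd_pow h5) h1

theorem sac_prime (n : ℕ) (q : ℕ) (hq : q.Prime) (h1 : (q : ℤ) ∣ sa n) (h2 : (q : ℤ) ∣ sc n) : False := by
  have hqp : Prime (q : ℤ) := Nat.prime_iff_prime_int.mp hq
  have h3 : (q : ℤ) ∣ sc n ^ 2 := dvd_pow h2 two_ne_zero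
  rw [s_rel] at h3
  have h4 : (q : ℤ) ∣ sb n ^ 4 := by
    have h5 : (q : ℤ) ∣ 2 * sa n ^ 4 := (dvd_pow h1 (by norm_num)).mul_left _
    exact (dvd_sub_left h5).mp h3
  exact sab_prime n q hq h1 (hqp.dvd_of_dvd_pow h4)

/-- `sb k` and `sc j` have no common prime factor -/
theorem sb_sc_prime (k j : ℕ) (q : ℕ) (hq : q.Prime) (h1 : (q : ℤ) ∣ sb k) (h2 : (q : ℤ) ∣ sc j) : False := by
  rcases lt_trichotomy j k with h | h | h
  · exact sab_prime k q hq (h2.trans (sc_dvd_sa j k h)) h1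
  · subst h; exact sbc_prime j q hq h1 h2
  · exact sac_prime j q hq (h1.trans (sb_dvd_sa k j h)) h2

theorem sb_sb_prime (k j : ℕ) (hkj : k < j) (q : ℕ) (hq : q.Prime) (h1 : (q : ℤ) ∣ sb k) (h2 : (q : ℤ) ∣ sb j) : False :=
  sab_prime j q hq (h1.trans (sb_dvd_sa k j hkj)) h2

theorem sc_sc_prime (k j : ℕ) (hkj : k < j) (q : ℕ) (hq : q.Prime) (h1 : (q : ℤ) ∣ sc k) (h2 : (q : ℤ) ∣ sc j) : False :=
  sac_prime j q hq (h1.trans (sc_dvd_sa k j hkj)) h2

theorem sc_rel_Q (n : ℕ) : ((sc n : ℚ) / (sb n : ℚ) ^ 2) ^ 2 = 1 - 2 * ((sa n : ℚ) / (sb n : ℚ)) ^ 4 := by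
  have hb : (sb n : ℚ) ≠ 0 := by
    have := sb_ge n
    exact_mod_cast (by omega : sb n ≠ 0)
  have h : (sc n : ℚ) ^ 2 = (sb n : ℚ) ^ 4 - 2 * (sa n : ℚ) ^ 4 := by exact_mod_cast s_rel n
  rw [div_pow, div_pow, h]; field_simp

theorem two_pow_P (n : ℕ) : ((2 ^ n : ℤ) • P).w = (sa n : ℚ) / sb n ∧ ((2 ^ n : ℤ) • P).s = (sc n : ℚ) / (sb n : ℚ) ^ 2 := by
  induction n with
  | zero =>
    rw [pow_zero, one_smul, sa_zero, sb_zero, sc_zero]
    constructor
    · change (2 / 3 : ℚ) = _; norm_num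
    · change (-7 / 9 : ℚ) = _; norm_num
  | succ n ih =>
    have hb : (sb n : ℚ) ≠ 0 := by
      have := sb_ge n
      exact_mod_cast (by omega : sb n ≠ 0)
    have e : (2 ^ (n + 1) : ℤ) • P = (2 ^ n : ℤ) • P + (2 ^ n : ℤ) • P := by
      rw [pow_succ, mul_comm, mul_smul, two_smul]
    have hQ : (sb n : ℚ) ^ 4 + 2 * (sa n : ℚ) ^ 4 ≠ 0 := by positivity
    have hrel : (sc n : ℚ) ^ 2 = (sb n : ℚ) ^ 4 - 2 * (sa n : ℚ) ^ 4 := by exact_mod_cast s_rel n
    rw [e, sa_succ, sb_succ, sc_succ]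
    push_cast
    constructor
    · rw [add_w, ih.1, ih.2, self_add_w_frac _ _ _ hb hQ]
      congr 1; ring
    · rw [add_s, ih.1, ih.2, self_add_s_frac _ _ _ hb hQ, hrel]
      congr 1; ring

end Pool.Agent.Helper80.D0
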