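import Mathlib
import Pool.Agent.Helper80.D0Seq

namespace Pool.Agent.Helper80.D0

theorem exists_prime_three_mod_four (n : ℕ) : n % 4 = 3 → ∃ t : ℕ, t.Prime ∧ t ∣ n ∧ t % 4 = 3 := by
  induction n using Nat.strong_induction_on with
  | _ n ih =>
    intro hn
    have h1 : n ≠ 1 := by omega
    have hq := Nat.minFac_prime h1
    obtain ⟨m, hm⟩ := Nat.minFac_dvd n
    set q := n.minFac with hqdef
    have hq4 : q % 4 = 1 ∨ q % 4 = 3 := by
      have : (q * m) % 4 = 3 := by rw [← hm]; exact hn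
      rw [Nat.mul_mod] at this
      have h2 : q % 4 = 0 ∨ q % 4 = 1 ∨ q % 4 = 2 ∨ q % 4 = 3 := by omega
      have h3 : m % 4 = 0 ∨ m % 4 = 1 ∨ m % 4 = 2 ∨ m % 4 = 3 := by omega
      rcases h2 with h2 | h2 | h2 | h2 <;> rcases h3 with h3 | h3 | h3 | h3 <;> simp [h2, h3] at this ⊢
    rcases hq4 with h4 | h4
    · have hm4 : m % 4 = 3 := by
        have : (q * m) % 4 = 3 := by rw [← hm]; exact hn
        rw [Nat.mul_mod, h4, one_mul] at this
        omega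
      have hmn : m < n := by
        have h5 := hq.two_le
        have h6 : 0 < m := by omega
        rw [hm]; nlinarith
      obtain ⟨t, ht, htm, ht4⟩ := ih m hmn hm4
      exact ⟨t, ht, by rw [hm]; exact htm.mul_left _, ht4⟩
    · exact ⟨q, hq, ⟨m, hm⟩, h4⟩

theorem two_mul_sa_le (n : ℕ) : 2 * sa n ^ 4 ≤ sb n ^ 4 := by
  have h1 := s_rel n
  have h2 : 0 ≤ sc n ^ 2 := by positivity
  linarith

theorem eleven (n : ℕ) (h : 0 ≤ sc (n + 1)) : 11 * sa n ^ 4 ≤ sb n ^ 4 := by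
  by_contra hcon
  push Not at hcon
  have h1 := two_mul_sa_le n
  have h2 : sc (n + 1) = (sb n ^ 4) ^ 2 - 12 * sa n ^ 4 * sb n ^ 4 + 4 * (sa n ^ 4) ^ 2 := by
    rw [sc_succ]; ring
  have hx : 0 < sa n ^ 4 := by
    have := sa_ne n
    positivity
  rw [h2] at h
  generalize sa n ^ 4 = x at *
  generalize sb n ^ 4 = y at *
  nlinarith [mul_nonneg (sub_nonneg.mpr h1) (sub_nonneg.mpr hcon.le)]

theorem q_growth (n : ℕ) (h : 0 ≤ sc (n + 1)) :
    2 * ((sa n : ℚ) ^ 2 / (sb n : ℚ) ^ 2) ≤ (sa (n + 1) : ℚ) ^ 2 / (sb (n + 1) : ℚ) ^ 2 := by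
  have h11 : 11 * (sa n : ℚ) ^ 4 ≤ (sb n : ℚ) ^ 4 := by exact_mod_cast eleven n h
  have hrel : (sc n : ℚ) ^ 2 = (sb n : ℚ) ^ 4 - 2 * (sa n : ℚ) ^ 4 := by exact_mod_cast s_rel n
  have hb : (0:ℚ) < sb n := by
    have := sb_ge n
    exact_mod_cast (by omega : 0 < sb n)
  have ha : (0:ℚ) < (sa n : ℚ) ^ 2 := by
    have : (sa n : ℚ) ≠ 0 := by exact_mod_cast sa_ne n
    positivity
  have hb' : (0:ℚ) < sb (n + 1) := by
    have := sb_ge (n + 1)
    exact_mod_cast (by omega : 0 < sb (n + 1))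
  rw [mul_div_assoc', div_le_div_iff₀ (by positivity) (by positivity)]
  have e1 : (sa (n + 1) : ℚ) = 2 * sa n * sb n * sc n := by rw [sa_succ]; push_cast; ring
  have e2 : (sb (n + 1) : ℚ) = (sb n : ℚ) ^ 4 + 2 * (sa n : ℚ) ^ 4 := by rw [sb_succ]; push_cast; ring
  rw [e1, e2]
  have e3 : (2 * (sa n : ℚ) * sb n * sc n) ^ 2 * (sb n : ℚ) ^ 2
      = 4 * (sa n : ℚ) ^ 2 * (sb n : ℚ) ^ 4 * ((sb n : ℚ) ^ 4 - 2 * (sa n : ℚ) ^ 4) := by
    rw [← hrel]; ring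
  rw [e3]
  have e4 : 2 * (sa n : ℚ) ^ 2 * ((sb n : ℚ) ^ 4 + 2 * (sa n : ℚ) ^ 4) ^ 2
     = 2 * (sa n : ℚ) ^ 2 * (((sb n : ℚ) ^ 4 + 2 * (sa n : ℚ) ^ 4) ^ 2) := by ring
  have e5 : 4 * (sa n : ℚ) ^ 2 * (sb n : ℚ) ^ 4 * ((sb n : ℚ) ^ 4 - 2 * (sa n : ℚ) ^ 4)
     = 2 * (sa n : ℚ) ^ 2 * (2 * (sb n : ℚ) ^ 4 * ((sb n : ℚ) ^ 4 - 2 * (sa n : ℚ) ^ 4)) := by ring
  rw [e5]
  apply mul_le_mul_of_nonneg_left _ (by positivity)
  have hx : 0 ≤ (sa n : ℚ) ^ 4 := by positivity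
  generalize (sa n : ℚ) ^ 4 = x at *
  generalize (sb n : ℚ) ^ 4 = y at *
  nlinarith [mul_nonneg (sub_nonneg.mpr h11) hx, mul_nonneg (sub_nonneg.mpr h11) (sub_nonneg.mpr h11)]

theorem q_le_one (n : ℕ) : (sa n : ℚ) ^ 2 / (sb n : ℚ) ^ 2 ≤ 1 := by
  have hb : (0:ℚ) < sb n := by
    have := sb_ge n
    exact_mod_cast (by omega : 0 < sb n)
  rw [div_le_one (by positivity)]
  have h1 : 2 * (sa n : ℚ) ^ 4 ≤ (sb n : ℚ) ^ 4 := by exact_mod_cast two_mul_sa_le n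
  have h2 : ((sa n : ℚ) ^ 2) ^ 2 ≤ ((sb n : ℚ) ^ 2) ^ 2 := by
    have : 0 ≤ (sa n : ℚ) ^ 4 := by positivity
    nlinarith
  exact (pow_le_pow_iff_left₀ (by positivity) (by positivity) two_ne_zero).mp h2

theorem exists_neg (J : ℕ) : ∃ j, J ≤ j ∧ sc (j + 1) < 0 := by
  by_contra hcon
  push Not at hcon
  have hJ : 0 < (sa J : ℚ) ^ 2 / (sb J : ℚ) ^ 2 := by
    have hb : (0:ℚ) < sb J := by
      have := sb_ge J
      exact_mod_cast (by omega : 0 < sb J)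
    have : (sa J : ℚ) ≠ 0 := by exact_mod_cast sa_ne J
    positivity
  have hg : ∀ k : ℕ, 2 ^ k * ((sa J : ℚ) ^ 2 / (sb J : ℚ) ^ 2) ≤ (sa (J + k) : ℚ) ^ 2 / (sb (J + k) : ℚ) ^ 2 := by
    intro k
    induction k with
    | zero => simp
    | succ k ih =>
      have h1 := q_growth (J + k) (hcon (J + k) (by omega))
      calc (2:ℚ) ^ (k + 1) * ((sa J : ℚ) ^ 2 / (sb J : ℚ) ^ 2) = 2 * (2 ^ k * ((sa J : ℚ) ^ 2 / (sb J : ℚ) ^ 2)) := by
            rw [pow_succ]; ring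
        _ ≤ 2 * ((sa (J + k) : ℚ) ^ 2 / (sb (J + k) : ℚ) ^ 2) := by linarith
        _ ≤ _ := h1
  obtain ⟨k, hk⟩ := pow_unbounded_of_one_lt (((sa J : ℚ) ^ 2 / (sb J : ℚ) ^ 2)⁻¹) (by norm_num : (1:ℚ) < 2)
  have h2 := (hg k).trans (q_le_one (J + k))
  have h3 : 1 < 2 ^ k * ((sa J : ℚ) ^ 2 / (sb J : ℚ) ^ 2) := by
    rw [inv_eq_one_div, div_lt_iff₀ hJ] at hk
    exact hk
  linarith

theorem sc_succ_mod (n : ℕ) : sc (n + 1) % 4 = 1 := by
  rw [sc_succ]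
  have h := mod8_pow4_odd (sb_odd n)
  obtain ⟨k, hk⟩ : ∃ k, sb n ^ 4 = 16 * k + 1 := ⟨sb n ^ 4 / 16, by omega⟩
  have e : sb n ^ 8 - 12 * sa n ^ 4 * sb n ^ 4 + 4 * sa n ^ 8
      = 4 * (64 * k ^ 2 + 8 * k - 3 * sa n ^ 4 * sb n ^ 4 + sa n ^ 8) + 1 := by
    have : sb n ^ 8 = (sb n ^ 4) ^ 2 := by ring
    rw [this, hk]; ring
  rw [e]; omega

/-- inert primes: -2 is not a square modulo `t` -/
def Inert (t : ℕ) : Prop := ∀ z w : ℤ, ¬ (t : ℤ) ∣ w → ¬ (t : ℤ) ∣ z ^ 2 + 2 * w ^ 2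

theorem inert_of_dvd (n t : ℕ) (ht : t.Prime) (ht4 : t % 4 = 3) (h : (t : ℤ) ∣ sc n) : Inert t := by
  intro z w hw hz
  have hp : Prime (t : ℤ) := Nat.prime_iff_prime_int.mp ht
  have : Fact t.Prime := ⟨ht⟩
  have h2 : (t : ℤ) ∣ sc n ^ 2 := dvd_pow h two_ne_zero
  rw [s_rel] at h2
  have hb : ¬ (t : ℤ) ∣ sb n := fun hb => sbc_prime n t ht hb h
  -- in ZMod t : b^4 = 2 a^4, z^2 = -2 w^2
  have e1 : ((sb n : ZMod t)) ^ 4 = 2 * (sa n : ZMod t) ^ 4 := by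
    have := (ZMod.intCast_zmod_eq_zero_iff_dvd _ t).mpr h2
    push_cast at this
    linear_combination this
  have e2 : (z : ZMod t) ^ 2 = -(2 * (w : ZMod t) ^ 2) := by
    have := (ZMod.intCast_zmod_eq_zero_iff_dvd _ t).mpr hz
    push_cast at this
    linear_combination this
  have hb0 : (sb n : ZMod t) ≠ 0 := by
    intro h0
    exact hb ((ZMod.intCast_zmod_eq_zero_iff_dvd _ t).mp h0)
  have hw0 : (w : ZMod t) ≠ 0 := by
    intro h0
    exact hw ((ZMod.intCast_zmod_eq_zero_iff_dvd _ t).mp h0)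
  have hsq : IsSquare (-1 : ZMod t) := by
    refine ⟨(z : ZMod t) * (sa n : ZMod t) ^ 2 / ((w : ZMod t) * (sb n : ZMod t) ^ 2), ?_⟩
    rw [div_mul_div_comm, eq_div_iff (mul_ne_zero (mul_ne_zero hw0 (pow_ne_zero 2 hb0))
      (mul_ne_zero hw0 (pow_ne_zero 2 hb0)))]
    linear_combination (-(sa n : ZMod t) ^ 4) * e2 - (w : ZMod t) ^ 2 * e1
  rw [ZMod.exists_sq_eq_neg_one_iff] at hsq
  exact hsq ht4


theorem exists_large_J (E : Finset ℕ) (hE : ∀ t ∈ E, t.Prime) :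
    ∃ J, ∀ j, J ≤ j → ∀ t ∈ E, ¬ (t : ℤ) ∣ sc j := by
  induction E using Finset.induction_on with
  | empty => exact ⟨0, by simp⟩
  | insert t E _ ih =>
    obtain ⟨J, hJ⟩ := ih (fun x hx => hE x (Finset.mem_insert_of_mem hx))
    have ht := hE t (Finset.mem_insert_self t E)
    by_cases h : ∃ k, (t : ℤ) ∣ sc k
    · obtain ⟨k, hk⟩ := h
      refine ⟨max J (k + 1), fun j hj x hx => ?_⟩
      rcases Finset.mem_insert.mp hx with rfl | hx
      · intro h2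
        exact sc_sc_prime k j (by omega) _ ht hk h2
      · exact hJ j (by omega) x hx
    · push Not at h
      refine ⟨J, fun j hj x hx => ?_⟩
      rcases Finset.mem_insert.mp hx with rfl | hx
      · exact h j
      · exact hJ j hj x hx

/-- For every finite set of primes there is an inert prime outside it dividing some `sa i`. -/
theorem exists_inert (E : Finset ℕ) (hE : ∀ t ∈ E, t.Prime) :
    ∃ i t : ℕ, t.Prime ∧ t ∉ E ∧ (t : ℤ) ∣ sa i ∧ Inert t := by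
  obtain ⟨J, hJ⟩ := exists_large_J E hE
  obtain ⟨j, hj, hneg⟩ := exists_neg J
  have hmod := sc_succ_mod j
  obtain ⟨m, hm⟩ : ∃ m : ℕ, (m : ℤ) = - sc (j + 1) := ⟨(- sc (j + 1)).toNat, by omega⟩
  have hm4 : m % 4 = 3 := by omega
  obtain ⟨t, ht, htm, ht4⟩ := exists_prime_three_mod_four m hm4
  have htc : (t : ℤ) ∣ sc (j + 1) := by
    have h1 : (t : ℤ) ∣ (m : ℤ) := by exact_mod_cast htm
    rw [hm] at h1
    exact (dvd_neg).mp h1
  refine ⟨j + 2, t, ht, ?_, ?_, inert_of_dvd (j + 1) t ht ht4 htc⟩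
  · intro htE
    exact hJ (j + 1) (by omega) t htE htc
  · exact htc.trans (sc_dvd_sa (j + 1) (j + 2) (by omega))

/-- `v i` : a prime divisor of `sb i`. -/
noncomputable def v (i : ℕ) : ℕ := Nat.minFac (sb i).toNat

theorem v_prime (i : ℕ) : (v i).Prime := by
  apply Nat.minFac_prime
  have := sb_ge i
  omega

theorem v_dvd (i : ℕ) : (v i : ℤ) ∣ sb i := by
  have h := Nat.minFac_dvd (sb i).toNat
  have h2 := sb_ge i
  have h3 : ((sb i).toNat : ℤ) = sb i := Int.toNat_of_nonneg (by omega)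
  have h4 : ((v i : ℕ) : ℤ) ∣ ((sb i).toNat : ℤ) := by exact_mod_cast h
  rwa [h3] at h4

theorem v_ne_two (i : ℕ) : v i ≠ 2 := by
  intro h
  have h1 := v_dvd i
  rw [h] at h1
  have h2 : Even (sb i) := by rw [even_iff_two_dvd]; exact_mod_cast h1
  exact (Int.not_even_iff_odd.mpr (sb_odd i)) h2

/-- there is an integer `z` with `z^2 + 2` divisible by all `sb j`, `j < N`. -/
theorem coprime_of_no_prime {x y : ℤ} (h : ∀ q : ℕ, q.Prime → (q : ℤ) ∣ x → (q : ℤ) ∣ y → False) :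
    IsCoprime x y := by
  rw [Int.isCoprime_iff_gcd_eq_one]
  by_contra hne
  obtain ⟨q, hq, hqd⟩ := Nat.exists_prime_and_dvd hne
  have h1 : (q : ℤ) ∣ (Int.gcd x y : ℤ) := by exact_mod_cast hqd
  exact h q hq (h1.trans (Int.gcd_dvd_left x y)) (h1.trans (Int.gcd_dvd_right x y))

theorem exists_sq_sb (j : ℕ) : ∃ z : ℤ, sb j ∣ z ^ 2 + 2 := by
  cases j with
  | zero => exact ⟨1, by rw [sb_zero]; norm_num⟩
  | succ j =>
    -- sb (j+1) = b^4 + 2 a^4, with a coprime to it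
    have hcop : IsCoprime (sa j) (sb (j + 1)) := by
      apply coprime_of_no_prime
      intro q hq h1 h2
      exact sab_prime (j + 1) q hq (h1.trans (sa_dvd j (j + 1) (by omega))) h2
    obtain ⟨u, w, huw⟩ := hcop
    -- u * a + w * B = 1
    refine ⟨sb j ^ 2 * u ^ 2, ?_⟩
    have hB := sb_succ j
    have e : (sb j ^ 2 * u ^ 2) ^ 2 + 2 = u ^ 4 * (sb (j + 1)) - 2 * ((u * sa j) ^ 4 - 1) := by
      rw [hB]; ring
    rw [e]
    have e2 : (u * sa j) ^ 4 - 1 = sb (j + 1) * (- w * ((u * sa j) ^ 3 + (u * sa j) ^ 2 + u * sa j + 1)) := by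
      have : u * sa j = 1 - w * sb (j + 1) := by linear_combination huw
      rw [this]; ring
    rw [e2]
    refine ⟨u ^ 4 - 2 * (- w * ((u * sa j) ^ 3 + (u * sa j) ^ 2 + u * sa j + 1)), by ring⟩

theorem exists_sq_prod (N : ℕ) : ∃ z : ℤ, (∏ j ∈ Finset.range N, sb j) ∣ z ^ 2 + 2 := by
  induction N with
  | zero => exact ⟨0, by simp⟩
  | succ N ih =>
    obtain ⟨z, hz⟩ := ih
    obtain ⟨y, hy⟩ := exists_sq_sb N
    have hcop : IsCoprime (∏ j ∈ Finset.range N, sb j) (sb N) := by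
      apply IsCoprime.prod_left
      intro j hj
      apply coprime_of_no_prime
      intro q hq h1 h2
      exact sb_sb_prime j N (Finset.mem_range.mp hj) q hq h1 h2
    obtain ⟨u, w, huw⟩ := hcop
    rw [Finset.prod_range_succ]
    set D := ∏ j ∈ Finset.range N, sb j
    -- z' = z * (w * sb N) + y * (u * D)
    refine ⟨z * (w * sb N) + y * (u * D), ?_⟩
    apply IsCoprime.mul_dvd ⟨u, w, huw⟩
    · have e : (z * (w * sb N) + y * (u * D)) ^ 2 + 2 = (z ^ 2 + 2) + D * (u * ((y - z) * (2 * z + u * D * (y - z)))) := by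
        have : w * sb N = 1 - u * D := by linear_combination huw
        rw [this]; ring
      rw [e]; exact dvd_add hz (dvd_mul_right _ _)
    · have e : (z * (w * sb N) + y * (u * D)) ^ 2 + 2 = (y ^ 2 + 2) + sb N * (w * ((z - y) * (2 * y + w * sb N * (z - y)))) := by
        have : u * D = 1 - w * sb N := by linear_combination huw
        rw [this]; ring
      rw [e]; exact dvd_add hy (dvd_mul_right _ _)

theorem sa_formula (N : ℕ) : sa N = 2 ^ (N + 1) * (∏ j ∈ Finset.range N, sb j) * (∏ j ∈ Finset.range N, sc j) := by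
  induction N with
  | zero => simp [sa_zero]
  | succ N ih =>
    rw [sa_succ, ih, Finset.prod_range_succ, Finset.prod_range_succ]; ring

end Pool.Agent.Helper80.D0
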