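import Mathlib

set_option autoImplicit false

/-! Finite computations for the twenty node base tree. -/

namespace Pool.Agent.Helper80.JumpBase

/-- Parent function of the base tree (on natural numbers `< 20`, root `0`). -/
def par (v : ℕ) : ℕ :=
  if v < 4 then v - 1 else if v = 4 then 0 else if v < 8 then 1 else if v < 11 then 2
  else if v = 11 then 3 else v - 8

/-- Adjacency in the base tree, as a Boolean. -/
def adjb (u v : ℕ) : Bool :=
  (decide (1 ≤ v) && decide (par v = u)) || (decide (1 ≤ u) && decide (par u = v))

/-- Types of the base agents: agents `3, ..., 10` have type `0`, the others type `1`. -/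
def tyb (j : ℕ) : ℕ := if j < 3 then 1 else if j < 11 then 0 else 1

/-- Position of base agent `j` when the mobile agents `0, 1, 2` sit at `x, y, z`. -/
def pos (x y z j : ℕ) : ℕ :=
  if j = 0 then x else if j = 1 then y else if j = 2 then z else j + 1

/-- Number of neighbours of agent `i` of another type. -/
def bnum (f : ℕ → ℕ) (i : ℕ) : ℕ :=
  ((List.range 19).filter (fun j => adjb (f i) (f j) && decide (tyb j ≠ tyb i))).length

/-- Number of neighbours of agent `i`. -/
def bden (f : ℕ → ℕ) (i : ℕ) : ℕ :=
  ((List.range 19).filter (fun j => adjb (f i) (f j))).length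

/-- Position after moving agent `i` to `v`. -/
def mv (f : ℕ → ℕ) (i v : ℕ) : ℕ → ℕ := fun j => if j = i then v else f j

/-- There is an improving move. -/
def hasMove (x y z : ℕ) : Bool :=
  (List.range 3).any fun i => (List.range 4).any fun v =>
    decide (v ≠ x) && decide (v ≠ y) && decide (v ≠ z) &&
    decide (1 ≤ bden (pos x y z) i) && decide (1 ≤ bden (mv (pos x y z) i v) i) &&
    decide (bnum (pos x y z) i * bden (mv (pos x y z) i v) i <
      bnum (mv (pos x y z) i v) i * bden (pos x y z) i)

theorem hasMove_all : ∀ x : Fin 4, ∀ y : Fin 4, ∀ z : Fin 4, x ≠ y → x ≠ z → y ≠ z →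
    hasMove x.val y.val z.val = true := by
  decide +kernel

theorem frozen_types : ∀ j : Fin 19, ∀ i : Fin 19, 3 ≤ j.val → 3 ≤ i.val →
    adjb (j.val + 1) (i.val + 1) = true → tyb j.val ≠ tyb i.val := by
  decide +kernel

theorem frozen_slot : ∀ j : Fin 19, ∀ s : Fin 4, 3 ≤ j.val →
    adjb (j.val + 1) s.val = true → tyb j.val = 0 := by
  decide +kernel

theorem frozen_nbr : ∀ j : Fin 19, 3 ≤ j.val → ∃ i : Fin 19, 3 ≤ i.val ∧
    adjb (j.val + 1) (i.val + 1) = true := by
  decide +kernel

end Pool.Agent.Helper80.JumpBase
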