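import Mathlib

set_option autoImplicit false

namespace Pool.Agent.Helper80.JumpTree

open SimpleGraph

/-- The graph of a parent function `p` with root `r`. -/
def parentGraph {V : Type} (r : V) (p : V → V) : SimpleGraph V :=
  SimpleGraph.fromRel (fun u v => v ≠ r ∧ p v = u)

theorem parentGraph_adj {V : Type} (r : V) (p : V → V) (u v : V) :
    (parentGraph r p).Adj u v ↔ u ≠ v ∧ ((v ≠ r ∧ p v = u) ∨ (u ≠ r ∧ p u = v)) := by
  simp [parentGraph]

theorem parentGraph_isTree {V : Type} [Finite V] (r : V) (p : V → V) (rank : V → ℕ)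
    (h : ∀ v, v ≠ r → rank (p v) < rank v) : (parentGraph r p).IsTree := by
  classical
  have hadj : ∀ v, v ≠ r → (parentGraph r p).Adj v (p v) := by
    intro v hv
    rw [parentGraph_adj]
    refine ⟨?_, Or.inr ⟨hv, rfl⟩⟩
    intro h1
    have := h v hv
    rw [← h1] at this
    exact lt_irrefl _ this
  have hreach : ∀ n : ℕ, ∀ v, rank v = n → (parentGraph r p).Reachable v r := by
    intro n
    induction n using Nat.strong_induction_on with
    | _ n ih =>
      intro v hv
      by_cases hr : v = r
      · rw [hr]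
      · exact (hadj v hr).reachable.trans (ih (rank (p v)) (hv ▸ h v hr) (p v) rfl)
  have hconn : (parentGraph r p).Connected := by
    rw [connected_iff]
    refine ⟨fun u v => (hreach _ u rfl).trans (hreach _ v rfl).symm, ⟨r⟩⟩
  rw [isTree_iff_connected_and_card]
  refine ⟨hconn, le_antisymm ?_ hconn.card_vert_le_card_edgeSet_add_one⟩
  -- the edge set is contained in the image of `{v ≠ r}`
  have hsub : (parentGraph r p).edgeSet ⊆ (fun v => s(v, p v)) '' {v | v ≠ r} := by
    intro x
    induction x using Sym2.ind with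
    | _ u v =>
      intro hx
      rw [mem_edgeSet, parentGraph_adj] at hx
      rcases hx.2 with ⟨h1, h2⟩ | ⟨h1, h2⟩
      · exact ⟨v, h1, by show s(v, p v) = s(u, v); rw [h2]; exact Sym2.eq_swap⟩
      · exact ⟨u, h1, by show s(u, p u) = s(u, v); rw [h2]⟩
  have h1 : Nat.card (parentGraph r p).edgeSet ≤ Nat.card {v : V | v ≠ r} := by
    rw [Nat.card_coe_set_eq, Nat.card_coe_set_eq]
    exact (Set.ncard_le_ncard hsub (Set.toFinite _)).trans (Set.ncard_image_le (Set.toFinite _))
  have h2 : Nat.card {v : V | v ≠ r} + 1 = Nat.card V := by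
    rw [Nat.card_coe_set_eq]
    have := Set.ncard_sdiff_singleton_add_one (Set.mem_univ r) (Set.toFinite _)
    rw [Set.ncard_univ] at this
    rw [← this]
    congr 2
    ext v
    simp
  omega

end Pool.Agent.Helper80.JumpTree
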