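import Mathlib

namespace Pool.Agent.Helper80.NSR

open MvPolynomial

variable {F : Type*} [Field F] {n : ℕ}

/-- value of the variable `v` at the Boolean point `x` -/
def bv (F : Type*) [Field F] {n : ℕ} (x : Fin n → Bool) (v : Fin n × Bool) : F :=
  if x v.1 = v.2 then 1 else 0

/-- the part of the product of the variables in `E` living over `J`, as a polynomial -/
noncomputable def mono (F : Type*) [Field F] {n : ℕ} (J : Finset (Fin n)) (E : Finset (Fin n × Bool)) :
    MvPolynomial (Fin n × Bool) F :=
  ∏ v ∈ E with v.1 ∈ J, X v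

/-- its value at Boolean points -/
def evJ (F : Type*) [Field F] {n : ℕ} (J : Finset (Fin n)) (E : Finset (Fin n × Bool)) (x : Fin n → Bool) : F :=
  ∏ v ∈ E with v.1 ∈ J, bv F x v

theorem mono_split (J J1 : Finset (Fin n)) (h : J1 ⊆ J) (E : Finset (Fin n × Bool)) :
    mono F J E = mono F J1 E * mono F (J \ J1) E := by
  classical
  unfold mono
  rw [← Finset.prod_union]
  · congr 1
    ext v
    simp only [Finset.mem_filter, Finset.mem_union, Finset.mem_sdiff]
    constructor
    · rintro ⟨h1, h2⟩
      by_cases h3 : v.1 ∈ J1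
      · exact Or.inl ⟨h1, h3⟩
      · exact Or.inr ⟨h1, h2, h3⟩
    · rintro (⟨h1, h2⟩ | ⟨h1, h2, _⟩)
      · exact ⟨h1, h h2⟩
      · exact ⟨h1, h2⟩
  · rw [Finset.disjoint_left]
    intro v h1 h2
    simp only [Finset.mem_filter, Finset.mem_sdiff] at h1 h2
    exact h2.2.2 h1.2

theorem evJ_split (J J1 : Finset (Fin n)) (h : J1 ⊆ J) (E : Finset (Fin n × Bool)) (x : Fin n → Bool) :
    evJ F J E x = evJ F J1 E x * evJ F (J \ J1) E x := by
  classical
  unfold evJ
  rw [← Finset.prod_union]
  · congr 1
    ext v
    simp only [Finset.mem_filter, Finset.mem_union, Finset.mem_sdiff]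
    constructor
    · rintro ⟨h1, h2⟩
      by_cases h3 : v.1 ∈ J1
      · exact Or.inl ⟨h1, h3⟩
      · exact Or.inr ⟨h1, h2, h3⟩
    · rintro (⟨h1, h2⟩ | ⟨h1, h2, _⟩)
      · exact ⟨h1, h h2⟩
      · exact ⟨h1, h2⟩
  · rw [Finset.disjoint_left]
    intro v h1 h2
    simp only [Finset.mem_filter, Finset.mem_sdiff] at h1 h2
    exact h2.2.2 h1.2

/-- `evJ` only depends on the coordinates in `J` -/
theorem evJ_congr (J : Finset (Fin n)) (E : Finset (Fin n × Bool)) (x y : Fin n → Bool)
    (h : ∀ j ∈ J, x j = y j) : evJ F J E x = evJ F J E y := by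
  unfold evJ
  apply Finset.prod_congr rfl
  intro v hv
  simp only [Finset.mem_filter] at hv
  unfold bv
  rw [h _ hv.2]

/-- a splitting step: coefficient, monomial, variable -/
structure Step (F : Type*) (n : ℕ) where
  c : F
  μ : (Fin n × Bool) →₀ ℕ
  j : Fin n

noncomputable def Step.val (s : Step F n) : MvPolynomial (Fin n × Bool) F :=
  monomial s.μ s.c * (X (s.j, true) + X (s.j, false) - 1)

/-- multiply a step by a monomial -/
noncomputable def Step.shift (ν : (Fin n × Bool) →₀ ℕ) (s : Step F n) : Step F n := ⟨s.c, ν + s.μ, s.j⟩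

theorem Step.shift_val (ν : (Fin n × Bool) →₀ ℕ) (s : Step F n) :
    (s.shift ν).val = monomial ν 1 * s.val := by
  unfold Step.val Step.shift
  simp only
  rw [← mul_assoc, monomial_mul, one_mul]

theorem shift_sum (ν : (Fin n × Bool) →₀ ℕ) (L : List (Step F n)) :
    ((L.map (Step.shift ν)).map Step.val).sum = monomial ν 1 * (L.map Step.val).sum := by
  induction L with
  | nil => simp
  | cons a L ih =>
    simp only [List.map_cons, List.sum_cons] at ih ⊢
    rw [ih, Step.shift_val, mul_add]

/-- exponent vector of `mono` -/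
noncomputable def expo (J : Finset (Fin n)) (E : Finset (Fin n × Bool)) : (Fin n × Bool) →₀ ℕ :=
  ∑ v ∈ E with v.1 ∈ J, Finsupp.single v 1

theorem mono_eq (J : Finset (Fin n)) (E : Finset (Fin n × Bool)) :
    mono F J E = monomial (expo J E) 1 := by
  unfold mono expo
  rw [monomial_sum_one]
  rfl


theorem collect {ι : Type*} [DecidableEq ι] (t : Finset ι) (val : ι → MvPolynomial (Fin n × Bool) F)
    (M : ℕ) (P : F → Prop)
    (h : ∀ i ∈ t, ∃ L : List (Step F n), (L.map Step.val).sum = val i ∧ L.length ≤ M ∧ ∀ st ∈ L, P st.c) :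
    ∃ L : List (Step F n), (L.map Step.val).sum = ∑ i ∈ t, val i ∧ L.length ≤ t.card * M ∧ ∀ st ∈ L, P st.c := by
  induction t using Finset.induction_on with
  | empty => exact ⟨[], by simp, by simp, by simp⟩
  | insert a t ha ih =>
    obtain ⟨L, h1, h2, h3⟩ := ih (fun i hi => h i (Finset.mem_insert_of_mem hi))
    obtain ⟨L', h1', h2', h3'⟩ := h a (Finset.mem_insert_self a t)
    refine ⟨L' ++ L, ?_, ?_, ?_⟩
    · rw [List.map_append, List.sum_append, h1, h1', Finset.sum_insert ha]
    · rw [List.length_append, Finset.card_insert_of_notMem ha, add_mul, one_mul]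
      omega
    · intro st hst
      rcases List.mem_append.mp hst with h | h
      · exact h3' st h
      · exact h3 st h

/-- no variable occurs together with its dual -/
def Consistent (E : Finset (Fin n × Bool)) : Prop := ∀ j : Fin n, ¬ ((j, true) ∈ E ∧ (j, false) ∈ E)

theorem mono_empty (E : Finset (Fin n × Bool)) : mono F ∅ E = 1 := by
  unfold mono; simp

theorem evJ_empty (E : Finset (Fin n × Bool)) (x : Fin n → Bool) : evJ F ∅ E x = 1 := by
  unfold evJ; simp

theorem filter_single (j : Fin n) (E : Finset (Fin n × Bool)) (hE : Consistent E) :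
    (E.filter (fun v => v.1 ∈ ({j} : Finset (Fin n)))) =
      if (j, true) ∈ E then {(j, true)} else if (j, false) ∈ E then {(j, false)} else ∅ := by
  have hc := hE j
  ext ⟨i, b⟩
  simp only [Finset.mem_filter, Finset.mem_singleton]
  split_ifs with h1 h2
  · simp only [Finset.mem_singleton, Prod.mk.injEq]
    constructor
    · rintro ⟨h, rfl⟩
      cases b
      · exact absurd ⟨h1, h⟩ hc
      · exact ⟨rfl, rfl⟩
    · rintro ⟨rfl, rfl⟩; exact ⟨h1, rfl⟩
  · simp only [Finset.mem_singleton, Prod.mk.injEq]
    constructor
    · rintro ⟨h, rfl⟩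
      cases b
      · exact ⟨rfl, rfl⟩
      · exact absurd h h1
    · rintro ⟨rfl, rfl⟩; exact ⟨h2, rfl⟩
  · simp only [Finset.notMem_empty, iff_false, not_and]
    intro h hij
    subst hij
    cases b
    · exact h2 h
    · exact h1 h

variable {ι : Type*} [DecidableEq ι]

/-- base case of the recursion: a single variable -/
theorem core_base (j : Fin n) (s : Finset ι) (E : ι → Finset (Fin n × Bool))
    (hE : ∀ i ∈ s, Consistent (E i)) (c : ι → F) (P : F → Prop) (hP : ∀ i ∈ s, P (-(c i)))
    (h0 : ∀ x, ∑ i ∈ s, c i * evJ F {j} (E i) x = 0) :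
    ∃ L : List (Step F n), (L.map Step.val).sum = ∑ i ∈ s, C (c i) * mono F {j} (E i) ∧
      L.length ≤ s.card ∧ ∀ st ∈ L, P st.c := by
  classical
  have hev : ∀ i ∈ s, ∀ x : Fin n → Bool, evJ F {j} (E i) x = if (j, true) ∈ E i then (if x j = true then 1 else 0)
      else if (j, false) ∈ E i then (if x j = false then 1 else 0) else 1 := by
    intro i hi x
    unfold evJ
    rw [filter_single j (E i) (hE i hi)]
    split_ifs <;> simp_all [bv]
  have hmo : ∀ i ∈ s, mono F {j} (E i) = if (j, true) ∈ E i then X (j, true)
      else if (j, false) ∈ E i then X (j, false) else 1 := by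
    intro i hi
    unfold mono
    rw [filter_single j (E i) (hE i hi)]
    split_ifs <;> simp
  set St : F := ∑ i ∈ s, if (j, true) ∈ E i then c i else 0 with hSt
  set Sf : F := ∑ i ∈ s, if (j, true) ∈ E i then 0 else if (j, false) ∈ E i then c i else 0 with hSf
  set S0 : F := ∑ i ∈ s, if (j, true) ∈ E i then 0 else if (j, false) ∈ E i then 0 else c i with hS0
  have e1 : St + S0 = 0 := by
    have h := h0 (fun _ => true)
    rw [hSt, hS0, ← Finset.sum_add_distrib, ← h]
    apply Finset.sum_congr rfl
    intro i hi
    rw [hev i hi]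
    split_ifs <;> simp_all
  have e2 : Sf + S0 = 0 := by
    have h := h0 (fun _ => false)
    rw [hSf, hS0, ← Finset.sum_add_distrib, ← h]
    apply Finset.sum_congr rfl
    intro i hi
    rw [hev i hi]
    split_ifs <;> simp_all
  have e3 : ∑ i ∈ s, C (c i) * mono F {j} (E i) = C St * X (j, true) + C Sf * X (j, false) + C S0 := by
    rw [hSt, hSf, hS0, map_sum, map_sum, map_sum, Finset.sum_mul, Finset.sum_mul,
      ← Finset.sum_add_distrib, ← Finset.sum_add_distrib]
    apply Finset.sum_congr rfl
    intro i hi
    rw [hmo i hi]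
    split_ifs <;> simp
  have hcol := collect (F := F) (n := n) (s.filter (fun i => (j, true) ∉ E i ∧ (j, false) ∉ E i))
    (fun i => -(C (c i) * (X (j, true) + X (j, false) - 1))) 1 P (by
      intro i hi
      rw [Finset.mem_filter] at hi
      refine ⟨[⟨-(c i), 0, j⟩], ?_, by simp, ?_⟩
      · simp only [List.map_cons, List.map_nil, List.sum_cons, List.sum_nil, add_zero, Step.val]
        have : (monomial (0 : (Fin n × Bool) →₀ ℕ)) (-(c i)) = C (-(c i)) := rfl
        rw [this, C_neg]; ring
      · intro st hst
        rw [List.mem_singleton] at hst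
        subst hst
        exact hP i hi.1)
  obtain ⟨L, h1, h2, h3⟩ := hcol
  refine ⟨L, ?_, ?_, h3⟩
  · rw [h1, e3]
    have e4 : St = -S0 := by linear_combination e1
    have e5 : Sf = -S0 := by linear_combination e2
    have e6 : ∑ i ∈ s.filter (fun i => (j, true) ∉ E i ∧ (j, false) ∉ E i), C (c i)
        = (C S0 : MvPolynomial (Fin n × Bool) F) := by
      rw [hS0, map_sum, Finset.sum_filter]
      apply Finset.sum_congr rfl
      intro i _
      split_ifs <;> simp_all
    rw [Finset.sum_neg_distrib, ← Finset.sum_mul, e6, e4, e5, C_neg]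
    ring
  · calc L.length ≤ _ := h2
      _ ≤ s.card := by
        rw [mul_one]
        exact Finset.card_filter_le _ _


/-- hypotheses on the coefficient bookkeeping -/
structure Book (F : Type*) [Field F] (n K : ℕ) (ι : Type*) where
  /-- `G b a`: the coefficient `a` has complexity at most `b` -/
  G : ℕ → F → Prop
  β : ℕ
  neg : ∀ b a, G b a → G b (-a)
  mono : ∀ b a, G b a → G (b + β) a
  basis : ∀ (J : Finset (Fin n)) (s : Finset ι) (E : ι → Finset (Fin n × Bool)), s.card ≤ K →
    ∃ B ⊆ s, ∃ lam : ι → ι → F, (∀ i k b a, G b a → G (b + β) (a * lam i k)) ∧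
      LinearIndepOn F (fun i => evJ F J (E i)) (B : Set ι) ∧
      ∀ i ∈ s, i ∉ B → evJ F J (E i) = ∑ k ∈ B, lam i k • evJ F J (E k)

omit [DecidableEq ι] in
theorem Book.monod {K : ℕ} (bk : Book F n K ι) (b d : ℕ) (a : F) (h : bk.G b a) : bk.G (b + d * bk.β) a := by
  induction d with
  | zero => simpa using h
  | succ d ih =>
    have := bk.mono _ _ ih
    rwa [add_assoc, ← Nat.succ_mul] at this

theorem core {K : ℕ} (bk : Book F n K ι) (d : ℕ) : ∀ (J : Finset (Fin n)), J.card ≤ 2 ^ d →
    ∀ (s : Finset ι), s.card ≤ K → ∀ (E : ι → Finset (Fin n × Bool)), (∀ i ∈ s, Consistent (E i)) →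
    ∀ (c : ι → F) (b : ℕ), (∀ i ∈ s, bk.G b (c i)) →
    (∀ x, ∑ i ∈ s, c i * evJ F J (E i) x = 0) →
    ∃ L : List (Step F n), (L.map Step.val).sum = ∑ i ∈ s, C (c i) * mono F J (E i) ∧
      L.length ≤ s.card ^ (d + 1) ∧ ∀ st ∈ L, bk.G (b + d * bk.β) st.c := by
  induction d with
  | zero =>
    intro J hJ s hs E hE c b hc h0
    by_cases hJe : J = ∅
    · subst hJe
      refine ⟨[], ?_, by simp, by simp⟩
      have h := h0 (fun _ => true)
      simp only [evJ_empty, mul_one] at h
      simp only [mono_empty, mul_one, List.map_nil, List.sum_nil]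
      rw [← map_sum, h, map_zero]
    · have hne : Nonempty (Fin n) := by
        obtain ⟨j, _⟩ := Finset.nonempty_iff_ne_empty.mpr hJe
        exact ⟨j⟩
      rw [pow_zero, Finset.card_le_one_iff_subset_singleton] at hJ
      obtain ⟨j, hj⟩ := hJ
      have hJj : J = {j} := by
        rcases Finset.subset_singleton_iff.mp hj with h | h
        · exact absurd h hJe
        · exact h
      subst hJj
      obtain ⟨L, h1, h2, h3⟩ := core_base j s E hE c (bk.G b) (fun i hi => bk.neg _ _ (hc i hi)) h0
      refine ⟨L, h1, by simpa using h2, by simpa using h3⟩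
  | succ d ih =>
    intro J hJ s hs E hE c b hc h0
    -- choose the first half
    obtain ⟨J1, hJ1, hJ1c, hJ2c⟩ : ∃ J1 ⊆ J, J1.card ≤ 2 ^ d ∧ (J \ J1).card ≤ 2 ^ d := by
      by_cases hle : J.card ≤ 2 ^ d
      · exact ⟨J, subset_rfl, hle, by simp⟩
      · push Not at hle
        obtain ⟨J1, h1, h2⟩ := Finset.exists_subset_card_eq hle.le
        refine ⟨J1, h1, h2.le, ?_⟩
        rw [Finset.card_sdiff_of_subset h1, h2]
        rw [pow_succ] at hJ
        omega
    obtain ⟨B, hBs, lam, hlam, hind, hspan⟩ := bk.basis J1 s E hs
    set J2 := J \ J1 with hJ2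
    -- card bookkeeping
    have hBcard : B.card ≤ s.card := Finset.card_le_card hBs
    have hsd : (s \ B).card + B.card = s.card := by
      rw [Finset.card_sdiff_of_subset hBs]; omega
    -- type 1
    have T1 : ∀ i ∈ s \ B, ∃ L : List (Step F n), (L.map Step.val).sum =
        monomial (expo J2 (E i)) 1 * ∑ k ∈ insert i B, C (if k = i then c i else -(c i * lam i k)) * mono F J1 (E k) ∧
        L.length ≤ s.card ^ (d + 1) ∧ ∀ st ∈ L, bk.G (b + (d + 1) * bk.β) st.c := by
      intro i hi
      rw [Finset.mem_sdiff] at hi
      have hsub : insert i B ⊆ s := Finset.insert_subset hi.1 hBs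
      have hcard : (insert i B).card ≤ s.card := Finset.card_le_card hsub
      obtain ⟨L, h1, h2, h3⟩ := ih J1 hJ1c (insert i B) (hcard.trans hs) E (fun k hk => hE k (hsub hk))
        (fun k => if k = i then c i else -(c i * lam i k)) (b + bk.β) (by
          intro k hk
          split_ifs with hki
          · exact bk.mono _ _ (hc i hi.1)
          · exact bk.neg _ _ (hlam i k _ _ (hc i hi.1))) (by
          intro x
          rw [Finset.sum_insert hi.2]
          simp only [if_true]
          have e := congrFun (hspan i hi.1 hi.2) x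
          rw [Finset.sum_apply] at e
          rw [e, Finset.mul_sum, ← Finset.sum_add_distrib]
          apply Finset.sum_eq_zero
          intro k hk
          have hki : k ≠ i := fun h => hi.2 (h ▸ hk)
          rw [if_neg hki]
          simp only [Pi.smul_apply, smul_eq_mul]
          ring)
      refine ⟨L.map (Step.shift (expo J2 (E i))), ?_, ?_, ?_⟩
      · rw [shift_sum, h1]
      · rw [List.length_map]
        exact h2.trans (Nat.pow_le_pow_left hcard _)
      · intro st hst
        rw [List.mem_map] at hst
        obtain ⟨st', hst', rfl⟩ := hst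
        have := h3 st' hst'
        have e : b + bk.β + d * bk.β = b + (d + 1) * bk.β := by ring
        rw [e] at this
        exact this
    -- type 2
    have T2 : ∀ k ∈ B, ∃ L : List (Step F n), (L.map Step.val).sum =
        monomial (expo J1 (E k)) 1 * ∑ i ∈ insert k (s \ B), C (if i = k then c k else c i * lam i k) * mono F J2 (E i) ∧
        L.length ≤ s.card ^ (d + 1) ∧ ∀ st ∈ L, bk.G (b + (d + 1) * bk.β) st.c := by
      intro k hk
      have hsub : insert k (s \ B) ⊆ s := Finset.insert_subset (hBs hk) Finset.sdiff_subset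
      have hcard : (insert k (s \ B)).card ≤ s.card := Finset.card_le_card hsub
      have hkn : k ∉ s \ B := by simp [hk]
      obtain ⟨L, h1, h2, h3⟩ := ih J2 hJ2c (insert k (s \ B)) (hcard.trans hs) E (fun i hi => hE i (hsub hi))
        (fun i => if i = k then c k else c i * lam i k) (b + bk.β) (by
          intro i hi
          split_ifs with hki
          · exact bk.mono _ _ (hc k (hBs hk))
          · exact hlam i k _ _ (hc i (hsub hi))) (by
          intro y
          -- use independence of the prefix functions
          have key : ∑ k ∈ B, (∑ i ∈ insert k (s \ B), (if i = k then c k else c i * lam i k) * evJ F J2 (E i) y) •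
              evJ F J1 (E k) = 0 := by
            funext x
            rw [Finset.sum_apply, Pi.zero_apply]
            have h := h0 (fun j => if j ∈ J1 then x j else y j)
            rw [← h, ← Finset.sdiff_union_of_subset hBs, Finset.sum_union Finset.sdiff_disjoint]
            have hz : ∀ i, evJ F J (E i) (fun j => if j ∈ J1 then x j else y j) = evJ F J1 (E i) x * evJ F J2 (E i) y := by
              intro i
              rw [evJ_split J J1 hJ1]
              congr 1
              · apply evJ_congr
                intro j hj
                simp [hj]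
              · apply evJ_congr
                intro j hj
                have : j ∉ J1 := (Finset.mem_sdiff.mp hj).2
                simp [this]
            rw [Finset.sdiff_union_of_subset hBs]
            have e1 : ∑ i ∈ s \ B, c i * evJ F J (E i) (fun j => if j ∈ J1 then x j else y j)
                = ∑ k ∈ B, ∑ i ∈ s \ B, c i * lam i k * evJ F J2 (E i) y * evJ F J1 (E k) x := by
              rw [Finset.sum_comm]
              apply Finset.sum_congr rfl
              intro i hi
              rw [Finset.mem_sdiff] at hi
              have e := congrFun (hspan i hi.1 hi.2) x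
              rw [Finset.sum_apply] at e
              rw [hz, e, Finset.sum_mul, Finset.mul_sum]
              apply Finset.sum_congr rfl
              intro k _
              simp only [Pi.smul_apply, smul_eq_mul]
              ring
            rw [e1, ← Finset.sum_add_distrib]
            apply Finset.sum_congr rfl
            intro k hk
            have hkn : k ∉ s \ B := by simp [hk]
            rw [hz, Pi.smul_apply, smul_eq_mul, Finset.sum_insert hkn, if_pos rfl, add_mul, Finset.sum_mul, add_comm]
            congr 1
            · apply Finset.sum_congr rfl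
              intro i hi
              have hik : i ≠ k := fun h => hkn (h ▸ hi)
              rw [if_neg hik]
            · ring
          have h1 := (linearIndepOn_finset_iff.mp hind) _ key k hk
          exact h1)
      refine ⟨L.map (Step.shift (expo J1 (E k))), ?_, ?_, ?_⟩
      · rw [shift_sum, h1]
      · rw [List.length_map]
        exact h2.trans (Nat.pow_le_pow_left hcard _)
      · intro st hst
        rw [List.mem_map] at hst
        obtain ⟨st', hst', rfl⟩ := hst
        have := h3 st' hst'
        have e : b + bk.β + d * bk.β = b + (d + 1) * bk.β := by ring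
        rw [e] at this
        exact this
    obtain ⟨L1, a1, a2, a3⟩ := collect _ _ _ _ T1
    obtain ⟨L2, b1, b2, b3⟩ := collect _ _ _ _ T2
    refine ⟨L1 ++ L2, ?_, ?_, ?_⟩
    · rw [List.map_append, List.sum_append, a1, b1]
      rw [← Finset.sdiff_union_of_subset hBs, Finset.sum_union Finset.sdiff_disjoint,
        Finset.sdiff_union_of_subset hBs]
      have e1 : ∀ i ∈ s \ B, (monomial (expo J2 (E i)) 1 : MvPolynomial (Fin n × Bool) F) *
          ∑ k ∈ insert i B, C (if k = i then c i else -(c i * lam i k)) * mono F J1 (E k)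
          = C (c i) * mono F J (E i) - ∑ k ∈ B, C (c i * lam i k) * (mono F J1 (E k) * mono F J2 (E i)) := by
        intro i hi
        rw [Finset.mem_sdiff] at hi
        rw [Finset.sum_insert hi.2, if_pos rfl, ← mono_eq, mono_split J J1 hJ1, mul_add, Finset.mul_sum]
        rw [sub_eq_add_neg, ← Finset.sum_neg_distrib]
        congr 1
        · ring
        · apply Finset.sum_congr rfl
          intro k hk
          have hki : k ≠ i := fun h => hi.2 (h ▸ hk)
          rw [if_neg hki, C_neg]
          ring
      have e2 : ∀ k ∈ B, (monomial (expo J1 (E k)) 1 : MvPolynomial (Fin n × Bool) F) *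
          ∑ i ∈ insert k (s \ B), C (if i = k then c k else c i * lam i k) * mono F J2 (E i)
          = C (c k) * mono F J (E k) + ∑ i ∈ s \ B, C (c i * lam i k) * (mono F J1 (E k) * mono F J2 (E i)) := by
        intro k hk
        have hkn : k ∉ s \ B := by simp [hk]
        rw [Finset.sum_insert hkn, if_pos rfl, ← mono_eq, mono_split J J1 hJ1, mul_add, Finset.mul_sum]
        congr 1
        · ring
        · apply Finset.sum_congr rfl
          intro i hi
          have hik : i ≠ k := fun h => hkn (h ▸ hi)
          rw [if_neg hik]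
          ring
      rw [Finset.sum_congr rfl e1, Finset.sum_congr rfl e2, Finset.sum_sub_distrib, Finset.sum_add_distrib,
        Finset.sum_comm (s := s \ B) (t := B)]
      ring
    · rw [List.length_append]
      calc L1.length + L2.length ≤ (s \ B).card * s.card ^ (d + 1) + B.card * s.card ^ (d + 1) :=
            Nat.add_le_add a2 b2
        _ = ((s \ B).card + B.card) * s.card ^ (d + 1) := by ring
        _ = s.card ^ (d + 1 + 1) := by rw [hsd]; ring
    · intro st hst
      rcases List.mem_append.mp hst with h | h
      · exact a3 st h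
      · exact b3 st h

end Pool.Agent.Helper80.NSR
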