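import Mathlib
import Pool.Agent.Helper80.NSRCore

namespace Pool.Agent.Helper80.NSR

open MvPolynomial

variable {F : Type*} [Field F] {n : ℕ} {ι : Type*} [DecidableEq ι]

omit [DecidableEq ι] in
theorem exists_basis {X : Type*} (a : ι → X → F) (s : Finset ι) :
    ∃ B ⊆ s, LinearIndepOn F a (B : Set ι) ∧ ∀ i ∈ s, ∃ l : ι → F, a i = ∑ k ∈ B, l k • a k := by
  classical
  obtain ⟨b, hb, _, hsp, hli⟩ := exists_linearIndepOn_extension (K := F) (v := a) (s := ∅) (t := (s : Set ι))
    (linearIndepOn_empty F a) (Set.empty_subset _)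
  have hfin : b.Finite := s.finite_toSet.subset hb
  refine ⟨hfin.toFinset, ?_, ?_, ?_⟩
  · intro i hi
    exact hb (hfin.mem_toFinset.mp hi)
  · simpa using hli
  · intro i hi
    have h1 : a i ∈ Submodule.span F (a '' b) := hsp ⟨i, hi, rfl⟩
    rw [← hfin.coe_toFinset, Submodule.mem_span_image_finset_iff_exists_fun'] at h1
    obtain ⟨l, hl⟩ := h1
    exact ⟨l, hl.symm⟩

/-- trivial bookkeeping: only the number of steps matters -/
noncomputable def trivialBook (F : Type*) [Field F] (n K : ℕ) (ι : Type*) : Book F n K ι where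
  G _ _ := True
  β := 0
  neg _ _ _ := trivial
  mono _ _ _ := trivial
  basis J s E _ := by
    classical
    obtain ⟨B, hB, hli, hsp⟩ := exists_basis (fun i => evJ F J (E i)) s
    choose! l hl using hsp
    exact ⟨B, hB, l, fun _ _ _ _ _ => trivial, hli, fun i hi _ => hl i hi⟩

end Pool.Agent.Helper80.NSR
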