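import Mathlib
import Pool.Agent.Helper80.NSRCore
import Pool.Agent.Helper80.NSRBasis

namespace Pool.Agent.Helper80.NSR

open MvPolynomial

variable {F : Type*} [Field F] {n : ℕ}

instance decConsistent (E : Finset (Fin n × Bool)) : Decidable (Consistent E) := by
  unfold Consistent; infer_instance

theorem bv_idem (x : Fin n → Bool) (v : Fin n × Bool) : bv F x v * bv F x v = bv F x v := by
  unfold bv; split_ifs <;> simp

theorem bv_pow (x : Fin n → Bool) (v : Fin n × Bool) (k : ℕ) (hk : k ≠ 0) : bv F x v ^ k = bv F x v := by
  unfold bv; split_ifs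
  · simp
  · simp [hk]

theorem prod_union_idem (x : Fin n → Bool) (A B : Finset (Fin n × Bool)) :
    (∏ v ∈ A, bv F x v) * ∏ v ∈ B, bv F x v = ∏ v ∈ A ∪ B, bv F x v := by
  classical
  induction B using Finset.induction_on with
  | empty => simp
  | insert b B hb ih =>
    rw [Finset.prod_insert hb, Finset.union_insert]
    by_cases hbA : b ∈ A ∪ B
    · rw [Finset.insert_eq_of_mem hbA, ← ih]
      have h1 : (∏ v ∈ A, bv F x v) * ∏ v ∈ B, bv F x v = bv F x b * ((∏ v ∈ A, bv F x v) * ∏ v ∈ B, bv F x v) := by
        rw [ih, ← Finset.mul_prod_erase _ _ hbA, ← mul_assoc, bv_idem]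
      rw [h1]
      linear_combination (-(0:F)) * h1
    · rw [Finset.prod_insert hbA, ← ih]; ring

theorem evJ_univ (E : Finset (Fin n × Bool)) (x : Fin n → Bool) :
    evJ F Finset.univ E x = ∏ v ∈ E, bv F x v := by
  unfold evJ; simp

theorem mono_univ (E : Finset (Fin n × Bool)) : mono F Finset.univ E = ∏ v ∈ E, X v := by
  unfold mono; simp

theorem evJ_not_consistent (E : Finset (Fin n × Bool)) (x : Fin n → Bool) (h : ¬ Consistent E) :
    ∏ v ∈ E, bv F x v = 0 := by
  unfold Consistent at h
  push Not at h
  obtain ⟨j, h1, h2⟩ := h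
  by_cases hx : x j = true
  · apply Finset.prod_eq_zero h2
    unfold bv; simp [hx]
  · apply Finset.prod_eq_zero h1
    unfold bv; simp [hx]

/-- value of a monomial at a Boolean point -/
theorem eval_monomial_bv (x : Fin n → Bool) (μ : (Fin n × Bool) →₀ ℕ) (a : F) :
    eval (bv F x) (monomial μ a) = a * ∏ v ∈ μ.support, bv F x v := by
  rw [eval_monomial]
  congr 1
  unfold Finsupp.prod
  apply Finset.prod_congr rfl
  intro v hv
  exact bv_pow x v _ (Finsupp.mem_support_iff.mp hv)

/-- the residual exponent vector -/
noncomputable def resid (D : Finset (Fin n × Bool)) (μ : (Fin n × Bool) →₀ ℕ) : (Fin n × Bool) →₀ ℕ :=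
  ∑ v ∈ μ.support \ D, Finsupp.single v 1

theorem prod_mul_resid (D : Finset (Fin n × Bool)) (μ : (Fin n × Bool) →₀ ℕ) (a : F) :
    (∏ v ∈ D, X v) * monomial (resid D μ) a = C a * mono F Finset.univ (D ∪ μ.support) := by
  classical
  have h1 : (monomial (resid D μ) a : MvPolynomial (Fin n × Bool) F) = C a * ∏ v ∈ μ.support \ D, X v := by
    unfold resid
    rw [show a = a * 1 by rw [mul_one], ← C_mul_monomial, monomial_sum_one, mul_one]
    rfl
  rw [h1, mono_univ, ← Finset.union_sdiff_self_eq_union, Finset.prod_union Finset.disjoint_sdiff]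
  ring

variable {ι : Type*} [DecidableEq ι]

/-- Main assembly: from a Boolean identity between `c_i * (∏_{D_i} X) * X^{μ_i}` to few steps. -/
theorem assembly {K : ℕ} (bk : Book F n K ι) (s : Finset ι) (hs : s.card ≤ K)
    (D : ι → Finset (Fin n × Bool)) (μ : ι → (Fin n × Bool) →₀ ℕ) (c : ι → F) (b : ℕ)
    (hc : ∀ i ∈ s, bk.G b (c i))
    (h0 : ∀ x, ∑ i ∈ s, eval (bv F x) ((∏ v ∈ D i, X v) * monomial (μ i) (c i)) = 0) :
    ∃ L : List (Step F n),
      (L.map Step.val).sum = ∑ i ∈ s.filter (fun i => Consistent (D i ∪ (μ i).support)),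
        (∏ v ∈ D i, X v) * monomial (resid (D i) (μ i)) (c i) ∧
      L.length ≤ s.card ^ (Nat.clog 2 n + 1) ∧ ∀ st ∈ L, bk.G (b + Nat.clog 2 n * bk.β) st.c := by
  classical
  set s' := s.filter (fun i => Consistent (D i ∪ (μ i).support)) with hs'
  have hcard : s'.card ≤ s.card := Finset.card_filter_le _ _
  have hJ : (Finset.univ : Finset (Fin n)).card ≤ 2 ^ Nat.clog 2 n := by
    rw [Finset.card_univ, Fintype.card_fin]
    exact Nat.le_pow_clog (by norm_num) n
  obtain ⟨L, h1, h2, h3⟩ := core bk (Nat.clog 2 n) Finset.univ hJ s' (hcard.trans hs)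
    (fun i => D i ∪ (μ i).support) (fun i hi => (Finset.mem_filter.mp hi).2) c b
    (fun i hi => hc i (Finset.mem_filter.mp hi).1) (by
      intro x
      rw [← h0 x, hs', Finset.sum_filter]
      apply Finset.sum_congr rfl
      intro i _
      rw [map_mul, eval_monomial_bv, map_prod]
      simp only [eval_X]
      have e : (∏ v ∈ D i, bv F x v) * (c i * ∏ v ∈ (μ i).support, bv F x v)
          = c i * ∏ v ∈ D i ∪ (μ i).support, bv F x v := by
        rw [← prod_union_idem]; ring
      rw [e]
      split_ifs with hcon
      · rw [evJ_univ]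
      · rw [evJ_not_consistent _ _ hcon, mul_zero])
  refine ⟨L, ?_, h2.trans (Nat.pow_le_pow_left hcard _), h3⟩
  rw [h1]
  apply Finset.sum_congr rfl
  intro i _
  rw [prod_mul_resid]

/-- the multiplier of `x_j + x̄_j - 1` collected from a list of steps -/
noncomputable def mult (L : List (Step F n)) (j : Fin n) : MvPolynomial (Fin n × Bool) F :=
  ((L.filter (fun st => st.j = j)).map (fun st => monomial st.μ st.c)).sum

theorem sum_mult (L : List (Step F n)) :
    ∑ j, (X (j, true) + X (j, false) - 1) * mult L j = (L.map Step.val).sum := by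
  induction L with
  | nil => simp [mult]
  | cons a L ih =>
    rw [List.map_cons, List.sum_cons, ← ih]
    have h : ∀ j, mult (a :: L) j = (if a.j = j then monomial a.μ a.c else 0) + mult L j := by
      intro j
      unfold mult
      by_cases hj : a.j = j
      · rw [List.filter_cons_of_pos (by simpa using hj)]
        simp [hj]
      · rw [List.filter_cons_of_neg (by simpa using hj)]
        simp [hj]
    simp only [h, mul_add, Finset.sum_add_distrib]
    congr 1
    simp only [mul_ite, mul_zero, Finset.sum_ite_eq, Finset.mem_univ, if_true]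
    unfold Step.val
    ring

theorem card_support_list_sum_le (L : List (Step F n)) :
    ((L.map (fun st => (monomial st.μ st.c : MvPolynomial (Fin n × Bool) F))).sum).support.card ≤ L.length := by
  classical
  induction L with
  | nil => simp
  | cons a L ih =>
    rw [List.map_cons, List.sum_cons, List.length_cons]
    calc _ ≤ ((monomial a.μ a.c : MvPolynomial (Fin n × Bool) F).support ∪ _).card :=
          Finset.card_le_card support_add
      _ ≤ _ := Finset.card_union_le _ _
      _ ≤ 1 + L.length := by
          apply Nat.add_le_add _ ih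
          calc _ ≤ ({a.μ} : Finset ((Fin n × Bool) →₀ ℕ)).card := Finset.card_le_card support_monomial_subset
            _ = 1 := Finset.card_singleton _
      _ = L.length + 1 := by ring

omit [Field F] in
theorem sum_length_filter (L : List (Step F n)) :
    ∑ j : Fin n, (L.filter (fun st => st.j = j)).length = L.length := by
  induction L with
  | nil => simp
  | cons a L ih =>
    rw [List.length_cons, ← ih]
    have h : ∀ j, ((a :: L).filter (fun st => st.j = j)).length =
        (if a.j = j then 1 else 0) + (L.filter (fun st => st.j = j)).length := by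
      intro j
      by_cases hj : a.j = j
      · rw [List.filter_cons_of_pos (by simpa using hj)]
        simp [hj, add_comm]
      · rw [List.filter_cons_of_neg (by simpa using hj)]
        simp [hj]
    simp only [h, Finset.sum_add_distrib]
    simp [add_comm]

theorem sum_card_mult (L : List (Step F n)) :
    ∑ j : Fin n, (mult L j).support.card ≤ L.length := by
  rw [← sum_length_filter L]
  apply Finset.sum_le_sum
  intro j _
  exact card_support_list_sum_le _

end Pool.Agent.Helper80.NSR
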