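import Mathlib
import Pool.Agent.Helper80.NSRClean

namespace Pool.Agent.Helper80.NSR

open MvPolynomial

/-- height of a rational -/
def ht (a : ℚ) : ℕ := max a.num.natAbs a.den

theorem ht_pos (a : ℚ) : 0 < ht a := lt_of_lt_of_le a.den_pos (le_max_right _ _)

theorem ht_neg (a : ℚ) : ht (-a) = ht a := by simp [ht]

theorem ht_div_le (p q : ℤ) (hq : q ≠ 0) (M : ℕ) (hp : p.natAbs ≤ M) (hqM : q.natAbs ≤ M) :
    ht ((p : ℚ) / (q : ℚ)) ≤ M := by
  unfold ht
  apply max_le
  · by_cases hp0 : p = 0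
    · subst hp0; simp
    · have h : ((p : ℚ) / q).num ∣ p := by
        have := Rat.num_dvd p (b := q) hq
        rwa [Rat.divInt_eq_div] at this
      exact (Nat.le_of_dvd (Int.natAbs_pos.mpr hp0) (Int.natAbs_dvd_natAbs.mpr h)).trans hp
  · have h : ((((p : ℚ) / q).den : ℕ) : ℤ) ∣ q := by
      have := Rat.den_dvd p q
      rwa [Rat.divInt_eq_div] at this
    have h2 : ((p : ℚ) / q).den ∣ q.natAbs := by
      have := Int.natAbs_dvd_natAbs.mpr h
      simpa using this
    exact (Nat.le_of_dvd (Int.natAbs_pos.mpr hq) h2).trans hqM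

theorem ht_mul_le (a b : ℚ) : ht (a * b) ≤ ht a * ht b := by
  have e : a * b = ((a.num * b.num : ℤ) : ℚ) / ((a.den * b.den : ℤ) : ℚ) := by
    push_cast
    have ha : (a.den : ℚ) ≠ 0 := by exact_mod_cast a.den_ne_zero
    have hb : (b.den : ℚ) ≠ 0 := by exact_mod_cast b.den_ne_zero
    have h1 : a * a.den = a.num := Rat.mul_den_eq_num a
    have h2 : b * b.den = b.num := Rat.mul_den_eq_num b
    rw [eq_div_iff (mul_ne_zero ha hb), ← h1, ← h2]; ring
  rw [e]
  have h3 : a.den ≤ ht a := le_max_right _ _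
  have h4 : b.den ≤ ht b := le_max_right _ _
  apply ht_div_le
  · have h1 := a.den_pos; have h2 := b.den_pos
    positivity
  · rw [Int.natAbs_mul]
    exact Nat.mul_le_mul (le_max_left _ _) (le_max_left _ _)
  · rw [Int.natAbs_mul]
    simp only [Int.natAbs_natCast]
    exact Nat.mul_le_mul h3 h4

theorem ht_add_le (a b : ℚ) : ht (a + b) ≤ 2 * (ht a * ht b) := by
  have e : a + b = ((a.num * b.den + b.num * a.den : ℤ) : ℚ) / ((a.den * b.den : ℤ) : ℚ) := by
    push_cast
    have ha : (a.den : ℚ) ≠ 0 := by exact_mod_cast a.den_ne_zero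
    have hb : (b.den : ℚ) ≠ 0 := by exact_mod_cast b.den_ne_zero
    have h1 : a * a.den = a.num := Rat.mul_den_eq_num a
    have h2 : b * b.den = b.num := Rat.mul_den_eq_num b
    rw [eq_div_iff (mul_ne_zero ha hb), ← h1, ← h2]; ring
  rw [e]
  have h1 : a.num.natAbs ≤ ht a := le_max_left _ _
  have h2 : b.num.natAbs ≤ ht b := le_max_left _ _
  have h3 : a.den ≤ ht a := le_max_right _ _
  have h4 : b.den ≤ ht b := le_max_right _ _
  apply ht_div_le
  · have h1 := a.den_pos; have h2 := b.den_pos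
    positivity
  · calc (a.num * b.den + b.num * a.den).natAbs ≤ (a.num * b.den).natAbs + (b.num * a.den).natAbs := Int.natAbs_add_le _ _
      _ = a.num.natAbs * b.den + b.num.natAbs * a.den := by rw [Int.natAbs_mul, Int.natAbs_mul]; simp
      _ ≤ ht a * ht b + ht b * ht a := Nat.add_le_add (Nat.mul_le_mul h1 h4) (Nat.mul_le_mul h2 h3)
      _ = _ := by ring
  · rw [Int.natAbs_mul]
    simp only [Int.natAbs_natCast]
    calc a.den * b.den ≤ ht a * ht b := Nat.mul_le_mul h3 h4
      _ ≤ _ := by omega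

/-- integer version of `evJ` -/
def evZ {n : ℕ} (J : Finset (Fin n)) (E : Finset (Fin n × Bool)) (x : Fin n → Bool) : ℤ :=
  if ∀ v ∈ E, v.1 ∈ J → x v.1 = v.2 then 1 else 0

theorem evZ_cast {n : ℕ} (J : Finset (Fin n)) (E : Finset (Fin n × Bool)) (x : Fin n → Bool) :
    evJ ℚ J E x = (evZ J E x : ℚ) := by
  unfold evJ evZ
  split_ifs with h
  · rw [Int.cast_one]
    apply Finset.prod_eq_one
    intro v hv
    rw [Finset.mem_filter] at hv
    unfold bv
    rw [if_pos (h v hv.1 hv.2)]
  · push Not at h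
    obtain ⟨v, hv, hvJ, hx⟩ := h
    rw [Int.cast_zero]
    apply Finset.prod_eq_zero (Finset.mem_filter.mpr ⟨hv, hvJ⟩)
    unfold bv
    rw [if_neg hx]

theorem evZ_01 {n : ℕ} (J : Finset (Fin n)) (E : Finset (Fin n × Bool)) (x : Fin n → Bool) :
    evZ J E x = 0 ∨ evZ J E x = 1 := by
  unfold evZ; split_ifs <;> simp

/-- inner product of two term functions -/
def ip {n : ℕ} (J : Finset (Fin n)) (E E' : Finset (Fin n × Bool)) : ℤ :=
  ∑ x : Fin n → Bool, evZ J E x * evZ J E' x

theorem ip_abs_le {n : ℕ} (J : Finset (Fin n)) (E E' : Finset (Fin n × Bool)) : |ip J E E'| ≤ 2 ^ n := by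
  unfold ip
  calc |∑ x : Fin n → Bool, evZ J E x * evZ J E' x| ≤ ∑ x : Fin n → Bool, |evZ J E x * evZ J E' x| :=
        Finset.abs_sum_le_sum_abs _ _
    _ ≤ ∑ x : Fin n → Bool, 1 := by
        apply Finset.sum_le_sum
        intro x _
        rcases evZ_01 J E x with h | h <;> rcases evZ_01 J E' x with h' | h' <;> rw [h, h'] <;> norm_num
    _ = 2 ^ n := by simp

theorem det_natAbs_le {m : ℕ} {κ : Type*} [Fintype κ] [DecidableEq κ] (A : Matrix κ κ ℤ) (N : ℕ)
    (h : ∀ i j, |A i j| ≤ 2 ^ N) (hm : Fintype.card κ ≤ m) : A.det.natAbs ≤ 2 ^ (m * m + N * m) := by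
  have h1 := Matrix.det_le (A := A) (abv := AbsoluteValue.abs) (x := (2:ℤ) ^ N) h
  have h2 : (A.det.natAbs : ℤ) ≤ ((Fintype.card κ).factorial * (2 ^ N) ^ (Fintype.card κ) : ℕ) := by
    rw [Int.natCast_natAbs]
    calc |A.det| ≤ _ := h1
      _ = _ := by push_cast; simp
  have h3 : A.det.natAbs ≤ (Fintype.card κ).factorial * (2 ^ N) ^ (Fintype.card κ) := by exact_mod_cast h2
  have h4 : (Fintype.card κ).factorial ≤ 2 ^ (m * m) := by
    calc (Fintype.card κ).factorial ≤ m.factorial := Nat.factorial_le hm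
      _ ≤ m ^ m := Nat.factorial_le_pow m
      _ ≤ (2 ^ m) ^ m := Nat.pow_le_pow_left (Nat.lt_two_pow_self).le m
      _ = 2 ^ (m * m) := by rw [← pow_mul]
  have h5 : (2 ^ N) ^ (Fintype.card κ) ≤ 2 ^ (N * m) := by
    rw [← pow_mul]
    exact Nat.pow_le_pow_right (by norm_num) (Nat.mul_le_mul_left N hm)
  calc A.det.natAbs ≤ _ := h3
    _ ≤ 2 ^ (m * m) * 2 ^ (N * m) := Nat.mul_le_mul h4 h5
    _ = _ := by rw [← pow_add]


variable {n : ℕ} {ι : Type*} [DecidableEq ι]

/-- Coefficients expressing a term function through independent ones have bounded height. -/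
theorem lam_bound (J : Finset (Fin n)) (B : Finset ι) (E : ι → Finset (Fin n × Bool)) (m : ℕ)
    (hm : B.card ≤ m) (hli : LinearIndepOn ℚ (fun i => evJ ℚ J (E i)) (B : Set ι))
    (E0 : Finset (Fin n × Bool)) (l : ι → ℚ) (hl : evJ ℚ J E0 = ∑ k ∈ B, l k • evJ ℚ J (E k)) :
    ∀ k ∈ B, ht (l k) ≤ 2 ^ (m * m + n * m) := by
  classical
  -- Gram matrix
  let A : Matrix B B ℤ := fun p q => ip J (E p) (E q)
  let g : B → ℤ := fun p => ip J (E p) E0
  let u : B → ℚ := fun p => l p
  have hAu : (A.map (Int.cast : ℤ → ℚ)).mulVec u = fun p => (g p : ℚ) := by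
    funext p
    simp only [Matrix.mulVec, dotProduct, Matrix.map_apply]
    have e1 : (g p : ℚ) = ∑ x : Fin n → Bool, evJ ℚ J (E p) x * evJ ℚ J E0 x := by
      simp only [g, ip]
      push_cast
      apply Finset.sum_congr rfl
      intro x _
      rw [evZ_cast, evZ_cast]
    have e2 : ∀ q : B, ((A p q : ℤ) : ℚ) = ∑ x : Fin n → Bool, evJ ℚ J (E p) x * evJ ℚ J (E q) x := by
      intro q
      simp only [A, ip]
      push_cast
      apply Finset.sum_congr rfl
      intro x _
      rw [evZ_cast, evZ_cast]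
    rw [e1]
    simp only [e2]
    simp only [Finset.sum_mul]
    rw [Finset.sum_comm]
    apply Finset.sum_congr rfl
    intro x _
    rw [hl, Finset.sum_apply, Finset.mul_sum]
    rw [← Finset.sum_coe_sort B]
    apply Finset.sum_congr rfl
    intro q _
    simp only [Pi.smul_apply, smul_eq_mul, u]
    ring
  -- invertibility
  have hdet : A.det ≠ 0 := by
    intro h0
    have h1 : (A.map (Int.cast : ℤ → ℚ)).det = 0 := by
      have := Int.cast_det (R := ℚ) A
      rw [h0] at this
      simpa using this.symm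
    obtain ⟨w, hw, hAw⟩ := Matrix.exists_mulVec_eq_zero_iff.mpr h1
    apply hw
    -- w^T A w = sum of squares
    have h2 : ∑ x : Fin n → Bool, (∑ q : B, w q * evJ ℚ J (E q) x) ^ 2 = 0 := by
      have h3 : dotProduct w ((A.map (Int.cast : ℤ → ℚ)).mulVec w) = 0 := by
        rw [hAw, dotProduct_zero]
      rw [← h3]
      simp only [Matrix.mulVec, dotProduct, Matrix.map_apply]
      have e2 : ∀ p q : B, ((A p q : ℤ) : ℚ) = ∑ x : Fin n → Bool, evJ ℚ J (E p) x * evJ ℚ J (E q) x := by
        intro p q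
        simp only [A, ip]
        push_cast
        apply Finset.sum_congr rfl
        intro x _
        rw [evZ_cast, evZ_cast]
      simp only [e2]
      have e3 : ∀ p : B, w p * ∑ q : B, (∑ x : Fin n → Bool, evJ ℚ J (E p) x * evJ ℚ J (E q) x) * w q
          = ∑ x : Fin n → Bool, (w p * evJ ℚ J (E p) x) * (∑ q : B, w q * evJ ℚ J (E q) x) := by
        intro p
        simp only [Finset.sum_mul, Finset.mul_sum]
        rw [Finset.sum_comm]
        apply Finset.sum_congr rfl
        intro x _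
        apply Finset.sum_congr rfl
        intro q _
        ring
      simp only [e3]
      rw [Finset.sum_comm]
      apply Finset.sum_congr rfl
      intro x _
      rw [← Finset.sum_mul, pow_two]
    have h4 : ∀ x : Fin n → Bool, ∑ q : B, w q * evJ ℚ J (E q) x = 0 := by
      intro x
      have h5 := (Finset.sum_eq_zero_iff_of_nonneg (fun x _ => sq_nonneg _)).mp h2 x (Finset.mem_univ x)
      exact pow_eq_zero_iff two_ne_zero |>.mp h5
    funext p
    rw [Pi.zero_apply]
    have h6 : ∑ i ∈ B, (fun i => if h : i ∈ B then w ⟨i, h⟩ else 0) i • evJ ℚ J (E i) = 0 := by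
      funext x
      rw [Finset.sum_apply, ← Finset.sum_coe_sort B, Pi.zero_apply, ← h4 x]
      apply Finset.sum_congr rfl
      intro q _
      simp
    have h7 := (linearIndepOn_finset_iff.mp hli) _ h6 p p.2
    simpa using h7
  -- Cramer
  have hcr : ∀ p : B, (A.det : ℚ) * u p = (A.cramer g p : ℚ) := by
    have h1 : (A.map (Int.cast : ℤ → ℚ)).mulVec (fun p => (A.det : ℚ) * u p - (A.cramer g p : ℚ)) = 0 := by
      have h2 := Matrix.mulVec_cramer A g
      have h3 : (A.map (Int.cast : ℤ → ℚ)).mulVec (fun p => (A.cramer g p : ℚ)) = fun p => (A.det : ℚ) * (g p : ℚ) := by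
        funext p
        have h4 := congrFun h2 p
        simp only [Matrix.mulVec, dotProduct, Pi.smul_apply, smul_eq_mul] at h4
        simp only [Matrix.mulVec, dotProduct, Matrix.map_apply]
        have h5 : (((∑ i, A p i * A.cramer g i : ℤ)) : ℚ) = ((A.det * g p : ℤ) : ℚ) := by rw [h4]
        rw [Int.cast_sum, Int.cast_mul] at h5
        rw [← h5]
        apply Finset.sum_congr rfl
        intro i _
        rw [Int.cast_mul]
      have h4 : (fun p => (A.det : ℚ) * u p - (A.cramer g p : ℚ)) = (A.det : ℚ) • u - (fun p => (A.cramer g p : ℚ)) := by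
        funext p; simp
      rw [h4, Matrix.mulVec_sub, Matrix.mulVec_smul, hAu, h3]
      funext p; simp
    have h5 : (A.map (Int.cast : ℤ → ℚ)).det ≠ 0 := by
      have := Int.cast_det (R := ℚ) A
      intro h6
      apply hdet
      have h7 : (A.det : ℚ) = 0 := by
        rw [this]; exact h6
      exact_mod_cast h7
    have h8 := Matrix.eq_zero_of_mulVec_eq_zero h5 h1
    intro p
    have := congrFun h8 p
    simp only [Pi.zero_apply] at this
    linarith
  intro k hk
  have hk' := hcr ⟨k, hk⟩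
  have hd0 : (A.det : ℚ) ≠ 0 := by exact_mod_cast hdet
  have e : l k = (A.cramer g ⟨k, hk⟩ : ℚ) / (A.det : ℚ) := by
    rw [eq_div_iff hd0, ← hk']; ring
  rw [e]
  have hcard : Fintype.card B ≤ m := by simpa using hm
  apply ht_div_le _ _ hdet
  · rw [Matrix.cramer_apply]
    apply det_natAbs_le _ n _ hcard
    intro i j
    rw [Matrix.updateCol_apply]
    split_ifs
    · exact ip_abs_le _ _ _
    · exact ip_abs_le _ _ _
  · exact det_natAbs_le _ n (fun i j => ip_abs_le _ _ _) hcard

/-- bookkeeping of heights over `ℚ` -/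
noncomputable def ratBook (n K : ℕ) (ι : Type*) : Book ℚ n K ι where
  G b a := ht a ≤ 2 ^ b
  β := K * K + n * K
  neg b a h := by rw [ht_neg]; exact h
  mono b a h := h.trans (Nat.pow_le_pow_right (by norm_num) (Nat.le_add_right _ _))
  basis J s E hs := by
    classical
    obtain ⟨B, hB, hli, hsp⟩ := exists_basis (fun i => evJ ℚ J (E i)) s
    choose! l hl using hsp
    refine ⟨B, hB, fun i k => if i ∈ s ∧ k ∈ B then l i k else 0, ?_, hli, ?_⟩
    · intro i k b a ha
      beta_reduce
      split_ifs with h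
      · have h1 := lam_bound J B E K ((Finset.card_le_card hB).trans hs) hli (E i) (l i) (hl i h.1) k h.2
        calc ht (a * l i k) ≤ ht a * ht (l i k) := ht_mul_le _ _
          _ ≤ 2 ^ b * 2 ^ (K * K + n * K) := Nat.mul_le_mul ha h1
          _ = _ := by rw [← pow_add]
      · rw [mul_zero]
        have : ht 0 = 1 := by simp [ht]
        rw [this]
        exact Nat.one_le_two_pow
    · intro i hi _
      rw [hl i hi]
      apply Finset.sum_congr rfl
      intro k hk
      beta_reduce
      rw [if_pos ⟨hi, hk⟩]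

end Pool.Agent.Helper80.NSR
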