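import Mathlib
import Pool.Agent.Helper80.NSRRat

namespace Pool.Agent.Helper80.NSR

open MvPolynomial

/-- bit size of a rational -/
def bits (a : ℚ) : ℕ := Nat.size a.num.natAbs + Nat.size a.den

/-- size of a rational polynomial: number of monomials plus bit size of the coefficients -/
noncomputable def polySize {σ : Type*} (p : MvPolynomial σ ℚ) : ℕ :=
  ∑ m ∈ p.support, (1 + bits (p.coeff m))

theorem ht_lt_bits (a : ℚ) : ht a ≤ 2 ^ bits a := by
  unfold ht bits
  apply max_le
  · calc a.num.natAbs ≤ 2 ^ (Nat.size a.num.natAbs) := (Nat.lt_size_self _).le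
      _ ≤ _ := Nat.pow_le_pow_right (by norm_num) (by omega)
  · calc a.den ≤ 2 ^ (Nat.size a.den) := (Nat.lt_size_self _).le
      _ ≤ _ := Nat.pow_le_pow_right (by norm_num) (by omega)

theorem bits_le_of_ht (a : ℚ) (b : ℕ) (h : ht a ≤ 2 ^ b) : bits a ≤ 2 * (b + 1) := by
  have h1 : a.num.natAbs < 2 ^ (b + 1) := by
    calc a.num.natAbs ≤ ht a := le_max_left _ _
      _ ≤ 2 ^ b := h
      _ < 2 ^ (b + 1) := Nat.pow_lt_pow_right (by norm_num) (by omega)
  have h2 : a.den < 2 ^ (b + 1) := by
    calc a.den ≤ ht a := le_max_right _ _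
      _ ≤ 2 ^ b := h
      _ < 2 ^ (b + 1) := Nat.pow_lt_pow_right (by norm_num) (by omega)
  have h3 := Nat.size_le.mpr h1
  have h4 := Nat.size_le.mpr h2
  unfold bits
  omega

theorem ht_sum_le {ι : Type*} (t : Finset ι) (a : ι → ℚ) (b : ι → ℕ) (h : ∀ i ∈ t, ht (a i) ≤ 2 ^ b i) :
    ht (∑ i ∈ t, a i) ≤ 2 ^ (∑ i ∈ t, (b i + 1)) := by
  classical
  induction t using Finset.induction_on with
  | empty => simp [ht]
  | insert c t hc ih =>
    rw [Finset.sum_insert hc, Finset.sum_insert hc]
    calc ht (a c + ∑ i ∈ t, a i) ≤ 2 * (ht (a c) * ht (∑ i ∈ t, a i)) := ht_add_le _ _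
      _ ≤ 2 * (2 ^ b c * 2 ^ (∑ i ∈ t, (b i + 1))) := by
          apply Nat.mul_le_mul_left
          exact Nat.mul_le_mul (h c (Finset.mem_insert_self _ _))
            (ih (fun i hi => h i (Finset.mem_insert_of_mem hi)))
      _ = _ := by ring

theorem polySize_sum_monomial_le {ι σ : Type*} (t : Finset ι) (μ : ι → σ →₀ ℕ)
    (a : ι → ℚ) (b : ι → ℕ) (h : ∀ i ∈ t, ht (a i) ≤ 2 ^ b i) :
    polySize (∑ i ∈ t, monomial (μ i) (a i)) ≤ ∑ i ∈ t, (2 * b i + 5) := by
  classical
  set p : MvPolynomial σ ℚ := ∑ i ∈ t, monomial (μ i) (a i) with hp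
  have hcoeff : ∀ m, p.coeff m = ∑ i ∈ t with μ i = m, a i := by
    intro m
    rw [hp, coeff_sum, Finset.sum_filter]
    apply Finset.sum_congr rfl
    intro i _
    rw [coeff_monomial]
  have hsub : ∀ m ∈ p.support, (t.filter (fun i => μ i = m)).Nonempty := by
    intro m hm
    rw [mem_support_iff, hcoeff] at hm
    exact Finset.nonempty_of_sum_ne_zero hm
  unfold polySize
  calc ∑ m ∈ p.support, (1 + bits (p.coeff m))
      ≤ ∑ m ∈ p.support, ∑ i ∈ t with μ i = m, (2 * b i + 5) := by
        apply Finset.sum_le_sum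
        intro m hm
        have h1 : ht (p.coeff m) ≤ 2 ^ (∑ i ∈ t with μ i = m, (b i + 1)) := by
          rw [hcoeff]
          apply ht_sum_le
          intro i hi
          exact h i (Finset.mem_filter.mp hi).1
        have h2 := bits_le_of_ht _ _ h1
        obtain ⟨i0, hi0⟩ := hsub m hm
        have h3 : ∑ i ∈ t with μ i = m, (2 * b i + 5) = 2 * (∑ i ∈ t with μ i = m, (b i + 1)) +
            3 * (t.filter (fun i => μ i = m)).card := by
          rw [Finset.mul_sum, mul_comm 3, ← smul_eq_mul, ← Finset.sum_const, ← Finset.sum_add_distrib]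
          apply Finset.sum_congr rfl
          intro i _
          ring
        have h4 : 1 ≤ (t.filter (fun i => μ i = m)).card := Finset.card_pos.mpr ⟨i0, hi0⟩
        omega
    _ = ∑ i ∈ t with μ i ∈ p.support, (2 * b i + 5) := by
        rw [← Finset.sum_fiberwise_of_maps_to (s := t.filter (fun i => μ i ∈ p.support)) (t := p.support)
          (g := μ) (fun i hi => (Finset.mem_filter.mp hi).2)]
        apply Finset.sum_congr rfl
        intro m hm
        rw [Finset.filter_filter]
        apply Finset.sum_congr _ (fun _ _ => rfl)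
        ext i
        simp only [Finset.mem_filter]
        constructor
        · rintro ⟨h1, h2⟩; exact ⟨h1, h2 ▸ hm, h2⟩
        · rintro ⟨h1, _, h2⟩; exact ⟨h1, h2⟩
    _ ≤ _ := Finset.sum_le_sum_of_subset (Finset.filter_subset _ _)

variable {n : ℕ}

theorem list_map_sum_eq {α M : Type*} [AddCommMonoid M] (L : List α) (f : α → M) :
    (L.map f).sum = ∑ i : Fin L.length, f (L.get i) := by
  conv_lhs => rw [← List.ofFn_get L, List.map_ofFn, List.sum_ofFn]
  rfl

theorem polySize_mult_le (L : List (Step ℚ n)) (B : ℕ) (h : ∀ st ∈ L, ht st.c ≤ 2 ^ B) (j : Fin n) :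
    polySize (mult L j) ≤ (L.filter (fun st => st.j = j)).length * (2 * B + 5) := by
  unfold mult
  rw [list_map_sum_eq]
  refine (polySize_sum_monomial_le Finset.univ _ _ (fun _ => B) ?_).trans ?_
  · intro i _
    apply h
    exact List.mem_of_mem_filter (List.get_mem _ i)
  · simp

theorem sum_polySize_mult_le (L : List (Step ℚ n)) (B : ℕ) (h : ∀ st ∈ L, ht st.c ≤ 2 ^ B) :
    ∑ j, polySize (mult L j) ≤ L.length * (2 * B + 5) := by
  calc ∑ j, polySize (mult L j) ≤ ∑ j, (L.filter (fun st => st.j = j)).length * (2 * B + 5) :=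
        Finset.sum_le_sum (fun j _ => polySize_mult_le L B h j)
    _ = _ := by rw [← Finset.sum_mul, sum_length_filter]

/-- cleaned multiplier: drop dead monomials and repeated variables -/
noncomputable def clean {F : Type*} [Field F] (D : Finset (Fin n × Bool)) (p : MvPolynomial (Fin n × Bool) F) :
    MvPolynomial (Fin n × Bool) F :=
  ∑ m ∈ p.support.filter (fun m => Consistent (D ∪ m.support)), monomial (resid D m) (p.coeff m)

theorem card_support_clean_le {F : Type*} [Field F] (D : Finset (Fin n × Bool)) (p : MvPolynomial (Fin n × Bool) F) :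
    (clean D p).support.card ≤ p.support.card := by
  classical
  unfold clean
  calc _ ≤ ((p.support.filter (fun m => Consistent (D ∪ m.support))).biUnion
            (fun m => (monomial (resid D m) (p.coeff m) : MvPolynomial (Fin n × Bool) F).support)).card :=
            Finset.card_le_card support_sum
    _ ≤ ∑ m ∈ p.support.filter (fun m => Consistent (D ∪ m.support)),
            ((monomial (resid D m) (p.coeff m) : MvPolynomial (Fin n × Bool) F).support).card := Finset.card_biUnion_le
    _ ≤ ∑ m ∈ p.support.filter (fun m => Consistent (D ∪ m.support)), 1 := by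
            apply Finset.sum_le_sum
            intro m _
            calc _ ≤ ({resid D m} : Finset ((Fin n × Bool) →₀ ℕ)).card :=
                  Finset.card_le_card support_monomial_subset
              _ = 1 := Finset.card_singleton _
    _ ≤ p.support.card := by
            rw [Finset.sum_const, smul_eq_mul, mul_one]
            exact Finset.card_filter_le _ _

theorem polySize_clean_le (D : Finset (Fin n × Bool)) (p : MvPolynomial (Fin n × Bool) ℚ) :
    polySize (clean D p) ≤ 5 * polySize p := by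
  classical
  unfold clean
  refine (polySize_sum_monomial_le _ _ _ (fun m => bits (p.coeff m)) (fun m _ => ht_lt_bits _)).trans ?_
  unfold polySize
  rw [Finset.mul_sum]
  calc _ ≤ ∑ m ∈ p.support, (2 * bits (p.coeff m) + 5) := Finset.sum_le_sum_of_subset (Finset.filter_subset _ _)
    _ ≤ _ := by
      apply Finset.sum_le_sum
      intro m _
      omega

theorem coeff_clean_nonneg (D : Finset (Fin n × Bool)) (p : MvPolynomial (Fin n × Bool) ℚ)
    (hp : ∀ m, 0 ≤ p.coeff m) : ∀ m, 0 ≤ (clean D p).coeff m := by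
  classical
  intro m
  unfold clean
  rw [coeff_sum]
  apply Finset.sum_nonneg
  intro m' _
  rw [coeff_monomial]
  split_ifs
  · exact hp _
  · exact le_rfl

theorem clean_neg {F : Type*} [Field F] (D : Finset (Fin n × Bool)) (p : MvPolynomial (Fin n × Bool) F) :
    clean D (-p) = - clean D p := by
  unfold clean
  rw [support_neg, ← Finset.sum_neg_distrib]
  apply Finset.sum_congr rfl
  intro m _
  rw [coeff_neg, map_neg]

theorem clean_const {F : Type*} [Field F] (a : F) (ha : a ≠ 0) :
    clean (∅ : Finset (Fin n × Bool)) (C a) = C a := by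
  classical
  unfold clean
  have h1 : (C a : MvPolynomial (Fin n × Bool) F).support = {0} := by
    rw [support_C, if_neg ha]
  have h2 : ({0} : Finset ((Fin n × Bool) →₀ ℕ)).filter (fun m => Consistent (∅ ∪ m.support)) = {0} := by
    apply Finset.filter_true_of_mem
    intro m hm
    rw [Finset.mem_singleton] at hm
    subst hm
    intro j; simp
  rw [h1, h2, Finset.sum_singleton]
  have : resid (∅ : Finset (Fin n × Bool)) 0 = 0 := by simp [resid]
  rw [this]
  simp

/-- General statement: an identity on Boolean points becomes a formal one, up to cleaning. -/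
theorem assemblyB {F : Type*} [Field F] {β : Type*} [DecidableEq β] (t : Finset β)
    (D : β → Finset (Fin n × Bool)) (p : β → MvPolynomial (Fin n × Bool) F) (K : ℕ)
    (hK : ∑ b ∈ t, (p b).support.card ≤ K)
    (bk : Book F n K (Σ _ : β, (Fin n × Bool) →₀ ℕ)) (b : ℕ)
    (hc : ∀ u ∈ t, ∀ m ∈ (p u).support, bk.G b ((p u).coeff m))
    (h0 : ∀ x, ∑ u ∈ t, eval (bv F x) ((∏ v ∈ D u, X v) * p u) = 0) :
    ∃ L : List (Step F n),
      (L.map Step.val).sum = ∑ u ∈ t, (∏ v ∈ D u, X v) * clean (D u) (p u) ∧
      L.length ≤ K ^ (Nat.clog 2 n + 1) ∧ ∀ st ∈ L, bk.G (b + Nat.clog 2 n * bk.β) st.c := by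
  classical
  let s : Finset (Σ _ : β, (Fin n × Bool) →₀ ℕ) := t.sigma (fun u => (p u).support)
  have hs : s.card ≤ K := by
    simp only [s, Finset.card_sigma]
    exact hK
  obtain ⟨L, h1, h2, h3⟩ := assembly bk s hs (fun i => D i.1) (fun i => i.2) (fun i => (p i.1).coeff i.2) b
    (by
      intro i hi
      rw [Finset.mem_sigma] at hi
      exact hc _ hi.1 _ hi.2)
    (by
      intro x
      rw [Finset.sum_sigma, ← h0 x]
      apply Finset.sum_congr rfl
      intro u _
      rw [← map_sum]
      simp only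
      rw [← Finset.mul_sum]
      congr 2
      exact (as_sum (p u)).symm)
  refine ⟨L, ?_, h2.trans (Nat.pow_le_pow_left hs _), h3⟩
  rw [h1, Finset.sum_filter, Finset.sum_sigma]
  apply Finset.sum_congr rfl
  intro u _
  unfold clean
  rw [Finset.mul_sum, Finset.sum_filter]

theorem polySize_neg {σ : Type*} (p : MvPolynomial σ ℚ) : polySize (-p) = polySize p := by
  unfold polySize
  rw [support_neg]
  apply Finset.sum_congr rfl
  intro m _
  simp [bits]

theorem bits_le_polySize {σ : Type*} (p : MvPolynomial σ ℚ) (m : σ →₀ ℕ) (hm : m ∈ p.support) :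
    bits (p.coeff m) ≤ polySize p := by
  unfold polySize
  calc bits (p.coeff m) ≤ 1 + bits (p.coeff m) := by omega
    _ ≤ _ := Finset.single_le_sum (f := fun m => 1 + bits (p.coeff m)) (fun _ _ => Nat.zero_le _) hm

theorem card_le_polySize {σ : Type*} (p : MvPolynomial σ ℚ) : p.support.card ≤ polySize p := by
  unfold polySize
  rw [Finset.card_eq_sum_ones]
  apply Finset.sum_le_sum
  intro m _
  omega

/-- rational version with sizes -/
theorem assemblyQ {β : Type*} [DecidableEq β] (t : Finset β)
    (D : β → Finset (Fin n × Bool)) (p : β → MvPolynomial (Fin n × Bool) ℚ) (K b : ℕ)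
    (hK : ∑ u ∈ t, (p u).support.card ≤ K)
    (hb : ∀ u ∈ t, ∀ m ∈ (p u).support, bits ((p u).coeff m) ≤ b)
    (h0 : ∀ x, ∑ u ∈ t, eval (bv ℚ x) ((∏ v ∈ D u, X v) * p u) = 0) :
    ∃ s : Fin n → MvPolynomial (Fin n × Bool) ℚ,
      ∑ j, (X (j, true) + X (j, false) - 1) * s j = ∑ u ∈ t, (∏ v ∈ D u, X v) * clean (D u) (p u) ∧
      ∑ j, polySize (s j) ≤ K ^ (Nat.clog 2 n + 1) * (2 * (b + Nat.clog 2 n * (K * K + n * K)) + 5) := by
  classical
  obtain ⟨L, h1, h2, h3⟩ := assemblyB t D p K hK (ratBook n K _) b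
    (by
      intro u hu m hm
      show ht _ ≤ 2 ^ b
      exact (ht_lt_bits _).trans (Nat.pow_le_pow_right (by norm_num) (hb u hu m hm))) h0
  refine ⟨mult L, ?_, ?_⟩
  · rw [sum_mult, h1]
  · refine (sum_polySize_mult_le L (b + Nat.clog 2 n * (K * K + n * K)) h3).trans ?_
    exact Nat.mul_le_mul_right _ h2

end Pool.Agent.Helper80.NSR
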