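import Mathlib
import Pool.Agent.Helper80.NSRSize

namespace Pool.Agent.Helper80.NSR

open MvPolynomial

/-- positive part of a rational polynomial, coefficientwise -/
noncomputable def posPart {σ : Type*} (p : MvPolynomial σ ℚ) : MvPolynomial σ ℚ :=
  ∑ m ∈ p.support.filter (fun m => 0 < p.coeff m), monomial m (p.coeff m)

theorem coeff_posPart {σ : Type*} (p : MvPolynomial σ ℚ) (m : σ →₀ ℕ) :
    (posPart p).coeff m = max (p.coeff m) 0 := by
  classical
  unfold posPart
  rw [coeff_sum]
  simp only [coeff_monomial]
  rw [Finset.sum_ite_eq']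
  by_cases h : 0 < p.coeff m
  · rw [if_pos, max_eq_left h.le]
    rw [Finset.mem_filter, mem_support_iff]
    exact ⟨h.ne', h⟩
  · rw [if_neg, max_eq_right (not_lt.mp h)]
    rw [Finset.mem_filter]
    exact fun h' => h h'.2

theorem coeff_posPart_nonneg {σ : Type*} (p : MvPolynomial σ ℚ) (m : σ →₀ ℕ) : 0 ≤ (posPart p).coeff m := by
  rw [coeff_posPart]; exact le_max_right _ _

theorem posPart_sub {σ : Type*} (p : MvPolynomial σ ℚ) : posPart p - posPart (-p) = p := by
  ext m
  rw [coeff_sub, coeff_posPart, coeff_posPart, coeff_neg]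
  rcases le_total 0 (p.coeff m) with h | h
  · rw [max_eq_left h, max_eq_right (by linarith)]; ring
  · rw [max_eq_right h, max_eq_left (by linarith)]; ring

theorem polySize_posPart {σ : Type*} (p : MvPolynomial σ ℚ) :
    polySize (posPart p) = ∑ m ∈ p.support.filter (fun m => 0 < p.coeff m), (1 + bits (p.coeff m)) := by
  unfold polySize
  have h : (posPart p).support = p.support.filter (fun m => 0 < p.coeff m) := by
    ext m
    rw [mem_support_iff, coeff_posPart, Finset.mem_filter, mem_support_iff]
    constructor
    · intro h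
      have h1 : 0 < p.coeff m := by
        by_contra h2
        exact h (max_eq_right (not_lt.mp h2))
      exact ⟨h1.ne', h1⟩
    · rintro ⟨_, h⟩
      rw [max_eq_left h.le]
      exact h.ne'
  rw [h]
  apply Finset.sum_congr rfl
  intro m hm
  rw [Finset.mem_filter] at hm
  rw [coeff_posPart, max_eq_left hm.2.le]

theorem bits_neg (a : ℚ) : bits (-a) = bits a := by simp [bits]

theorem polySize_posPart_add {σ : Type*} (p : MvPolynomial σ ℚ) :
    polySize (posPart p) + polySize (posPart (-p)) ≤ polySize p := by
  classical
  rw [polySize_posPart, polySize_posPart]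
  unfold polySize
  rw [support_neg]
  simp only [coeff_neg, bits_neg]
  rw [← Finset.sum_union]
  · apply Finset.sum_le_sum_of_subset
    apply Finset.union_subset <;> exact Finset.filter_subset _ _
  · rw [Finset.disjoint_left]
    intro m h1 h2
    rw [Finset.mem_filter] at h1 h2
    linarith [h1.2, h2.2]

end Pool.Agent.Helper80.NSR
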