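import Mathlib

/-!
# A lemma on linear recurrences

If `S` is a polynomial with `S(0) = 1` and `x` is a bounded sequence with
`(∑ x_j X^j) * S = X * S'`, then the partial sums of `x` cannot grow linearly in the right half
plane.  (For `S = ∏ (1 - α_i X)` one has `x_j = - ∑ α_i^j`.)
-/

set_option autoImplicit false

namespace Pool.Agent.Helper80.NTodd

open Polynomial

/-- Coefficients of the product of a bounded series and a polynomial are bounded. -/
theorem bounded_coeff (x : ℕ → ℂ) (B : ℝ) (hB : ∀ j, ‖x j‖ ≤ B) (Q : ℂ[X]) :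
    ∃ C : ℝ, ∀ N, ‖PowerSeries.coeff N (PowerSeries.mk x * (Q : PowerSeries ℂ))‖ ≤ C := by
  classical
  have hB0 : 0 ≤ B := (norm_nonneg _).trans (hB 0)
  refine ⟨B * ∑ i ∈ Q.support, ‖Q.coeff i‖, fun N => ?_⟩
  rw [PowerSeries.coeff_mul, Finset.Nat.sum_antidiagonal_eq_sum_range_succ_mk]
  have h1 : ∑ k ∈ Finset.range N.succ, ‖Q.coeff (N - k)‖
      = ∑ i ∈ Finset.range N.succ, ‖Q.coeff i‖ :=
    Finset.sum_flip (fun i => ‖Q.coeff i‖)
  have h2 : ∑ i ∈ Finset.range N.succ, ‖Q.coeff i‖
      = ∑ i ∈ (Finset.range N.succ).filter (fun i => i ∈ Q.support), ‖Q.coeff i‖ := by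
    rw [Finset.sum_filter_of_ne]
    intro i _ hi
    rw [Polynomial.mem_support_iff]
    intro h0
    exact hi (by rw [h0, norm_zero])
  have h3 : ∑ k ∈ Finset.range N.succ, ‖Q.coeff (N - k)‖ ≤ ∑ i ∈ Q.support, ‖Q.coeff i‖ := by
    rw [h1, h2]
    refine Finset.sum_le_sum_of_subset_of_nonneg ?_ (fun _ _ _ => norm_nonneg _)
    intro i hi
    exact (Finset.mem_filter.mp hi).2
  refine (norm_sum_le _ _).trans (le_trans ?_ (mul_le_mul_of_nonneg_left h3 hB0))
  rw [Finset.mul_sum]
  refine Finset.sum_le_sum fun k _ => ?_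
  rw [norm_mul, PowerSeries.coeff_mk, Polynomial.coeff_coe]
  exact mul_le_mul_of_nonneg_right (hB _) (norm_nonneg _)

theorem coeff_mk_mul_mk_one (x : ℕ → ℂ) (N : ℕ) :
    PowerSeries.coeff N (PowerSeries.mk x * PowerSeries.mk (fun _ => (1 : ℂ)))
      = ∑ j ∈ Finset.range (N + 1), x j := by
  rw [PowerSeries.coeff_mul, Finset.Nat.sum_antidiagonal_eq_sum_range_succ_mk]
  simp [PowerSeries.coeff_mk]

theorem mk_one_mul : PowerSeries.mk (fun _ => (1 : ℂ)) * (1 - PowerSeries.X) = 1 :=
  PowerSeries.mk_one_mul_one_sub_eq_one ℂ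

/-- The key lemma on recurrences. -/
theorem key (n : ℕ) : ∀ (S : ℂ[X]), S.natDegree ≤ n → S.coeff 0 = 1 → ∀ (x : ℕ → ℂ) (B : ℝ),
    (∀ j, ‖x j‖ ≤ B) →
    PowerSeries.mk x * (S : PowerSeries ℂ) = PowerSeries.X * (derivative S : PowerSeries ℂ) →
    ∀ (δ K : ℝ), 0 < δ → (∀ N : ℕ, δ * N - K ≤ (∑ j ∈ Finset.range (N + 1), x j).re) → False := by
  induction n with
  | zero =>
    intro S hdeg h0 x B hB hid δ K hδ hN
    have hS : S = 1 := by
      rw [Polynomial.eq_C_of_natDegree_le_zero hdeg, h0, Polynomial.C_1]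
    subst hS
    rw [Polynomial.coe_one, mul_one, Polynomial.derivative_one, Polynomial.coe_zero, mul_zero]
      at hid
    have hx : ∀ j, x j = 0 := by
      intro j
      have := congrArg (PowerSeries.coeff j) hid
      simpa using this
    obtain ⟨N, hN'⟩ := exists_nat_gt (K / δ)
    have h1 := hN N
    rw [Finset.sum_eq_zero (fun j _ => hx j), Complex.zero_re] at h1
    rw [div_lt_iff₀ hδ] at hN'
    linarith [mul_comm (N : ℝ) δ]
  | succ n ih =>
    intro S hdeg h0 x B hB hid δ K hδ hN
    have hE1 : PowerSeries.mk (fun _ => (1 : ℂ)) * (1 - PowerSeries.X) = 1 := mk_one_mul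
    by_cases h1 : S.eval 1 = 0
    · -- `S = (1 - X) * Q`
      have hdvd : (X - C 1 : ℂ[X]) ∣ S := Polynomial.dvd_iff_isRoot.mpr h1
      obtain ⟨Q', hQ'⟩ := hdvd
      obtain ⟨Q, hQ⟩ : ∃ Q : ℂ[X], S = (1 - X) * Q := ⟨-Q', by rw [hQ', C_1]; ring⟩
      have hS0 : S ≠ 0 := by
        intro h; rw [h, coeff_zero] at h0; exact zero_ne_one h0
      have hQ0 : Q ≠ 0 := by
        intro h; rw [h, mul_zero] at hQ; exact hS0 hQ
      have hQc : Q.coeff 0 = 1 := by
        have := congrArg (fun p : ℂ[X] => p.coeff 0) hQ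
        simp only [Polynomial.mul_coeff_zero] at this
        rw [h0] at this
        simpa using this.symm
      have hQd : Q.natDegree ≤ n := by
        have hne : (1 - X : ℂ[X]) ≠ 0 := by
          intro h; rw [h, zero_mul] at hQ; exact hS0 hQ
        have h2 : S.natDegree = (1 - X : ℂ[X]).natDegree + Q.natDegree := by
          rw [hQ, Polynomial.natDegree_mul hne hQ0]
        have h3 : (1 - X : ℂ[X]).natDegree = 1 := by
          have : (1 - X : ℂ[X]) = -(X - C 1) := by rw [C_1]; ring
          rw [this, Polynomial.natDegree_neg, Polynomial.natDegree_X_sub_C]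
        omega
      refine ih Q hQd hQc (fun j => if j = 0 then 0 else x j + 1) (B + 1) ?_ ?_ (δ + 1) (K + ‖x 0‖)
        (by linarith) ?_
      · intro j
        by_cases hj : j = 0
        · simp only [hj, if_true, norm_zero]
          have := (norm_nonneg _).trans (hB 0)
          linarith
        · simp only [hj, if_false]
          calc ‖x j + 1‖ ≤ ‖x j‖ + ‖(1 : ℂ)‖ := norm_add_le _ _
            _ ≤ B + 1 := by rw [norm_one]; linarith [hB j]
      · -- the identity
        have hx0 : x 0 = 0 := by
          have := congrArg (PowerSeries.coeff 0) hid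
          rw [PowerSeries.coeff_zero_eq_constantCoeff_apply,
            PowerSeries.coeff_zero_eq_constantCoeff_apply, map_mul, map_mul] at this
          simp only [PowerSeries.constantCoeff_X, zero_mul] at this
          rw [← PowerSeries.coeff_zero_eq_constantCoeff_apply,
            ← PowerSeries.coeff_zero_eq_constantCoeff_apply, PowerSeries.coeff_mk,
            Polynomial.coeff_coe, h0, mul_one] at this
          exact this
        have hmk : PowerSeries.mk (fun j => if j = 0 then 0 else x j + 1)
            = PowerSeries.mk x + PowerSeries.X * PowerSeries.mk (fun _ => (1 : ℂ)) := by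
          ext j
          rw [PowerSeries.coeff_mk, map_add, PowerSeries.coeff_mk]
          rcases j with _ | j
          · simp [hx0]
          · rw [PowerSeries.coeff_succ_X_mul, PowerSeries.coeff_mk]
            simp
        rw [hmk]
        have hSc : (S : PowerSeries ℂ) = (1 - PowerSeries.X) * (Q : PowerSeries ℂ) := by
          rw [hQ, Polynomial.coe_mul, Polynomial.coe_sub, Polynomial.coe_one, Polynomial.coe_X]
        have hder : (derivative S : PowerSeries ℂ)
            = -(Q : PowerSeries ℂ) + (1 - PowerSeries.X) * (derivative Q : PowerSeries ℂ) := by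
          rw [hQ, Polynomial.derivative_mul, Polynomial.derivative_sub, Polynomial.derivative_one,
            Polynomial.derivative_X, Polynomial.coe_add, Polynomial.coe_mul, Polynomial.coe_mul,
            Polynomial.coe_sub, Polynomial.coe_sub, Polynomial.coe_one, Polynomial.coe_zero,
            Polynomial.coe_X]
          ring
        rw [hSc, hder] at hid
        -- multiply by `mk 1`
        have h5 := congrArg (fun p => PowerSeries.mk (fun _ => (1 : ℂ)) * p) hid
        have h6 : PowerSeries.mk (fun _ => (1 : ℂ)) *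
            (PowerSeries.mk x * ((1 - PowerSeries.X) * (Q : PowerSeries ℂ)))
            = PowerSeries.mk x * (Q : PowerSeries ℂ) := by
          calc _ = (PowerSeries.mk (fun _ => (1 : ℂ)) * (1 - PowerSeries.X)) *
                (PowerSeries.mk x * (Q : PowerSeries ℂ)) := by ring
            _ = _ := by rw [hE1, one_mul]
        have h7 : PowerSeries.mk (fun _ => (1 : ℂ)) * (PowerSeries.X *
            (-(Q : PowerSeries ℂ) + (1 - PowerSeries.X) * (derivative Q : PowerSeries ℂ)))
            = PowerSeries.X * (derivative Q : PowerSeries ℂ)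
              - PowerSeries.X * PowerSeries.mk (fun _ => (1 : ℂ)) * (Q : PowerSeries ℂ) := by
          calc _ = (PowerSeries.mk (fun _ => (1 : ℂ)) * (1 - PowerSeries.X)) *
                (PowerSeries.X * (derivative Q : PowerSeries ℂ))
                - PowerSeries.X * PowerSeries.mk (fun _ => (1 : ℂ)) * (Q : PowerSeries ℂ) := by ring
            _ = _ := by rw [hE1, one_mul]
        have h5' := h6.symm.trans (h5.trans h7)
        rw [add_mul, h5']
        ring
      · intro N
        have h8 : ∑ j ∈ Finset.range (N + 1), (if j = 0 then 0 else x j + 1)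
            = (∑ j ∈ Finset.range (N + 1), x j) + N - x 0 := by
          rw [Finset.sum_range_succ', Finset.sum_range_succ' (fun j => x j)]
          simp only [Nat.succ_ne_zero, if_false, if_true, Finset.sum_add_distrib,
            Finset.sum_const, Finset.card_range, nsmul_eq_mul, mul_one]
          ring
        rw [h8, Complex.sub_re, Complex.add_re, Complex.natCast_re]
        have h9 := hN N
        have h10 : (x 0).re ≤ ‖x 0‖ := Complex.re_le_norm _
        have : (δ + 1) * (N : ℝ) = δ * N + N := by ring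
        rw [this]
        linarith
    · -- `S = S(1) + (1 - X) Q`
      have hdvd : (X - C 1 : ℂ[X]) ∣ S - C (S.eval 1) := by
        rw [Polynomial.dvd_iff_isRoot]
        simp
      obtain ⟨Q', hQ'⟩ := hdvd
      obtain ⟨Q, hQ⟩ : ∃ Q : ℂ[X], S = C (S.eval 1) + (1 - X) * Q :=
        ⟨-Q', by
          have h := eq_add_of_sub_eq' hQ'
          rw [C_1] at h
          linear_combination h⟩
      have hSc : (S : PowerSeries ℂ)
          = PowerSeries.C (S.eval 1) + (1 - PowerSeries.X) * (Q : PowerSeries ℂ) := by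
        conv_lhs => rw [hQ]
        rw [Polynomial.coe_add, Polynomial.coe_mul, Polynomial.coe_sub, Polynomial.coe_one,
          Polynomial.coe_X, Polynomial.coe_C]
      rw [hSc] at hid
      have h5 : PowerSeries.C (S.eval 1) * (PowerSeries.mk x * PowerSeries.mk (fun _ => (1 : ℂ)))
          = PowerSeries.mk (fun _ => (1 : ℂ)) * ((X * derivative S : ℂ[X]) : PowerSeries ℂ)
            - PowerSeries.mk x * (Q : PowerSeries ℂ) := by
        rw [Polynomial.coe_mul, Polynomial.coe_X, ← hid]
        calc _ = PowerSeries.mk (fun _ => (1 : ℂ)) * (PowerSeries.mk x *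
              (PowerSeries.C (S.eval 1) + (1 - PowerSeries.X) * (Q : PowerSeries ℂ)))
              - (PowerSeries.mk (fun _ => (1 : ℂ)) * (1 - PowerSeries.X)) *
                (PowerSeries.mk x * (Q : PowerSeries ℂ)) := by ring
          _ = _ := by rw [hE1, one_mul]
      obtain ⟨C1, hC1⟩ := bounded_coeff (fun _ => (1 : ℂ)) 1 (fun _ => by simp)
        (X * derivative S)
      obtain ⟨C2, hC2⟩ := bounded_coeff x B hB Q
      have h6 : ∀ N : ℕ, ‖S.eval 1‖ * (∑ j ∈ Finset.range (N + 1), x j).re ≤ C1 + C2 := by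
        intro N
        have h7 := congrArg (PowerSeries.coeff N) h5
        rw [PowerSeries.coeff_C_mul, coeff_mk_mul_mk_one, map_sub] at h7
        calc ‖S.eval 1‖ * (∑ j ∈ Finset.range (N + 1), x j).re
            ≤ ‖S.eval 1‖ * ‖∑ j ∈ Finset.range (N + 1), x j‖ :=
              mul_le_mul_of_nonneg_left (Complex.re_le_norm _) (norm_nonneg _)
          _ = ‖S.eval 1 * ∑ j ∈ Finset.range (N + 1), x j‖ := (norm_mul _ _).symm
          _ ≤ C1 + C2 := by
              rw [h7]
              exact (norm_sub_le _ _).trans (add_le_add (hC1 N) (hC2 N))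
      have hpos : 0 < ‖S.eval 1‖ := norm_pos_iff.mpr h1
      obtain ⟨N, hN'⟩ := exists_nat_gt (((C1 + C2) / ‖S.eval 1‖ + K) / δ)
      have h8 := hN N
      have h9 := h6 N
      rw [div_lt_iff₀ hδ] at hN'
      have h10 : (∑ j ∈ Finset.range (N + 1), x j).re ≤ (C1 + C2) / ‖S.eval 1‖ := by
        rw [le_div_iff₀ hpos, mul_comm]; exact h9
      linarith [mul_comm (N : ℝ) δ]

end Pool.Agent.Helper80.NTodd
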