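import Mathlib

/-!
# Sums over polynomials over the field with two elements
-/

set_option autoImplicit false

namespace Pool.Agent.Helper80.NTodd

open Polynomial
open scoped Classical

/-- polynomials over the field with two elements -/
abbrev F2X : Type := (ZMod 2)[X]

theorem monic_of_ne_zero {D : F2X} (h : D ≠ 0) : D.Monic := by
  have h1 : D.leadingCoeff ≠ 0 := Polynomial.leadingCoeff_ne_zero.mpr h
  have h2 : ∀ a : ZMod 2, a ≠ 0 → a = 1 := by decide
  exact h2 _ h1

theorem finite_degreeLT (d : ℕ) : ((degreeLT (ZMod 2) d : Set F2X)).Finite := by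
  have : Finite (degreeLT (ZMod 2) d) :=
    Finite.of_equiv (Fin d → ZMod 2) (degreeLTEquiv (ZMod 2) d).symm.toEquiv
  exact Set.toFinite _

/-- the polynomials of degree less than `d` -/
noncomputable def polys (d : ℕ) : Finset F2X := (finite_degreeLT d).toFinset

theorem mem_polys {d : ℕ} {D : F2X} : D ∈ polys d ↔ D.degree < d := by
  rw [polys, Set.Finite.mem_toFinset, SetLike.mem_coe, Polynomial.mem_degreeLT]

/-- the polynomials of degree exactly `d` -/
noncomputable def monics (d : ℕ) : Finset F2X :=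
  (polys (d + 1)).filter (fun D => D ≠ 0 ∧ D.natDegree = d)

theorem mem_monics {d : ℕ} {D : F2X} : D ∈ monics d ↔ D ≠ 0 ∧ D.natDegree = d := by
  rw [monics, Finset.mem_filter, mem_polys]
  constructor
  · exact fun h => h.2
  · intro h
    refine ⟨?_, h⟩
    rw [Polynomial.degree_eq_natDegree h.1, h.2]
    exact_mod_cast Nat.lt_succ_self d

/-- the irreducible polynomials of degree at most `d` -/
noncomputable def irrs (d : ℕ) : Finset F2X := (polys (d + 1)).filter (fun P => Irreducible P)

theorem mem_irrs {d : ℕ} {P : F2X} : P ∈ irrs d ↔ Irreducible P ∧ P.natDegree ≤ d := by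
  rw [irrs, Finset.mem_filter, mem_polys]
  constructor
  · intro h
    refine ⟨h.2, ?_⟩
    have h0 := h.2.ne_zero
    rw [Polynomial.degree_eq_natDegree h0] at h
    have := h.1
    have h1 : P.natDegree < d + 1 := by exact_mod_cast this
    omega
  · intro h
    refine ⟨?_, h.1⟩
    rw [Polynomial.degree_eq_natDegree h.1.ne_zero]
    have : P.natDegree < d + 1 := by omega
    exact_mod_cast this

theorem irr_pos {P : F2X} (h : Irreducible P) : 1 ≤ P.natDegree := h.natDegree_pos

/-- the pairs `(P, i)` with `P` irreducible, `i ≥ 1` and `i * deg P = j` -/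
noncomputable def pairs (j : ℕ) : Finset (F2X × ℕ) :=
  (irrs j ×ˢ Finset.Icc 1 j).filter (fun p => p.2 * p.1.natDegree = j)

theorem mem_pairs {j : ℕ} {p : F2X × ℕ} :
    p ∈ pairs j ↔ Irreducible p.1 ∧ 1 ≤ p.2 ∧ p.2 * p.1.natDegree = j := by
  rw [pairs, Finset.mem_filter, Finset.mem_product, mem_irrs, Finset.mem_Icc]
  constructor
  · rintro ⟨⟨⟨h1, _⟩, h2, _⟩, h3⟩
    exact ⟨h1, h2, h3⟩
  · rintro ⟨h1, h2, h3⟩
    have h4 := irr_pos h1
    refine ⟨⟨⟨h1, ?_⟩, h2, ?_⟩, h3⟩
    · rw [← h3]; exact Nat.le_mul_of_pos_left _ h2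
    · rw [← h3]; exact Nat.le_mul_of_pos_right _ h4

/-- the number of `i ≥ 1` with `P ^ i ∣ D` is the multiplicity -/
theorem card_pow_dvd {D P : F2X} (hD : D ≠ 0) (hP : Irreducible P) :
    ((Finset.Icc 1 D.natDegree).filter (fun i => P ^ i ∣ D)).card
      = Multiset.count P (UniqueFactorizationMonoid.normalizedFactors D) := by
  have hn : normalize P = P := (monic_of_ne_zero hP.ne_zero).normalize_eq_self
  have hmul := UniqueFactorizationMonoid.emultiplicity_eq_count_normalizedFactors hP hD
  rw [hn] at hmul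
  set c := Multiset.count P (UniqueFactorizationMonoid.normalizedFactors D) with hc
  have hiff : ∀ i : ℕ, P ^ i ∣ D ↔ i ≤ c := by
    intro i
    rw [pow_dvd_iff_le_emultiplicity, hmul]
    exact_mod_cast Iff.rfl
  have hcd : c ≤ D.natDegree := by
    have h1 : P ^ c ∣ D := (hiff c).mpr le_rfl
    have h2 := Polynomial.natDegree_le_of_dvd h1 hD
    rw [Polynomial.natDegree_pow] at h2
    have h3 := irr_pos hP
    calc c = c * 1 := (mul_one c).symm
      _ ≤ c * P.natDegree := Nat.mul_le_mul_left _ h3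
      _ ≤ D.natDegree := h2
  have : (Finset.Icc 1 D.natDegree).filter (fun i => P ^ i ∣ D) = Finset.Icc 1 c := by
    ext i
    rw [Finset.mem_filter, Finset.mem_Icc, Finset.mem_Icc, hiff]
    omega
  rw [this, Nat.card_Icc]
  omega

/-- the degree of a polynomial is the sum of `deg P` over the prime powers dividing it -/
theorem sum_pow_dvd {D : F2X} (hD : D ≠ 0) :
    ∑ P ∈ irrs D.natDegree, ∑ i ∈ Finset.Icc 1 D.natDegree,
      (if P ^ i ∣ D then P.natDegree else 0) = D.natDegree := by
  have h1 : ∀ P ∈ irrs D.natDegree, ∑ i ∈ Finset.Icc 1 D.natDegree,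
      (if P ^ i ∣ D then P.natDegree else 0)
      = Multiset.count P (UniqueFactorizationMonoid.normalizedFactors D) * P.natDegree := by
    intro P hP
    rw [← Finset.sum_filter, Finset.sum_const, smul_eq_mul, card_pow_dvd hD (mem_irrs.mp hP).1]
  rw [Finset.sum_congr rfl h1]
  have h2 : (UniqueFactorizationMonoid.normalizedFactors D).prod.natDegree = D.natDegree := by
    have := UniqueFactorizationMonoid.prod_normalizedFactors hD
    exact Polynomial.natDegree_eq_of_degree_eq (Polynomial.degree_eq_degree_of_associated this)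
  have h3 : (UniqueFactorizationMonoid.normalizedFactors D).prod.natDegree
      = ((UniqueFactorizationMonoid.normalizedFactors D).map Polynomial.natDegree).sum := by
    apply Polynomial.natDegree_multiset_prod
    intro h0
    have := UniqueFactorizationMonoid.irreducible_of_normalized_factor _ h0
    exact this.ne_zero rfl
  have h4 := Finset.sum_multiset_map_count
    (UniqueFactorizationMonoid.normalizedFactors D) (Polynomial.natDegree)
  have h5 : ∑ m ∈ (UniqueFactorizationMonoid.normalizedFactors D).toFinset,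
      Multiset.count m (UniqueFactorizationMonoid.normalizedFactors D) * m.natDegree
      = D.natDegree := by
    have h6 := h2.symm.trans (h3.trans h4)
    simp only [smul_eq_mul] at h6
    exact h6.symm
  refine Eq.trans (Eq.symm (Finset.sum_subset ?_ ?_)) h5
  · intro P hP
    rw [Multiset.mem_toFinset] at hP
    rw [mem_irrs]
    have hirr := UniqueFactorizationMonoid.irreducible_of_normalized_factor _ hP
    exact ⟨hirr, Polynomial.natDegree_le_of_dvd
      (UniqueFactorizationMonoid.dvd_of_mem_normalizedFactors hP) hD⟩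
  · intro P _ hP
    rw [Multiset.mem_toFinset] at hP
    rw [Multiset.count_eq_zero_of_notMem hP, zero_mul]

/-- the sum of the degrees of the irreducible divisors of a squarefree polynomial -/
theorem sum_dvd_squarefree {A : F2X} (hA : A ≠ 0) (hsq : Squarefree A) (N : ℕ)
    (hN : A.natDegree ≤ N) :
    ∑ P ∈ (irrs N).filter (fun P => P ∣ A), P.natDegree = A.natDegree := by
  have h := sum_pow_dvd hA
  rw [← h]
  have h1 : ∀ P ∈ irrs A.natDegree, ∑ i ∈ Finset.Icc 1 A.natDegree,
      (if P ^ i ∣ A then P.natDegree else 0) = if P ∣ A then P.natDegree else 0 := by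
    intro P hP
    obtain ⟨hirr, hdeg⟩ := mem_irrs.mp hP
    have hpos := irr_pos hirr
    rw [Finset.sum_eq_single 1]
    · rw [pow_one]
    · intro i hi hi1
      rw [if_neg]
      intro hdvd
      have h2 : 2 ≤ i := by
        have := (Finset.mem_Icc.mp hi).1
        omega
      have h3 : P * P ∣ A := by
        rw [← pow_two]
        exact (pow_dvd_pow P h2).trans hdvd
      exact hirr.not_isUnit (hsq P h3)
    · intro hi
      exfalso
      apply hi
      rw [Finset.mem_Icc]
      omega
  rw [Finset.sum_congr rfl h1, ← Finset.sum_filter]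
  refine (Finset.sum_subset ?_ ?_).symm
  · intro P hP
    rw [Finset.mem_filter, mem_irrs] at hP ⊢
    exact ⟨⟨hP.1.1, hP.1.2.trans hN⟩, hP.2⟩
  · intro P hP hP'
    exfalso
    apply hP'
    rw [Finset.mem_filter, mem_irrs] at hP ⊢
    exact ⟨⟨hP.1.1, Polynomial.natDegree_le_of_dvd hP.2 hA⟩, hP.2⟩

/-- the value at `j` of the logarithmic derivative: sum of `deg P * a(P)^i` over `i deg P = j` -/
noncomputable def cc (a : F2X →* ℂ) (j : ℕ) : ℂ := ∑ p ∈ pairs j, (p.1.natDegree : ℂ) * a p.1 ^ p.2

/-- the sum of `a` over the polynomials of degree `d` -/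
noncomputable def SS (a : F2X →* ℂ) (d : ℕ) : ℂ := ∑ D ∈ monics d, a D

theorem sum_multiples (a : F2X →* ℂ) (A : F2X) (hA : A ≠ 0) (d : ℕ) :
    ∑ D ∈ (monics d).filter (fun D => A ∣ D), a D
      = if A.natDegree ≤ d then a A * SS a (d - A.natDegree) else 0 := by
  by_cases h : A.natDegree ≤ d
  · rw [if_pos h, SS, Finset.mul_sum]
    symm
    refine Finset.sum_bij (fun D _ => A * D) ?_ ?_ ?_ ?_
    · intro D hD
      rw [mem_monics] at hD
      rw [Finset.mem_filter, mem_monics]
      refine ⟨⟨mul_ne_zero hA hD.1, ?_⟩, dvd_mul_right _ _⟩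
      rw [Polynomial.natDegree_mul hA hD.1, hD.2]
      omega
    · intro D _ D' _ hDD
      exact mul_left_cancel₀ hA hDD
    · intro D hD
      rw [Finset.mem_filter, mem_monics] at hD
      obtain ⟨⟨h0, hd⟩, E, hE⟩ := hD
      have hE0 : E ≠ 0 := by
        rintro rfl
        rw [mul_zero] at hE
        exact h0 hE
      refine ⟨E, ?_, hE.symm⟩
      rw [mem_monics]
      refine ⟨hE0, ?_⟩
      rw [hE, Polynomial.natDegree_mul hA hE0] at hd
      omega
    · intro D _
      rw [map_mul]
  · rw [if_neg h]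
    apply Finset.sum_eq_zero
    intro D hD
    exfalso
    rw [Finset.mem_filter, mem_monics] at hD
    obtain ⟨⟨h0, hd⟩, hdvd⟩ := hD
    have := Polynomial.natDegree_le_of_dvd hdvd h0
    omega

/-- the recurrence -/
theorem recurrence (a : F2X →* ℂ) (d : ℕ) :
    ∑ j ∈ Finset.range (d + 1), cc a j * SS a (d - j) = d * SS a d := by
  -- right-hand side
  have h1 : (d : ℂ) * SS a d = ∑ p ∈ irrs d ×ˢ Finset.Icc 1 d,
      ∑ D ∈ (monics d).filter (fun D => p.1 ^ p.2 ∣ D), (p.1.natDegree : ℂ) * a D := by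
    have h2 : ∀ D ∈ monics d, (d : ℂ) * a D
        = ∑ p ∈ irrs d ×ˢ Finset.Icc 1 d,
          if p.1 ^ p.2 ∣ D then (p.1.natDegree : ℂ) * a D else 0 := by
      intro D hD
      obtain ⟨h0, hd⟩ := mem_monics.mp hD
      have h3 := sum_pow_dvd h0
      rw [hd] at h3
      have h4 : (d : ℂ) = ∑ p ∈ irrs d ×ˢ Finset.Icc 1 d,
          if p.1 ^ p.2 ∣ D then (p.1.natDegree : ℂ) else 0 := by
        rw [Finset.sum_product]
        have h5 := congrArg (fun k : ℕ => (k : ℂ)) h3
        rw [← h5]
        push_cast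
        rfl
      conv_lhs => rw [h4]
      rw [Finset.sum_mul]
      refine Finset.sum_congr rfl fun p _ => ?_
      split_ifs
      · rfl
      · rw [zero_mul]
    rw [SS, Finset.mul_sum, Finset.sum_congr rfl h2, Finset.sum_comm]
    refine Finset.sum_congr rfl fun p _ => ?_
    rw [Finset.sum_filter]
  have h3 : ∀ p ∈ irrs d ×ˢ Finset.Icc 1 d,
      ∑ D ∈ (monics d).filter (fun D => p.1 ^ p.2 ∣ D), (p.1.natDegree : ℂ) * a D
      = if p.2 * p.1.natDegree ≤ d then
          (p.1.natDegree : ℂ) * a p.1 ^ p.2 * SS a (d - p.2 * p.1.natDegree) else 0 := by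
    intro p hp
    rw [Finset.mem_product, mem_irrs] at hp
    have hne : p.1 ^ p.2 ≠ 0 := pow_ne_zero _ hp.1.1.ne_zero
    rw [← Finset.mul_sum, sum_multiples a _ hne, Polynomial.natDegree_pow, map_pow]
    split_ifs
    · ring
    · rw [mul_zero]
  rw [h1, Finset.sum_congr rfl h3, ← Finset.sum_filter]
  -- fibres
  have h4 : ∀ p ∈ (irrs d ×ˢ Finset.Icc 1 d).filter (fun p => p.2 * p.1.natDegree ≤ d),
      p.2 * p.1.natDegree ∈ Finset.range (d + 1) := by
    intro p hp
    rw [Finset.mem_filter] at hp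
    rw [Finset.mem_range]
    omega
  rw [← Finset.sum_fiberwise_of_maps_to h4]
  refine Finset.sum_congr rfl fun j hj => ?_
  rw [cc, Finset.sum_mul]
  have h5 : ((irrs d ×ˢ Finset.Icc 1 d).filter (fun p => p.2 * p.1.natDegree ≤ d)).filter
      (fun p => p.2 * p.1.natDegree = j) = pairs j := by
    ext p
    rw [Finset.mem_filter, Finset.mem_filter, Finset.mem_product, mem_irrs, Finset.mem_Icc,
      mem_pairs]
    rw [Finset.mem_range] at hj
    constructor
    · rintro ⟨⟨⟨⟨h6, _⟩, h7, _⟩, _⟩, h8⟩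
      exact ⟨h6, h7, h8⟩
    · rintro ⟨h6, h7, h8⟩
      have h9 := irr_pos h6
      have h10 : p.1.natDegree ≤ p.2 * p.1.natDegree := Nat.le_mul_of_pos_left _ h7
      have h11 : p.2 ≤ p.2 * p.1.natDegree := Nat.le_mul_of_pos_right _ h9
      refine ⟨⟨⟨⟨h6, ?_⟩, h7, ?_⟩, ?_⟩, h8⟩ <;> omega
  rw [h5]
  refine Finset.sum_congr rfl fun p hp => ?_
  rw [(mem_pairs.mp hp).2.2]

end Pool.Agent.Helper80.NTodd
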