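import Pool.Agent.Helper80.NToddB

/-!
# Irreducible polynomials of degree dividing `j`
-/

set_option autoImplicit false

namespace Pool.Agent.Helper80.NTodd

open Polynomial
open scoped Classical

theorem irr_dvd_iff {P : F2X} (hP : Irreducible P) (j : ℕ) :
    P.natDegree ∣ j ↔ P ∣ X ^ 2 ^ j - X := by
  have h := hP.natDegree_dvd_iff_dvd_X_pow_card_pow_sub_X (n := j)
  rwa [Nat.card_zmod] at h

theorem two_le_two_pow {j : ℕ} (hj : 1 ≤ j) : 2 ≤ 2 ^ j := by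
  calc 2 = 2 ^ 1 := rfl
    _ ≤ 2 ^ j := Nat.pow_le_pow_right (by norm_num) hj

theorem natDegree_big {j : ℕ} (hj : 1 ≤ j) : (X ^ 2 ^ j - X : F2X).natDegree = 2 ^ j :=
  FiniteField.X_pow_card_pow_sub_X_natDegree_eq (ZMod 2) (by omega) (by norm_num)

theorem big_ne_zero {j : ℕ} (hj : 1 ≤ j) : (X ^ 2 ^ j - X : F2X) ≠ 0 :=
  FiniteField.X_pow_card_pow_sub_X_ne_zero (ZMod 2) (by omega) (by norm_num)

theorem big_squarefree {j : ℕ} (hj : 1 ≤ j) : Squarefree (X ^ 2 ^ j - X : F2X) :=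
  (galois_poly_separable 2 (2 ^ j) (dvd_pow_self 2 (by omega))).squarefree

/-- sums over the pairs `(P, i)` with `i deg P = j` and `P ∣ A`, for `A ∣ X^(2^j) - X` -/
theorem sum_pairs_dvd {j : ℕ} (hj : 1 ≤ j) {A : F2X} (hA : A ∣ X ^ 2 ^ j - X) :
    ∑ p ∈ (pairs j).filter (fun p => p.1 ∣ A), p.1.natDegree = A.natDegree := by
  have hA0 : A ≠ 0 := ne_zero_of_dvd_ne_zero (big_ne_zero hj) hA
  have hsq : Squarefree A := (big_squarefree hj).squarefree_of_dvd hA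
  rw [← sum_dvd_squarefree hA0 hsq (A.natDegree) le_rfl]
  refine Finset.sum_bij (fun p _ => p.1) ?_ ?_ ?_ ?_
  · intro p hp
    rw [Finset.mem_filter, mem_pairs] at hp
    rw [Finset.mem_filter, mem_irrs]
    exact ⟨⟨hp.1.1, Polynomial.natDegree_le_of_dvd hp.2 hA0⟩, hp.2⟩
  · intro p hp q hq hpq
    rw [Finset.mem_filter, mem_pairs] at hp hq
    have h1 := irr_pos hp.1.1
    have h2 := hp.1.2.2
    have h3 := hq.1.2.2
    refine Prod.ext hpq ?_
    rw [← hpq, ← h2] at h3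
    exact (Nat.eq_of_mul_eq_mul_right h1 h3).symm
  · intro P hP
    rw [Finset.mem_filter, mem_irrs] at hP
    have h1 : P.natDegree ∣ j := (irr_dvd_iff hP.1.1 j).mpr (hP.2.trans hA)
    obtain ⟨i, hi⟩ := h1
    refine ⟨(P, i), ?_, rfl⟩
    rw [Finset.mem_filter, mem_pairs]
    refine ⟨⟨hP.1.1, ?_, by rw [hi, mul_comm]⟩, hP.2⟩
    rcases Nat.eq_zero_or_pos i with h0 | h0
    · rw [h0, mul_zero] at hi; omega
    · exact h0
  · intro p _
    rfl

theorem sum_pairs {j : ℕ} (hj : 1 ≤ j) : ∑ p ∈ pairs j, p.1.natDegree = 2 ^ j := by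
  have h := sum_pairs_dvd hj (dvd_refl (X ^ 2 ^ j - X : F2X))
  rw [natDegree_big hj] at h
  rw [← h]
  congr 1
  symm
  rw [Finset.filter_true_of_mem]
  intro p hp
  rw [mem_pairs] at hp
  rw [← irr_dvd_iff hp.1]
  exact ⟨p.2, by rw [← hp.2.2, mul_comm]⟩

/-- `D` divides some `X^K - 1` with `K` prime to `l` -/
def Good (l : ℕ) (D : F2X) : Prop := ∃ K : ℕ, 0 < K ∧ ¬ l ∣ K ∧ D ∣ X ^ K - 1

theorem Good.of_dvd {l : ℕ} {D D' : F2X} (h : Good l D) (hd : D' ∣ D) : Good l D' := by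
  obtain ⟨K, h1, h2, h3⟩ := h
  exact ⟨K, h1, h2, hd.trans h3⟩

theorem good_one {l : ℕ} (hl : l.Prime) : Good l 1 :=
  ⟨1, one_pos, fun h => hl.one_lt.ne' (Nat.dvd_one.mp h), one_dvd _⟩

theorem Good.mul {l : ℕ} (hl : l.Prime) (h2 : l ≠ 2) {D E : F2X} (hD : Good l D)
    (hE : Good l E) : Good l (D * E) := by
  obtain ⟨K, hK, hKl, hKD⟩ := hD
  obtain ⟨L, hL, hLl, hLE⟩ := hE
  refine ⟨2 * (K * L), by positivity, ?_, ?_⟩
  · intro h
    rcases (Nat.Prime.dvd_mul hl).mp h with h | h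
    · exact h2 ((Nat.prime_dvd_prime_iff_eq hl Nat.prime_two).mp h)
    · rcases (Nat.Prime.dvd_mul hl).mp h with h | h
      · exact hKl h
      · exact hLl h
  · have h3 : (X ^ K - 1 : F2X) ∣ X ^ (K * L) - 1 := by
      have := sub_dvd_pow_sub_pow (X ^ K : F2X) 1 L
      rwa [one_pow, ← pow_mul] at this
    have h4 : (X ^ L - 1 : F2X) ∣ X ^ (K * L) - 1 := by
      have := sub_dvd_pow_sub_pow (X ^ L : F2X) 1 K
      rwa [one_pow, ← pow_mul, mul_comm L K] at this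
    have h5 : (X ^ (2 * (K * L)) - 1 : F2X) = (X ^ (K * L) - 1) * (X ^ (K * L) - 1) := by
      have h6 : (2 : F2X) = 0 := by
        have : ((2 : ℕ) : F2X) = 0 := CharP.cast_eq_zero F2X 2
        exact_mod_cast this
      have h7 : (X ^ (2 * (K * L)) : F2X) = X ^ (K * L) * X ^ (K * L) := by
        rw [two_mul, pow_add]
      rw [h7]
      linear_combination (X ^ (K * L) - 1 : F2X) * h6
    rw [h5]
    exact mul_dvd_mul (hKD.trans h3) (hLE.trans h4)

/-- the good pairs have large total degree -/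
theorem good_pairs {l j K : ℕ} (hj : 1 ≤ j) (hK : K ∣ 2 ^ j - 1) (hl : ¬ l ∣ K) :
    K ≤ ∑ p ∈ (pairs j).filter (fun p => Good l p.1), p.1.natDegree := by
  have h2 := two_le_two_pow hj
  have hKpos : 0 < K := Nat.pos_of_dvd_of_pos hK (by omega)
  have hA : (X ^ K - 1 : F2X) ∣ X ^ 2 ^ j - X := by
    obtain ⟨L, hL⟩ := hK
    have h3 : (X ^ K - 1 : F2X) ∣ X ^ (2 ^ j - 1) - 1 := by
      have := sub_dvd_pow_sub_pow (X ^ K : F2X) 1 L
      rwa [one_pow, ← pow_mul, ← hL] at this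
    have h4 : (X ^ 2 ^ j - X : F2X) = X * (X ^ (2 ^ j - 1) - 1) := by
      rw [mul_sub, mul_one, ← pow_succ']
      congr 2
      omega
    rw [h4]
    exact h3.mul_left _
  have h := sum_pairs_dvd hj hA
  have hdeg : (X ^ K - 1 : F2X).natDegree = K := by
    have := Polynomial.natDegree_X_pow_sub_C (n := K) (r := (1 : ZMod 2))
    rwa [Polynomial.C_1] at this
  rw [hdeg] at h
  calc K = ∑ p ∈ (pairs j).filter (fun p => p.1 ∣ X ^ K - 1), p.1.natDegree := h.symm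
    _ ≤ _ := by
      refine Finset.sum_le_sum_of_subset ?_
      intro p hp
      rw [Finset.mem_filter] at hp ⊢
      exact ⟨hp.1, K, hKpos, hl, hp.2⟩

end Pool.Agent.Helper80.NTodd
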