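import Pool.Agent.Helper80.NToddA
import Pool.Agent.Helper80.NToddC

/-!
# A character trivial on good polynomials is trivial
-/

set_option autoImplicit false

namespace Pool.Agent.Helper80.NTodd

open Polynomial
open scoped Classical

section Char

variable (M : F2X)

/-- the multiplicative function of a character modulo `M` -/
noncomputable def aa (χ : MulChar (AdjoinRoot M) ℂ) : F2X →* ℂ :=
  χ.toMonoidHom.comp (AdjoinRoot.mk M : F2X →* AdjoinRoot M)

theorem aa_apply (χ : MulChar (AdjoinRoot M) ℂ) (D : F2X) : aa M χ D = χ (AdjoinRoot.mk M D) := rfl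

theorem finite_adjoinRoot (hM : M ≠ 0) : Finite (AdjoinRoot M) := by
  have hmon := monic_of_ne_zero hM
  have : Module.Finite (ZMod 2) (AdjoinRoot M) := (AdjoinRoot.powerBasis' hmon).finite
  exact Module.finite_of_finite (ZMod 2)

theorem sum_polys_char (hM : M ≠ 0) (χ : MulChar (AdjoinRoot M) ℂ) (hχ : χ ≠ 1) :
    ∑ r ∈ polys M.natDegree, χ (AdjoinRoot.mk M r) = 0 := by
  have hmon := monic_of_ne_zero hM
  have := finite_adjoinRoot M hM
  have := Fintype.ofFinite (AdjoinRoot M)
  rw [← MulChar.sum_eq_zero_of_ne_one hχ]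
  refine Finset.sum_bij (fun r _ => AdjoinRoot.mk M r) (fun _ _ => Finset.mem_univ _) ?_ ?_ ?_
  · intro r hr s hs hrs
    rw [mem_polys] at hr hs
    rw [AdjoinRoot.mk_eq_mk] at hrs
    by_contra hne
    have h0 : r - s ≠ 0 := sub_ne_zero.mpr hne
    have h1 : (r - s).degree < M.natDegree :=
      lt_of_le_of_lt (Polynomial.degree_sub_le r s) (max_lt hr hs)
    have h2 := Polynomial.degree_le_of_dvd hrs h0
    rw [Polynomial.degree_eq_natDegree hM] at h2
    exact absurd h1 (not_lt.mpr h2)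
  · intro x _
    obtain ⟨D, rfl⟩ := AdjoinRoot.mk_surjective x
    refine ⟨D %ₘ M, ?_, ?_⟩
    · rw [mem_polys, ← Polynomial.degree_eq_natDegree hM]
      exact Polynomial.degree_modByMonic_lt D hmon
    · rw [AdjoinRoot.mk_eq_mk]
      refine ⟨-(D /ₘ M), ?_⟩
      have := Polynomial.modByMonic_add_div D M
      linear_combination this
  · intro r _
    rfl

theorem SS_eq_zero (hM : M ≠ 0) (χ : MulChar (AdjoinRoot M) ℂ) (hχ : χ ≠ 1) {d : ℕ}
    (hd : M.natDegree ≤ d) : SS (aa M χ) d = 0 := by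
  have hmon := monic_of_ne_zero hM
  have hdeg : M.degree = M.natDegree := Polynomial.degree_eq_natDegree hM
  have h1 : SS (aa M χ) d = ∑ q ∈ monics (d - M.natDegree) ×ˢ polys M.natDegree,
      χ (AdjoinRoot.mk M q.2) := by
    rw [SS]
    refine Finset.sum_bij' (fun D _ => (D /ₘ M, D %ₘ M)) (fun q _ => M * q.1 + q.2) ?_ ?_ ?_ ?_ ?_
    · intro D hD
      rw [mem_monics] at hD
      rw [Finset.mem_product, mem_monics, mem_polys]
      refine ⟨⟨?_, ?_⟩, ?_⟩
      · intro h0
        rw [Polynomial.divByMonic_eq_zero_iff hmon, Polynomial.degree_eq_natDegree hD.1, hdeg] at h0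
        have : D.natDegree < M.natDegree := by exact_mod_cast h0
        omega
      · rw [Polynomial.natDegree_divByMonic D hmon, hD.2]
      · rw [← hdeg]
        exact Polynomial.degree_modByMonic_lt D hmon
    · intro q hq
      rw [Finset.mem_product, mem_monics, mem_polys] at hq
      have h2 : (M * q.1).natDegree = d := by
        rw [Polynomial.natDegree_mul hM hq.1.1, hq.1.2]
        omega
      have h3 : M * q.1 ≠ 0 := mul_ne_zero hM hq.1.1
      have h4 : q.2.degree < (M * q.1).degree := by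
        rw [Polynomial.degree_eq_natDegree h3, h2]
        exact lt_of_lt_of_le hq.2 (by exact_mod_cast hd)
      rw [mem_monics]
      constructor
      · intro h0
        have := Polynomial.degree_add_eq_left_of_degree_lt h4
        rw [h0, Polynomial.degree_zero, Polynomial.degree_eq_natDegree h3] at this
        exact absurd this (by simp)
      · rw [Polynomial.natDegree_add_eq_left_of_degree_lt h4, h2]
    · intro D _
      simp only
      have := Polynomial.modByMonic_add_div D M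
      rw [add_comm]; exact this
    · intro q hq
      rw [Finset.mem_product, mem_monics, mem_polys] at hq
      have h5 := Polynomial.div_modByMonic_unique (f := M * q.1 + q.2) q.1 q.2 hmon
        ⟨by rw [add_comm], by rw [hdeg]; exact hq.2⟩
      exact Prod.ext h5.1 h5.2
    · intro D _
      rw [aa_apply]
      congr 1
      rw [AdjoinRoot.mk_eq_mk]
      refine ⟨D /ₘ M, ?_⟩
      have := Polynomial.modByMonic_add_div D M
      linear_combination -this
  rw [h1, Finset.sum_product]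
  apply Finset.sum_eq_zero
  intro Q _
  exact sum_polys_char M hM χ hχ

theorem SS_zero (a : F2X →* ℂ) : SS a 0 = 1 := by
  have : monics 0 = {1} := by
    ext D
    rw [mem_monics, Finset.mem_singleton]
    constructor
    · rintro ⟨h0, h1⟩
      have hm := monic_of_ne_zero h0
      exact Polynomial.eq_one_of_monic_natDegree_zero hm h1
    · rintro rfl
      exact ⟨one_ne_zero, Polynomial.natDegree_one⟩
  rw [SS, this, Finset.sum_singleton, map_one]

theorem norm_char_unit (hM : M ≠ 0) (χ : MulChar (AdjoinRoot M) ℂ) (u : (AdjoinRoot M)ˣ) :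
    ‖χ (u : AdjoinRoot M)‖ = 1 := by
  have := finite_adjoinRoot M hM
  have := Fintype.ofFinite (AdjoinRoot M)
  have h1 : (u ^ Fintype.card (AdjoinRoot M)ˣ : (AdjoinRoot M)ˣ) = 1 := pow_card_eq_one
  have h2 : χ (u : AdjoinRoot M) ^ Fintype.card (AdjoinRoot M)ˣ = 1 := by
    rw [← map_pow, ← Units.val_pow_eq_pow_val, h1, Units.val_one, map_one]
  exact Complex.norm_eq_one_of_pow_eq_one h2 Fintype.card_ne_zero

theorem isUnit_mk_iff (D : F2X) : IsUnit (AdjoinRoot.mk M D) ↔ IsCoprime D M := by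
  constructor
  · intro h
    obtain ⟨y, hy⟩ := h.exists_right_inv
    obtain ⟨E, rfl⟩ := AdjoinRoot.mk_surjective y
    rw [← map_mul, ← map_one (AdjoinRoot.mk M), AdjoinRoot.mk_eq_mk] at hy
    obtain ⟨F, hF⟩ := hy
    exact ⟨E, -F, by linear_combination hF⟩
  · rintro ⟨a, b, hab⟩
    refine IsUnit.of_mul_eq_one (AdjoinRoot.mk M a) ?_
    rw [← map_mul, ← map_one (AdjoinRoot.mk M), AdjoinRoot.mk_eq_mk]
    exact ⟨-b, by linear_combination hab⟩

/-- bound on the total degree of the irreducible divisors of `M` -/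
noncomputable def CM : ℕ := ∑ P ∈ (irrs M.natDegree).filter (fun P => P ∣ M), P.natDegree

theorem pairs_dvd_le (hM : M ≠ 0) (j : ℕ) :
    ∑ p ∈ (pairs j).filter (fun p => p.1 ∣ M), p.1.natDegree ≤ CM M := by
  have hinj : Set.InjOn (fun p : F2X × ℕ => p.1)
      ((pairs j).filter (fun p => p.1 ∣ M) : Finset (F2X × ℕ)) := by
    intro p hp q hq hpq
    rw [Finset.mem_coe, Finset.mem_filter, mem_pairs] at hp hq
    have h1 := irr_pos hp.1.1
    have h2 := hp.1.2.2
    have h3 := hq.1.2.2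
    have hpq' : p.1 = q.1 := hpq
    refine Prod.ext hpq' ?_
    rw [← hpq', ← h2] at h3
    exact (Nat.eq_of_mul_eq_mul_right h1 h3).symm
  have h := Finset.sum_image (f := fun P : F2X => P.natDegree) hinj
  rw [← h, CM]
  refine Finset.sum_le_sum_of_subset ?_
  intro P hP
  rw [Finset.mem_image] at hP
  obtain ⟨p, hp, rfl⟩ := hP
  rw [Finset.mem_filter, mem_pairs] at hp
  rw [Finset.mem_filter, mem_irrs]
  exact ⟨⟨hp.1.1, Polynomial.natDegree_le_of_dvd hp.2 hM⟩, hp.2⟩

variable {M}

theorem aa_of_dvd (χ : MulChar (AdjoinRoot M) ℂ) {P : F2X} (hP : Irreducible P) (h : P ∣ M) :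
    aa M χ P = 0 := by
  rw [aa_apply]
  apply MulChar.map_nonunit
  rw [isUnit_mk_iff]
  intro hc
  exact hP.not_isUnit (hc.isUnit_of_dvd' dvd_rfl h)

theorem norm_aa_of_not_dvd (hM : M ≠ 0) (χ : MulChar (AdjoinRoot M) ℂ) {P : F2X}
    (hP : Irreducible P) (h : ¬ P ∣ M) : ‖aa M χ P‖ = 1 := by
  have h1 : IsUnit (AdjoinRoot.mk M P) := by
    rw [isUnit_mk_iff]
    exact (hP.coprime_iff_not_dvd).mpr h
  obtain ⟨u, hu⟩ := h1
  rw [aa_apply, ← hu]
  exact norm_char_unit M hM χ u

theorem norm_aa_le (hM : M ≠ 0) (χ : MulChar (AdjoinRoot M) ℂ) {P : F2X}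
    (hP : Irreducible P) : ‖aa M χ P‖ ≤ 1 := by
  by_cases h : P ∣ M
  · rw [aa_of_dvd χ hP h, norm_zero]; exact zero_le_one
  · exact (norm_aa_of_not_dvd hM χ hP h).le

theorem norm_cc_le (hM : M ≠ 0) (χ : MulChar (AdjoinRoot M) ℂ) (j : ℕ) :
    ‖cc (aa M χ) j‖ ≤ 2 ^ j := by
  rcases Nat.eq_zero_or_pos j with rfl | hj
  · have : pairs 0 = ∅ := by
      rw [Finset.eq_empty_iff_forall_notMem]
      intro p hp
      rw [mem_pairs] at hp
      have h1 := irr_pos hp.1
      have h2 : 0 < p.2 * p.1.natDegree := Nat.mul_pos hp.2.1 h1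
      omega
    rw [cc, this, Finset.sum_empty, norm_zero]
    positivity
  · have h := sum_pairs hj
    have h1 : ((∑ p ∈ pairs j, p.1.natDegree : ℕ) : ℝ) = 2 ^ j := by
      rw [h]; push_cast; rfl
    rw [← h1, cc]
    refine (norm_sum_le _ _).trans ?_
    push_cast
    refine Finset.sum_le_sum fun p hp => ?_
    rw [mem_pairs] at hp
    rw [norm_mul, norm_pow, Complex.norm_natCast]
    calc (p.1.natDegree : ℝ) * ‖aa M χ p.1‖ ^ p.2 ≤ p.1.natDegree * 1 :=
          mul_le_mul_of_nonneg_left (pow_le_one₀ (norm_nonneg _) (norm_aa_le hM χ hp.1))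
            (Nat.cast_nonneg _)
      _ = p.1.natDegree := mul_one _

theorem re_cc_ge {l : ℕ} (hM : M ≠ 0) (χ : MulChar (AdjoinRoot M) ℂ)
    (hgood : ∀ P : F2X, Irreducible P → ¬ P ∣ M → Good l P → aa M χ P = 1)
    {j K : ℕ} (hj : 1 ≤ j) (hK : K ∣ 2 ^ j - 1) (hl : ¬ l ∣ K) :
    2 * (K : ℝ) - 2 ^ j - CM M ≤ (cc (aa M χ) j).re := by
  have h1 : ∀ p ∈ pairs j, 2 * (if Good l p.1 then (p.1.natDegree : ℝ) else 0)
      - p.1.natDegree - (if p.1 ∣ M then (p.1.natDegree : ℝ) else 0)
      ≤ ((p.1.natDegree : ℂ) * aa M χ p.1 ^ p.2).re := by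
    intro p hp
    rw [mem_pairs] at hp
    have hn : (0 : ℝ) ≤ p.1.natDegree := Nat.cast_nonneg _
    by_cases hd : p.1 ∣ M
    · rw [aa_of_dvd χ hp.1 hd, zero_pow (by omega), mul_zero, Complex.zero_re, if_pos hd]
      split_ifs <;> linarith
    · rw [if_neg hd, sub_zero]
      have hre : ((p.1.natDegree : ℂ) * aa M χ p.1 ^ p.2).re
          = p.1.natDegree * (aa M χ p.1 ^ p.2).re := by
        rw [← Complex.ofReal_natCast, Complex.re_ofReal_mul]
      by_cases hg : Good l p.1
      · rw [if_pos hg, hgood p.1 hp.1 hd hg, one_pow, mul_one, Complex.natCast_re]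
        linarith
      · rw [if_neg hg, mul_zero, zero_sub, hre]
        have h2 : ‖aa M χ p.1 ^ p.2‖ ≤ 1 := by
          rw [norm_pow]
          exact pow_le_one₀ (norm_nonneg _) (norm_aa_le hM χ hp.1)
        have h3 : -1 ≤ (aa M χ p.1 ^ p.2).re := by
          have := Complex.abs_re_le_norm (aa M χ p.1 ^ p.2)
          have h4 := neg_abs_le (aa M χ p.1 ^ p.2).re
          linarith
        nlinarith
  have h2 := Finset.sum_le_sum h1
  rw [Finset.sum_sub_distrib, Finset.sum_sub_distrib, ← Finset.mul_sum] at h2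
  have h3 : (cc (aa M χ) j).re = ∑ p ∈ pairs j, ((p.1.natDegree : ℂ) * aa M χ p.1 ^ p.2).re := by
    rw [cc, Complex.re_sum]
  rw [h3]
  refine le_trans ?_ h2
  have h4 : (K : ℝ) ≤ ∑ p ∈ pairs j, (if Good l p.1 then (p.1.natDegree : ℝ) else 0) := by
    have h := good_pairs (l := l) hj hK hl
    rw [Finset.sum_filter] at h
    have h5 : ((K : ℕ) : ℝ) ≤ ((∑ p ∈ pairs j, if Good l p.1 then p.1.natDegree else 0 : ℕ) : ℝ) := by
      exact_mod_cast h
    push_cast at h5
    exact h5
  have h5 : ∑ p ∈ pairs j, (p.1.natDegree : ℝ) = 2 ^ j := by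
    have h := sum_pairs hj
    have h1 : ((∑ p ∈ pairs j, p.1.natDegree : ℕ) : ℝ) = 2 ^ j := by
      rw [h]; push_cast; rfl
    push_cast at h1
    exact h1
  have h6 : ∑ p ∈ pairs j, (if p.1 ∣ M then (p.1.natDegree : ℝ) else 0) ≤ CM M := by
    have h := pairs_dvd_le M hM j
    rw [Finset.sum_filter] at h
    have h5 : ((∑ p ∈ pairs j, if p.1 ∣ M then p.1.natDegree else 0 : ℕ) : ℝ) ≤ (CM M : ℝ) := by
      exact_mod_cast h
    push_cast at h5
    exact h5
  rw [h5]
  linarith

end Char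

end Pool.Agent.Helper80.NTodd
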